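import Pool.Agent.Helper76_Bisect.MaxCut

set_option autoImplicit false

/-!
Polynomial-size circuits for minimum bisection give `NP ⊆ P/poly`.
-/

namespace Pool.Agent.Helper76_Bisect

open Finset

section
open Classical

variable {k l n : ℕ}

/-- a property of bit strings which is constant or a literal -/
def OneBit (P : (Fin n → Bool) → Prop) : Prop :=
  (∃ q : Prop, ∀ x, P x ↔ q) ∨ (∃ i b, ∀ x, P x ↔ x i = b)

theorem OneBit.congr {P Q : (Fin n → Bool) → Prop} (h : OneBit P) (hPQ : ∀ x, Q x ↔ P x) :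
    OneBit Q := by
  rcases h with ⟨q, hq⟩ | ⟨i, b, hb⟩
  · exact Or.inl ⟨q, fun x => (hPQ x).trans (hq x)⟩
  · exact Or.inr ⟨i, b, fun x => (hPQ x).trans (hb x)⟩

theorem OneBit.not {P : (Fin n → Bool) → Prop} (h : OneBit P) : OneBit (fun x => ¬ P x) := by
  rcases h with ⟨q, hq⟩ | ⟨i, b, hb⟩
  · exact Or.inl ⟨¬ q, fun x => not_congr (hq x)⟩
  · refine Or.inr ⟨i, !b, fun x => ?_⟩
    beta_reduce
    rw [hb x]
    cases b <;> cases x i <;> decide

theorem OneBit.computes {P : (Fin n → Bool) → Prop} (h : OneBit P) :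
    Computes (coords (Fin n)) 2 {fun x => decide (P x)} := by
  rcases h with ⟨q, hq⟩ | ⟨i, b, hb⟩
  · refine (Computes.empty.const (decide q)).mono (by norm_num) ?_
    rintro g rfl
    left; funext x; simp [hq x]
  · have hi : (fun x : Fin n → Bool => x i) ∈ coords (Fin n) := ⟨i, rfl⟩
    cases b
    · refine ((Computes.empty.base hi).not (Set.mem_insert _ _)).mono (by norm_num) ?_
      rintro g rfl
      left; funext x
      rw [Bool.eq_iff_iff]
      simp [hb x]
    · refine (Computes.empty.base hi).mono (by norm_num) ?_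
      rintro g rfl
      left; funext x
      rw [Bool.eq_iff_iff]
      simp [hb x]

theorem oneBit_mem (gs : Fin l → Gate (Fin k) n) (e : U k l × U k l) :
    OneBit (fun x => e ∈ allE gs x) := by
  rcases hlab : lab e with _ | g
  · refine Or.inl ⟨e ∈ starE k l, fun x => ?_⟩
    unfold allE
    beta_reduce
    rw [Finset.mem_union]
    constructor
    · rintro (h | h)
      · exact h
      · obtain ⟨g, _, hg⟩ := Finset.mem_biUnion.mp h
        have := lab_gate hg
        rw [hlab] at this
        exact absurd this (by simp)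
    · exact fun h => Or.inl h
  · have h1 : ∀ x, e ∈ allE gs x ↔ e ∈ gE x g (gs g) := by
      intro x
      unfold allE
      rw [Finset.mem_union]
      constructor
      · rintro (h | h)
        · have := lab_star h
          rw [hlab] at this
          exact absurd this (by simp)
        · obtain ⟨g', _, hg'⟩ := Finset.mem_biUnion.mp h
          have := lab_gate hg'
          rw [hlab] at this
          rw [Option.some.inj this]
          exact hg'
      · exact fun h => Or.inr (Finset.mem_biUnion.mpr ⟨g, Finset.mem_univ _, h⟩)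
    refine OneBit.congr ?_ h1
    rcases hg : gs g with ⟨v, i⟩ | ⟨v, b⟩ | ⟨z, a, b⟩
    · by_cases ht : e = bitE g v true
      · refine Or.inr ⟨i, true, fun x => ?_⟩
        beta_reduce
        rw [gE, Finset.mem_singleton, ht]
        cases x i <;> simp [bitE]
      · by_cases hf : e = bitE g v false
        · refine Or.inr ⟨i, false, fun x => ?_⟩
          beta_reduce
          rw [gE, Finset.mem_singleton, hf]
          cases x i <;> simp [bitE]
        · refine Or.inl ⟨False, fun x => ?_⟩
          beta_reduce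
          rw [gE, Finset.mem_singleton]
          cases x i <;> simp [ht, hf]
    · exact Or.inl ⟨e ∈ ({bitE g v b} : Finset (U k l × U k l)), fun x => Iff.rfl⟩
    · exact Or.inl ⟨_, fun x => Iff.rfl⟩

theorem oneBit_cutGraph (gs : Fin l → Gate (Fin k) n) (u v : U k l) :
    OneBit (fun x => (cutGraph gs x).Adj u v) := by
  by_cases h : rk u.2 < rk v.2
  · refine (oneBit_mem gs (u, v)).congr fun x => ?_
    rw [cutGraph_adj]
    constructor
    · rintro (h' | h')
      · exact h'
      · exact absurd (rk_all h') (not_lt.mpr h.le)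
    · exact fun h' => Or.inl h'
  · refine (oneBit_mem gs (v, u)).congr fun x => ?_
    rw [cutGraph_adj]
    constructor
    · rintro (h' | h')
      · exact absurd (rk_all h') h
      · exact h'
    · exact fun h' => Or.inr h'

theorem oneBit_bisGraph (gs : Fin l → Gate (Fin k) n) (p q : U k l ⊕ U k l) :
    OneBit (fun x => (bisGraph gs x).Adj p q) := by
  by_cases hpq : p = q
  · refine Or.inl ⟨False, fun x => ?_⟩
    simp [bisGraph, hpq]
  rcases p with u | u
  · rcases q with v | v
    · refine (oneBit_cutGraph gs u v).not.congr fun x => ?_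
      simp only [bisGraph]
      constructor
      · rintro ⟨_, h⟩ h'
        exact h ⟨u, v, rfl, rfl, h'⟩
      · intro h
        refine ⟨hpq, ?_⟩
        rintro ⟨u', v', hu, hv, h'⟩
        rw [Sum.inl.inj hu, Sum.inl.inj hv] at h
        exact h h'
    · refine Or.inl ⟨True, fun x => ?_⟩
      simp [bisGraph]
  · refine Or.inl ⟨True, fun x => ?_⟩
    simp only [bisGraph, iff_true]
    refine ⟨hpq, ?_⟩
    rintro ⟨u', v', hu, _⟩
    exact absurd hu (by simp)

/-- Polynomial-size circuits for minimum bisection give `NP ⊆ P/poly`. -/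
theorem np_of_minbis (hmb : ∃ c k : ℕ, ∀ (N h K : ℕ), 2 * h = N → 0 < h →
      Computes (adjBasis N) (c * N ^ k + c)
        {fun H => decide (∃ A : Finset (Fin N), A.card = h ∧ cutEdges H A ≤ K)}) :
    NPSubsetPPoly := by
  obtain ⟨c, κ, hmb⟩ := hmb
  refine ⟨3 * c * 44 ^ κ, 2 * κ, fun n m s C D hC hD => ?_⟩
  obtain ⟨k, l, gs, hk, hl, hs, hsat⟩ := hC.gates
  set h : ℕ := Fintype.card (U k l) with hh
  have hcardU : h = (k + 1) * (l * 5 + 1) := by
    rw [hh]
    simp [U, Fintype.card_prod, Fintype.card_option]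
  have hpos : 0 < h := by rw [hcardU]; positivity
  have hN : Fintype.card (Fin (2 * h)) = Fintype.card (U k l ⊕ U k l) := by
    rw [Fintype.card_fin, Fintype.card_sum, ← hh]; ring
  let e : Fin (2 * h) ≃ (U k l ⊕ U k l) := Fintype.equivOfCardEq hN
  let Ψ : (Fin n → Bool) → SimpleGraph (Fin (2 * h)) := fun x => (bisGraph gs x).comap e
  set K : ℕ := Fintype.card (U k l) * Fintype.card (U k l) +
        ∑ g, deficit (gs g) - ((starE k l).card + ∑ g, esize (gs g)) with hK
  have hcomp := (hmb (2 * h) h K rfl hpos).comp (𝓒 := coords (Fin n)) Ψ 2 (by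
    rintro f ⟨i, j, hf⟩
    have h1 := (oneBit_bisGraph gs (e i) (e j)).computes
    refine h1.mono le_rfl ?_
    rintro g rfl
    rw [Set.mem_singleton_iff]
    funext x
    rw [Bool.eq_iff_iff]
    simp only [Function.comp_apply, hf, decide_eq_true_eq, Ψ, SimpleGraph.comap_adj])
  have hDmem : D ∈ {g | ∃ f ∈ ({fun H => decide (∃ A : Finset (Fin (2 * h)), A.card = h ∧
      cutEdges H A ≤ K)} : Set (SimpleGraph (Fin (2 * h)) → Bool)), g = f ∘ Ψ} := by
    refine ⟨_, rfl, ?_⟩
    funext x
    rw [Bool.eq_iff_iff, hD x, hsat x, ← bis_iff]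
    simp only [Function.comp_apply, decide_eq_true_eq, Ψ, cutEdges_comap]
    constructor
    · rintro ⟨A, hA1, hA2⟩
      refine ⟨A.map e.symm.toEmbedding, by rw [Finset.card_map, hA1], ?_⟩
      have : (A.map e.symm.toEmbedding).map e.toEmbedding = A := by
        ext v; simp
      rw [this]; exact hA2
    · rintro ⟨A, hA1, hA2⟩
      exact ⟨A.map e.toEmbedding, by rw [Finset.card_map, hA1], hA2⟩
  have hcirc := hcomp.hasCircuit hDmem
  obtain ⟨L, hL1, hL2, hL3⟩ := hcirc
  refine ⟨L, hL1, hL2.trans ?_, hL3⟩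
  have hb : 2 * h ≤ 44 * s ^ 2 := by
    rw [hcardU]
    have a1 : k + 1 ≤ 2 * s := by omega
    have a2 : l * 5 + 1 ≤ 11 * s := by omega
    calc 2 * ((k + 1) * (l * 5 + 1)) ≤ 2 * ((2 * s) * (11 * s)) :=
          Nat.mul_le_mul_left _ (Nat.mul_le_mul a1 a2)
      _ = 44 * s ^ 2 := by ring
  have hb2 : (2 * h) ^ κ ≤ 44 ^ κ * s ^ (2 * κ) := by
    calc (2 * h) ^ κ ≤ (44 * s ^ 2) ^ κ := Nat.pow_le_pow_left hb κ
      _ = 44 ^ κ * s ^ (2 * κ) := by rw [mul_pow, ← pow_mul]
  have hb3 : 1 ≤ 44 ^ κ := Nat.one_le_pow _ _ (by norm_num)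
  calc (c * (2 * h) ^ κ + c) * (2 + 1) = 3 * c * (2 * h) ^ κ + 3 * c * 1 := by ring
    _ ≤ 3 * c * (44 ^ κ * s ^ (2 * κ)) + 3 * c * 44 ^ κ :=
        add_le_add (Nat.mul_le_mul_left _ hb2) (Nat.mul_le_mul_left _ hb3)
    _ = 3 * c * 44 ^ κ * s ^ (2 * κ) + 3 * c * 44 ^ κ := by ring

/-- A fast smoothed tester for `ρ`-Bisection gives `NP ⊆ P/poly`. -/
theorem main {ρ : ℝ} (h0 : 0 < ρ) (h1 : ρ < 1 / 8) (hT : HasFastSmoothedTester ρ) :
    NPSubsetPPoly :=
  np_of_minbis (minbis_computes h0 h1 hT)

end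

end Pool.Agent.Helper76_Bisect
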