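import Pool.Agent.Helper76_Bisect.Converse
import Pool.Agent.Helper76_Bisect.Final

set_option autoImplicit false

/-!
The equivalence: fast smoothed testers exist if and only if `NP ⊆ P/poly`.
-/

namespace Pool.Agent.Helper76_Bisect

open Finset

/-- number of blocks -/
def kP (R : ℕ) : ℕ := 5 * R ^ 2

/-- sample size per block -/
def tP (R : ℕ) : ℕ := (125 * R ^ 2) ^ 2

/-- number of test pairs -/
def mP (R : ℕ) : ℕ := 16 * R ^ 4 * (kP R * tP R + 4)

theorem runTime_poly (c κ : ℕ) : PolyBdd (fun R => runTime c κ (kP R) (tP R) (mP R) + 1) := by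
  have hk : PolyBdd kP := (PolyBdd.const 5).mul (PolyBdd.id.pow 2)
  have ht : PolyBdd tP := ((PolyBdd.const 125).mul (PolyBdd.id.pow 2)).pow 2
  have hm : PolyBdd mP :=
    ((PolyBdd.const 16).mul (PolyBdd.id.pow 4)).mul ((hk.mul ht).add (PolyBdd.const 4))
  have h2t : PolyBdd (fun R => mP R * (2 * tP R) + mP R) :=
    (hm.mul ((PolyBdd.const 2).mul ht)).add hm
  have hacc : PolyBdd (fun R => accCost (tP R) (mP R)) := by
    have h1 : PolyBdd (fun R => 5 * tP R + 100 * (tP R + 2) ^ 3) :=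
      ((PolyBdd.const 5).mul ht).add ((PolyBdd.const 100).mul ((ht.add (PolyBdd.const 2)).pow 3))
    have h2 : PolyBdd (fun R => 5 * mP R + 100 * (mP R + 2) ^ 3) :=
      ((PolyBdd.const 5).mul hm).add ((PolyBdd.const 100).mul ((hm.add (PolyBdd.const 2)).pow 3))
    exact (h1.mul (hm.mul (PolyBdd.const 2))).add h2
  have hrun : PolyBdd (fun R => runTime c κ (kP R) (tP R) (mP R)) :=
    (((hk.mul ht).add (hm.mul (PolyBdd.const 2))).add h2t).add
      (((PolyBdd.const c).mul (((h2t.add (hk.mul ht)).add hacc).pow κ)).add (PolyBdd.const c))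
  exact hrun.add (PolyBdd.const 1)

section
open Classical

theorem exp_bound (kt : ℕ) : (2 : ℝ) ^ kt * (4 * Real.exp (-((kt : ℝ) + 4))) ≤ 1 / 10 := by
  have h2 : (2 : ℝ) ^ kt ≤ Real.exp kt := by
    have : (2 : ℝ) ≤ Real.exp 1 := by
      have := Real.add_one_le_exp (1 : ℝ); linarith
    calc (2 : ℝ) ^ kt ≤ (Real.exp 1) ^ kt := pow_le_pow_left₀ (by norm_num) this kt
      _ = Real.exp kt := by rw [← Real.exp_nat_mul]; simp
  have h4 : (40 : ℝ) ≤ Real.exp 4 := by
    have h5 : (2.7 : ℝ) ≤ Real.exp 1 := by have := Real.exp_one_gt_d9; linarith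
    have h6 : Real.exp 4 = (Real.exp 1) ^ 4 := by rw [← Real.exp_nat_mul]; norm_num
    rw [h6]
    calc (40 : ℝ) ≤ 2.7 ^ 4 := by norm_num
      _ ≤ (Real.exp 1) ^ 4 := pow_le_pow_left₀ (by norm_num) h5 4
  have h7 : Real.exp (-4) ≤ 1 / 40 := by
    rw [Real.exp_neg, ← one_div]
    exact one_div_le_one_div_of_le (by norm_num) h4
  calc (2 : ℝ) ^ kt * (4 * Real.exp (-((kt : ℝ) + 4)))
      ≤ Real.exp kt * (4 * Real.exp (-((kt : ℝ) + 4))) :=
        mul_le_mul_of_nonneg_right h2 (by positivity)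
    _ = 4 * Real.exp (-4) := by
        rw [mul_left_comm, ← Real.exp_add]; congr 2; ring
    _ ≤ 1 / 10 := by linarith

theorem exists_alg {c κ : ℕ}
    (hNP : ∀ (n m s : ℕ) (C : (Fin n ⊕ Fin m → Bool) → Bool) (D : (Fin n → Bool) → Bool),
      HasCircuit s C → (∀ x, D x = true ↔ ∃ w : Fin m → Bool, C (Sum.elim x w) = true) →
        HasCircuit (c * s ^ κ + c) D)
    {ρ σ : ℝ} (h0 : 0 < ρ) (h1 : ρ < 1 / 8) (hσ0 : 0 < σ) (hσ1 : σ ≤ 1 / 2)
    {R : ℕ} (hR : 1 ≤ R) (hRη : 16 / (σ * (1 / 4 - 2 * ρ)) ≤ R) {τ : ℝ}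
    (hτ : (runTime c κ (kP R) (tP R) (mP R) : ℝ) ≤ τ) {n : ℕ} (hkn : kP R ≤ n) (he : Even n)
    (hlarge : (2 : ℝ) ^ n * Real.exp (- ((σ * (1 / 4 - 2 * ρ) / 2) ^ 2 * (n : ℝ) ^ 2)) ≤ 1 / 30) :
    ∃ A : RandomizedAlgorithm n τ, ∀ G : SimpleGraph (Fin n), errorProb ρ σ A G ≤ 1 / 4 := by
  have hRR : (1 : ℝ) ≤ R := by exact_mod_cast hR
  have hR0 : (0 : ℝ) < R := by linarith
  have hk : 0 < kP R := by unfold kP; positivity
  have ht : 0 < tP R := by unfold tP; positivity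
  have hm : 0 < mP R := by unfold mP; positivity
  have hn : 0 < n := lt_of_lt_of_le hk hkn
  have : Nonempty (Fin n) := ⟨⟨0, hn⟩⟩
  set η : ℝ := σ * (1 / 4 - 2 * ρ) with hη
  have hη0 : 0 < η := by
    have : 0 < 1 / 4 - 2 * ρ := by linarith
    rw [hη]; positivity
  have hη1 : η ≤ 1 / 8 := by
    rw [hη]; nlinarith
  set Λ : ℝ := R / 4 with hΛ
  set δ : ℝ := 1 / R with hδ
  set a : ℝ := 1 / (2 * (R : ℝ) ^ 2) with ha
  have hΛ0 : 0 < Λ := by rw [hΛ]; positivity
  have hδ0 : 0 < δ := by rw [hδ]; positivity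
  have ha0 : 0 ≤ a := by rw [ha]; positivity
  have hR2 : (1 : ℝ) ≤ (R : ℝ) ^ 2 := one_le_pow₀ hRR
  have ha1 : a ≤ 1 := by
    rw [ha, div_le_one (by positivity)]; linarith
  have hδη : 8 * δ ≤ η / 2 := by
    rw [div_le_iff₀ hη0] at hRη
    rw [hδ]
    have : 8 * (1 / (R : ℝ)) = 8 / R := by ring
    rw [this, div_le_iff₀ hR0]
    linarith
  -- numerical hypotheses of the test
  have hkR : ((kP R : ℕ) : ℝ) = 5 * (R : ℝ) ^ 2 := by unfold kP; push_cast; ring
  have htR : ((tP R : ℕ) : ℝ) = (125 * (R : ℝ) ^ 2) ^ 2 := by unfold tP; push_cast; ring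
  have n1 : 10 * (1 + Λ) / Real.sqrt (tP R) ≤ δ / 10 := by
    rw [htR, Real.sqrt_sq (by positivity), hδ, hΛ, div_le_div_iff₀ (by positivity) (by norm_num)]
    rw [div_mul_eq_mul_div, le_div_iff₀ hR0]
    nlinarith
  have n2 : (kP R : ℝ) * ((Λ + 1) * (2 / (kP R : ℝ)) ^ 2) ≤ δ := by
    rw [hkR, hΛ, hδ]
    have e1 : 5 * (R : ℝ) ^ 2 * ((R / 4 + 1) * (2 / (5 * (R : ℝ) ^ 2)) ^ 2) =
        (R + 4) / (5 * (R : ℝ) ^ 2) := by
      field_simp
      norm_num
    rw [e1, div_le_div_iff₀ (by positivity) hR0]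
    nlinarith
  have n3 : a * (1 + Λ) ≤ δ := by
    rw [ha, hΛ, hδ, one_div_mul_eq_div, div_le_div_iff₀ (by positivity) hR0]
    nlinarith
  have hexp : a ^ 2 / 4 * (mP R : ℝ) = ((kP R * tP R : ℕ) : ℝ) + 4 := by
    unfold mP
    rw [ha]; push_cast
    field_simp
    ring
  have n4 : (2 : ℝ) ^ (kP R * tP R) * (4 * Real.exp (-(a ^ 2 / 4 * (mP R : ℝ)))) ≤ 1 / 10 := by
    rw [hexp]; exact exp_bound _
  have n5 : 4 * Real.exp (-(a ^ 2 / 4 * (mP R : ℝ))) ≤ 1 / 10 := by
    refine le_trans ?_ n4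
    have : (1 : ℝ) ≤ 2 ^ (kP R * tP R) := one_le_pow₀ (by norm_num)
    have h5 : 0 ≤ 4 * Real.exp (-(a ^ 2 / 4 * (mP R : ℝ))) := by positivity
    nlinarith
  let lab : Fin n → Fin (kP R) := fun v => ⟨v.val % kP R, Nat.mod_lt _ hk⟩
  have hblock : ∀ i, (((univ.filter (fun v => (lab v).val = i)).card : ℝ) /
      (Fintype.card (Fin n) : ℝ)) ≤ 2 / (kP R : ℝ) := by
    intro i
    rw [Fintype.card_fin]
    exact block_size (kP R) hk hkn i
  let Ω := (Fin (kP R) → Fin (tP R) → Fin n) × (Fin (mP R) → Fin n × Fin n)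
  let f : Ω → SimpleGraph (Fin n) → Bool :=
    fun ω G => decide (accept G Λ lab (ρ + 3 * δ) ω.1 ω.2)
  have hf : ∀ ω, ComputedInTime τ (f ω) := fun ω =>
    accept_computed hNP Λ lab (ρ + 3 * δ) ω.1 ω.2 hτ
  have hΩ : (0 : ℝ) < Fintype.card Ω := by exact_mod_cast Fintype.card_pos
  refine ⟨uniformAlg f hf, fun G => ?_⟩
  -- error on a fixed graph
  set err : SimpleGraph (Fin n) → ℝ := fun G' => ∑ g : SimpleGraph (Fin n) → Bool with
        ¬ (g G' = true ↔ RhoBisection ρ G'), (uniformAlg f hf).prob g with herr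
  have herr' : ∀ G', err G' = ((univ.filter (fun ω : Ω => ¬ (f ω G' = true ↔
      RhoBisection ρ G'))).card : ℝ) / (Fintype.card Ω : ℝ) := by
    intro G'
    exact uniformAlg_err f hf (fun g => ¬ (g G' = true ↔ RhoBisection ρ G'))
  have herr1 : ∀ G', err G' ≤ 1 := by
    intro G'
    rw [herr', div_le_one hΩ]
    exact_mod_cast Finset.card_le_univ _
  have herr0 : ∀ G', 0 ≤ err G' := by
    intro G'; rw [herr']; positivity
  have hyes : ∀ G', RhoBisection ρ G' → err G' ≤ 1 / 5 := by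
    intro G' hG'
    rw [herr', div_le_iff₀ hΩ]
    obtain ⟨S, hS1, hS2⟩ := hG'
    have hobj : obj G' Λ (fun v => decide (v ∈ S)) ≤ ρ := by
      rw [obj_eq]
      have hnR : (0 : ℝ) < n := by exact_mod_cast hn
      have e1 : ((S.card : ℝ) / n - 1 / 2) = 0 := by
        have : (n : ℝ) = 2 * S.card := by exact_mod_cast hS1.symm
        rw [sub_eq_zero, div_eq_iff hnR.ne', this]; ring
      rw [e1, div_add' _ _ _ (by positivity), div_le_iff₀ (by positivity)]
      nlinarith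
    have hc := complete G' hΛ0.le ht hm lab ρ δ a (2 / (kP R : ℝ)) hδ0 ha0 (by linarith) hblock n1
      n2 n3 n5 _ hobj
    refine le_trans (le_of_eq ?_) (hc.trans (le_of_eq ?_))
    · congr 2
      ext ω
      have hP : RhoBisection ρ G' := ⟨S, hS1, hS2⟩
      simp only [Finset.mem_filter, Finset.mem_univ, true_and, f, decide_eq_true_eq, hP, iff_true]
    · ring
  have hfarerr : ∀ G' : SimpleGraph (Fin n), ¬ (∃ S : Finset (Fin n), 2 * S.card = n ∧
      (cutEdges G' S : ℝ) ≤ (ρ + 8 * δ) * (n : ℝ) ^ 2) → err G' ≤ 1 / 5 := by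
    intro G' hG'
    rw [herr', div_le_iff₀ hΩ]
    have hfar : ∀ S : Finset (Fin n), 2 * S.card = n →
        (ρ + 8 * δ) * (n : ℝ) ^ 2 ≤ (cutEdges G' S : ℝ) := by
      intro S hS
      by_contra hcon
      push Not at hcon
      exact hG' ⟨S, hS, hcon.le⟩
    have hobj : ∀ y, ρ + 7 * δ ≤ obj G' Λ y := by
      intro y
      have := obj_far G' hn he hΛ0 hfar y
      have e1 : 1 / (4 * Λ) = δ := by rw [hΛ, hδ]; field_simp
      rw [e1] at this
      linarith
    have hP : ¬ RhoBisection ρ G' := by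
      rintro ⟨S, hS1, hS2⟩
      refine hG' ⟨S, hS1, hS2.trans ?_⟩
      have : (0 : ℝ) ≤ (n : ℝ) ^ 2 := by positivity
      nlinarith
    have hs := sound G' hΛ0.le hm lab ρ δ a hδ0 ha0 (by linarith) n3 n4 hobj
    refine le_trans (le_of_eq ?_) (hs.trans ?_)
    · congr 2
      ext ω
      simp only [Finset.mem_filter, Finset.mem_univ, true_and, f, decide_eq_true_eq, hP, iff_false,
        not_not]
    · have : (0 : ℝ) ≤ Fintype.card Ω := hΩ.le
      change (Fintype.card Ω : ℝ) * (1 / 10) ≤ 1 / 5 * (Fintype.card Ω : ℝ)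
      linarith
  -- conditional error
  have hpos := fun T : SimpleGraph (Fin n) => toggleProb_nonneg hσ0.le (by linarith : σ ≤ 1) T
  have hEP : errorProb ρ σ (uniformAlg f hf) G =
      (∑ T : SimpleGraph (Fin n) with (RhoBisection ρ (symmDiff G T) ↔ RhoBisection ρ G),
        toggleProb σ T * err (symmDiff G T)) /
      (∑ T : SimpleGraph (Fin n) with (RhoBisection ρ (symmDiff G T) ↔ RhoBisection ρ G),
        toggleProb σ T) := rfl
  rw [hEP]
  set w : ℝ := ∑ T : SimpleGraph (Fin n) with (RhoBisection ρ (symmDiff G T) ↔ RhoBisection ρ G),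
      toggleProb σ T with hw
  have hw0 : 0 ≤ w := Finset.sum_nonneg fun T _ => hpos T
  by_cases hG : RhoBisection ρ G
  · have hle : ∑ T : SimpleGraph (Fin n) with (RhoBisection ρ (symmDiff G T) ↔ RhoBisection ρ G),
        toggleProb σ T * err (symmDiff G T) ≤ w * (1 / 5) := by
      rw [hw, Finset.sum_mul]
      refine Finset.sum_le_sum fun T hT => ?_
      have hT' := (Finset.mem_filter.mp hT).2.mpr hG
      exact mul_le_mul_of_nonneg_left (hyes _ hT') (hpos T)
    rcases hw0.eq_or_lt with hw1 | hw1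
    · rw [← hw1, div_zero]; norm_num
    · rw [div_le_iff₀ hw1]; linarith
  · set bad : SimpleGraph (Fin n) → Prop := fun T => ∃ S : Finset (Fin n), 2 * S.card = n ∧
      (cutEdges (symmDiff G T) S : ℝ) ≤ (ρ + 8 * δ) * (n : ℝ) ^ 2 with hbad
    have hpbad : ∑ T : SimpleGraph (Fin n) with bad T, toggleProb σ T ≤ 1 / 30 := by
      refine (far_prob hσ0.le hσ1 (by linarith) (by linarith) G (r := ρ + 8 * δ) (h := η / 2)
        ?_).trans hlarge
      intro S hS
      rw [mu_eq σ G S hS]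
      have hcut : ρ * (n : ℝ) ^ 2 ≤ cutEdges G S := by
        by_contra hcon
        push Not at hcon
        exact hG ⟨S, hS, hcon.le⟩
      have hnn : (0 : ℝ) ≤ (n : ℝ) ^ 2 := by positivity
      have e1 : ρ * (n : ℝ) ^ 2 * (1 - 2 * σ) ≤ (cutEdges G S : ℝ) * (1 - 2 * σ) :=
        mul_le_mul_of_nonneg_right hcut (by linarith)
      have e2 : ρ * (n : ℝ) ^ 2 * (1 - 2 * σ) + σ * ((n : ℝ) ^ 2 / 4) = (ρ + η) * (n : ℝ) ^ 2 := by
        rw [hη]; ring
      have e3 : (ρ + 8 * δ + η / 2) * (n : ℝ) ^ 2 ≤ (ρ + η) * (n : ℝ) ^ 2 :=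
        mul_le_mul_of_nonneg_right (by linarith) hnn
      linarith
    have hgoodbad : ∀ T, ¬ bad T → (RhoBisection ρ (symmDiff G T) ↔ RhoBisection ρ G) := by
      intro T hT
      constructor
      · rintro ⟨S, hS1, hS2⟩
        exfalso
        refine hT ⟨S, hS1, hS2.trans ?_⟩
        have : (0 : ℝ) ≤ (n : ℝ) ^ 2 := by positivity
        nlinarith
      · intro h; exact absurd h hG
    have hw1 : 29 / 30 ≤ w := by
      have h3 : ∑ T : SimpleGraph (Fin n) with ¬ bad T, toggleProb σ T ≤ w := by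
        refine Finset.sum_le_sum_of_subset_of_nonneg ?_ (fun T _ _ => hpos T)
        intro T hT
        simp only [Finset.mem_filter, Finset.mem_univ, true_and] at hT ⊢
        exact hgoodbad T hT
      have h4 := Finset.sum_filter_add_sum_filter_not univ bad (fun T => toggleProb σ T)
      rw [sum_toggleProb] at h4
      linarith
    have hle : ∑ T : SimpleGraph (Fin n) with (RhoBisection ρ (symmDiff G T) ↔ RhoBisection ρ G),
        toggleProb σ T * err (symmDiff G T) ≤ w * (1 / 5) + 1 / 30 := by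
      calc ∑ T : SimpleGraph (Fin n) with (RhoBisection ρ (symmDiff G T) ↔ RhoBisection ρ G),
            toggleProb σ T * err (symmDiff G T)
          ≤ ∑ T : SimpleGraph (Fin n) with (RhoBisection ρ (symmDiff G T) ↔ RhoBisection ρ G),
            (toggleProb σ T * (1 / 5) + if bad T then toggleProb σ T else 0) := by
            refine Finset.sum_le_sum fun T _ => ?_
            by_cases hT : bad T
            · rw [if_pos hT]
              have := mul_le_mul_of_nonneg_left (herr1 (symmDiff G T)) (hpos T)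
              have h5 := hpos T
              linarith
            · rw [if_neg hT, add_zero]
              exact mul_le_mul_of_nonneg_left (hfarerr _ hT) (hpos T)
        _ = w * (1 / 5) + ∑ T : SimpleGraph (Fin n) with (RhoBisection ρ (symmDiff G T) ↔
            RhoBisection ρ G), (if bad T then toggleProb σ T else 0) := by
            rw [Finset.sum_add_distrib, ← Finset.sum_mul]
        _ ≤ w * (1 / 5) + ∑ T : SimpleGraph (Fin n), (if bad T then toggleProb σ T else 0) := by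
            refine add_le_add le_rfl ?_
            refine Finset.sum_le_sum_of_subset_of_nonneg (Finset.filter_subset _ _) ?_
            intro T _ _
            split_ifs
            · exact hpos T
            · exact le_rfl
        _ ≤ _ := by
            refine add_le_add le_rfl ?_
            rw [← Finset.sum_filter]
            exact hpbad
    rw [div_le_iff₀ (by linarith)]
    linarith

/-- the constant algorithm -/
theorem trivial_alg (n : ℕ) {τ : ℝ} (hτ : 1 ≤ τ) : Nonempty (RandomizedAlgorithm n τ) :=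
  ⟨uniformAlg (Ω := Unit) (fun _ _ => true) (fun _ => ⟨[fun _ => true], [],
    QueryProgram.const true QueryProgram.nil, by simpa using hτ, by simp⟩)⟩

theorem fast_tester_of_np {ρ : ℝ} (h0 : 0 < ρ) (h1 : ρ < 1 / 8) (hNP : NPSubsetPPoly) :
    HasFastSmoothedTester ρ := by
  obtain ⟨c, κ, hNP⟩ := hNP
  obtain ⟨c₁, κ₁, hp⟩ := runTime_poly c κ
  have hρ' : (0 : ℝ) < 1 / 4 - 2 * ρ := by linarith
  obtain ⟨q, hq⟩ := exists_nat_ge (32 / (1 / 4 - 2 * ρ))
  refine ⟨c₁ * q ^ κ₁, κ₁, fun ε σ hσ0 hσ1 hε0 hε1 => ?_⟩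
  set η : ℝ := σ * (1 / 4 - 2 * ρ) with hη
  have hη0 : 0 < η := by positivity
  have hη1 : η ≤ 1 := by rw [hη]; nlinarith
  set R : ℕ := ⌈16 / η⌉₊ with hR
  have hR1 : 16 / η ≤ R := Nat.le_ceil _
  have h16 : 16 ≤ 16 / η := by rw [le_div_iff₀ hη0]; linarith
  have hR0 : 1 ≤ R := by
    have : (1 : ℝ) ≤ R := by linarith
    exact_mod_cast this
  have hR2 : (R : ℝ) ≤ 32 / η := by
    have h3 := Nat.ceil_lt_add_one (show (0 : ℝ) ≤ 16 / η by positivity)
    rw [← hR] at h3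
    have h4 : 32 / η = 16 / η + 16 / η := by ring
    linarith
  have hRle : (R : ℝ) ≤ q * (1 / ε + 1 / σ) := by
    have e1 : 32 / η = 32 / (1 / 4 - 2 * ρ) * (1 / σ) := by
      rw [hη]; field_simp
    have e2 : (0 : ℝ) < 1 / ε := by positivity
    have e3 : (0 : ℝ) < 1 / σ := by positivity
    calc (R : ℝ) ≤ 32 / (1 / 4 - 2 * ρ) * (1 / σ) := by rw [← e1]; exact hR2
      _ ≤ q * (1 / σ) := mul_le_mul_of_nonneg_right hq e3.le
      _ ≤ q * (1 / ε + 1 / σ) := by
          refine mul_le_mul_of_nonneg_left (by linarith) (Nat.cast_nonneg _)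
  set τ : ℝ := ((c₁ * q ^ κ₁ : ℕ) : ℝ) * (1 / ε + 1 / σ) ^ κ₁ with hτ
  have hτ1 : (runTime c κ (kP R) (tP R) (mP R) : ℝ) + 1 ≤ τ := by
    have h3 : ((runTime c κ (kP R) (tP R) (mP R) + 1 : ℕ) : ℝ) ≤ ((c₁ * R ^ κ₁ : ℕ) : ℝ) := by
      exact_mod_cast hp R hR0
    calc (runTime c κ (kP R) (tP R) (mP R) : ℝ) + 1 ≤ c₁ * (R : ℝ) ^ κ₁ := by
          push_cast at h3; exact h3
      _ ≤ c₁ * (q * (1 / ε + 1 / σ)) ^ κ₁ := by gcongr
      _ = τ := by rw [hτ, mul_pow]; push_cast; ring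
  have hrun0 : (0 : ℝ) ≤ runTime c κ (kP R) (tP R) (mP R) := Nat.cast_nonneg _
  obtain ⟨n₁, hn₁⟩ := exists_large hη0
  let A : (n : ℕ) → RandomizedAlgorithm n τ := fun n =>
    if h : (kP R + n₁ ≤ n ∧ Even n) then
      (exists_alg hNP h0 h1 hσ0 hσ1 hR0 hR1 (by linarith : _ ≤ τ) (by omega) h.2
        (hn₁ n (by omega))).choose
    else (trivial_alg n (by linarith : 1 ≤ τ)).some
  refine ⟨A, fun δ hδ => ⟨kP R + n₁, fun n hn hne G => ?_⟩⟩
  have hA : A n = (exists_alg hNP h0 h1 hσ0 hσ1 hR0 hR1 (by linarith : _ ≤ τ) (by omega) hne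
        (hn₁ n (by omega))).choose := dif_pos ⟨hn, hne⟩
  rw [hA]
  have := (exists_alg hNP h0 h1 hσ0 hσ1 hR0 hR1 (by linarith : _ ≤ τ) (by omega) hne
        (hn₁ n (by omega))).choose_spec G
  linarith

/-- Fast smoothed testers for `ρ`-Bisection exist if and only if `NP ⊆ P/poly`. -/
theorem fast_tester_iff {ρ : ℝ} (h0 : 0 < ρ) (h1 : ρ < 1 / 8) :
    HasFastSmoothedTester ρ ↔ NPSubsetPPoly :=
  ⟨main h0 h1, fast_tester_of_np h0 h1⟩

end

end Pool.Agent.Helper76_Bisect
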