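import Pool.Agent.Helper76_Bisect.Gadget

set_option autoImplicit false

/-!
Fractional bisections of the blow-up are not better than integral ones.
-/

namespace Pool.Agent.Helper76_Bisect

open Finset

section
open Classical

variable {N : ℕ}

/-- the direction `e_i - e_j` -/
noncomputable def dir (i j : Fin N) (k : Fin N) : ℝ :=
  (if k = i then 1 else 0) - (if k = j then 1 else 0)

theorem quad_line (H : SimpleGraph (Fin N)) (x : Fin N → ℝ) (i j : Fin N) :
    ∃ c : ℝ, ∀ s : ℝ, quad H (fun k => x k + s * dir i j k) =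
      quad H x + s * c - s ^ 2 * (2 - 2 * W H i j) := by
  refine ⟨∑ k, ∑ l, W H k l * (dir i j k * (1 - x l) - x k * dir i j l), fun s => ?_⟩
  have h1 : ∑ k, ∑ l, W H k l * (dir i j k * dir i j l) = 2 - 2 * W H i j := by
    have h2 : ∀ k, ∑ l, W H k l * (dir i j k * dir i j l) =
        dir i j k * (W H k i - W H k j) := by
      intro k
      have : ∀ l, W H k l * (dir i j k * dir i j l) =
          dir i j k * ((if l = i then W H k l else 0) - (if l = j then W H k l else 0)) := by
        intro l; unfold dir; split_ifs <;> ring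
      simp only [this]
      rw [← Finset.mul_sum, Finset.sum_sub_distrib]
      simp
    simp only [h2]
    have h3 : ∀ k, dir i j k * (W H k i - W H k j) =
        (if k = i then W H k i - W H k j else 0) - (if k = j then W H k i - W H k j else 0) := by
      intro k; unfold dir; split_ifs <;> ring
    simp only [h3]
    rw [Finset.sum_sub_distrib]
    simp only [Finset.sum_ite_eq', Finset.mem_univ, if_true, W_self]
    rw [W_symm H j i]; ring
  rw [← h1]
  unfold quad
  rw [Finset.mul_sum, Finset.mul_sum, ← Finset.sum_add_distrib, ← Finset.sum_sub_distrib]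
  refine Finset.sum_congr rfl fun k _ => ?_
  rw [Finset.mul_sum, Finset.mul_sum, ← Finset.sum_add_distrib, ← Finset.sum_sub_distrib]
  refine Finset.sum_congr rfl fun l _ => ?_
  ring

/-- the fractional coordinates -/
noncomputable def frac (x : Fin N → ℝ) : Finset (Fin N) := univ.filter (fun k => x k ≠ 0 ∧ x k ≠ 1)

theorem sum_dir {i j : Fin N} : ∑ k, dir i j k = 0 := by
  unfold dir
  rw [Finset.sum_sub_distrib]; simp

theorem frac_lt {x y : Fin N → ℝ} {i j : Fin N} (hi : i ∈ frac x) (hj : j ∈ frac x)
    (hk : ∀ k, k ≠ i → k ≠ j → y k = x k) (h : i ∉ frac y ∨ j ∉ frac y) :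
    (frac y).card < (frac x).card := by
  apply Finset.card_lt_card
  rw [Finset.ssubset_iff_subset_ne]
  constructor
  · intro k hky
    by_cases h1 : k = i
    · rw [h1]; exact hi
    · by_cases h2 : k = j
      · rw [h2]; exact hj
      · have := hk k h1 h2
        simp only [frac, Finset.mem_filter, Finset.mem_univ, true_and] at hky ⊢
        rwa [← this]
  · intro heq
    rw [heq] at h
    rcases h with h | h
    · exact h hi
    · exact h hj

theorem exists_better (H : SimpleGraph (Fin N)) (x : Fin N → ℝ) (hx : ∀ k, 0 ≤ x k ∧ x k ≤ 1)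
    (i j : Fin N) (hij : i ≠ j) (hi : i ∈ frac x) (hj : j ∈ frac x) :
    ∃ y : Fin N → ℝ, (∀ k, 0 ≤ y k ∧ y k ≤ 1) ∧ ∑ k, y k = ∑ k, x k ∧ quad H y ≤ quad H x ∧
      (frac y).card < (frac x).card := by
  obtain ⟨c, hc⟩ := quad_line H x i j
  have hW : 0 ≤ 2 - 2 * W H i j := by have := W_le_one H i j; linarith
  have hdi : dir i j i = 1 := by simp [dir, hij]
  have hdj : dir i j j = -1 := by simp [dir, hij.symm]
  have hdk : ∀ k, k ≠ i → k ≠ j → dir i j k = 0 := by
    intro k h1 h2; simp [dir, h1, h2]
  have main : ∀ s : ℝ, s * c ≤ 0 → 0 ≤ x i + s → x i + s ≤ 1 → 0 ≤ x j - s → x j - s ≤ 1 →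
      (x i + s = 0 ∨ x i + s = 1 ∨ x j - s = 0 ∨ x j - s = 1) →
      ∃ y : Fin N → ℝ, (∀ k, 0 ≤ y k ∧ y k ≤ 1) ∧ ∑ k, y k = ∑ k, x k ∧ quad H y ≤ quad H x ∧
      (frac y).card < (frac x).card := by
    intro s hs h1 h2 h3 h4 h5
    refine ⟨fun k => x k + s * dir i j k, ?_, ?_, ?_, ?_⟩
    · intro k
      by_cases hk1 : k = i
      · subst hk1; dsimp only; rw [hdi]; constructor <;> linarith
      · by_cases hk2 : k = j
        · subst hk2; dsimp only; rw [hdj]; constructor <;> linarith
        · dsimp only; rw [hdk k hk1 hk2]; simpa using hx k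
    · rw [Finset.sum_add_distrib, ← Finset.mul_sum, sum_dir]; ring
    · rw [hc s]
      have : 0 ≤ s ^ 2 * (2 - 2 * W H i j) := mul_nonneg (sq_nonneg _) hW
      linarith
    · refine frac_lt hi hj (fun k h1 h2 => ?_) ?_
      · rw [hdk k h1 h2]; ring
      · simp only [frac, Finset.mem_filter, Finset.mem_univ, true_and, not_and_or, not_not]
        rw [hdi, hdj]
        rcases h5 with h5 | h5 | h5 | h5
        · left; left; linarith
        · left; right; linarith
        · right; left; linarith
        · right; right; linarith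
  rcases le_total c 0 with hc0 | hc0
  · have hm0 : 0 ≤ min (1 - x i) (x j) := le_min (by linarith [(hx i).2]) (hx j).1
    have hm1 := min_le_left (1 - x i) (x j)
    have hm2 := min_le_right (1 - x i) (x j)
    refine main (min (1 - x i) (x j)) (mul_nonpos_of_nonneg_of_nonpos hm0 hc0) ?_ ?_ ?_ ?_ ?_
    · linarith [(hx i).1]
    · linarith
    · linarith
    · linarith [(hx j).2]
    · rcases min_choice (1 - x i) (x j) with h | h
      · right; left; rw [h]; ring
      · right; right; left; rw [h]; ring
  · have hm0 : 0 ≤ min (x i) (1 - x j) := le_min (hx i).1 (by linarith [(hx j).2])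
    have hm1 := min_le_left (x i) (1 - x j)
    have hm2 := min_le_right (x i) (1 - x j)
    refine main (- min (x i) (1 - x j)) (by nlinarith) ?_ ?_ ?_ ?_ ?_
    · linarith
    · linarith [(hx i).2]
    · linarith [(hx j).1]
    · linarith
    · rcases min_choice (x i) (1 - x j) with h | h
      · left; rw [h]; ring
      · right; right; right; rw [h]; ring

theorem quad_integral (H : SimpleGraph (Fin N)) (x : Fin N → ℝ) (hx : frac x = ∅) :
    quad H x = cutEdges H (univ.filter (fun k => x k = 1)) ∧
      ∑ k, x k = ((univ.filter (fun k => x k = 1)).card : ℝ) := by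
  have h01 : ∀ k, x k = 0 ∨ x k = 1 := by
    intro k
    by_contra hcon
    push Not at hcon
    have : k ∈ frac x := by simp [frac, hcon]
    rw [hx] at this
    simp at this
  have hchi : ∀ k, chi (univ.filter (fun k => x k = 1)) k = x k := by
    intro k
    unfold chi
    rcases h01 k with h | h <;> simp [h]
  constructor
  · rw [cutEdges_real]
    unfold quad
    refine Finset.sum_congr rfl fun i _ => Finset.sum_congr rfl fun j _ => ?_
    rw [hchi, hchi]
    by_cases hij : i = j
    · subst hij
      rcases h01 i with h | h <;> simp [h]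
    · simp only [W, hij, false_or]
      ring
  · rw [← sum_chi]
    exact (Finset.sum_congr rfl fun k _ => hchi k).symm

/-- fractional bisections have at least the size of the best integral one -/
theorem quad_ge (H : SimpleGraph (Fin N)) (h : ℕ) (K : ℝ)
    (hK : ∀ A : Finset (Fin N), A.card = h → K ≤ (cutEdges H A : ℝ)) (m : ℕ) :
    ∀ x : Fin N → ℝ, (∀ k, 0 ≤ x k ∧ x k ≤ 1) → ∑ k, x k = h → (frac x).card ≤ m →
      K ≤ quad H x := by
  induction m with
  | zero =>
    intro x hx hs hm
    have h0 : frac x = ∅ := Finset.card_eq_zero.mp (Nat.le_zero.mp hm)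
    obtain ⟨h1, h2⟩ := quad_integral H x h0
    rw [h1]
    apply hK
    have : ((univ.filter (fun k => x k = 1)).card : ℝ) = h := by rw [← h2, hs]
    exact_mod_cast this
  | succ m ih =>
    intro x hx hs hm
    rcases Finset.eq_empty_or_nonempty (frac x) with h0 | ⟨i, hi⟩
    · exact ih x hx hs (by simp [h0])
    · have hi' : x i ≠ 0 ∧ x i ≠ 1 := by simpa [frac] using hi
      obtain ⟨j, hj, hij⟩ : ∃ j ∈ frac x, i ≠ j := by
        by_contra hcon
        push Not at hcon
        have h01 : ∀ k ∈ univ.erase i, x k = if x k = 1 then (1 : ℝ) else 0 := by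
          intro k hk
          have hki : k ≠ i := Finset.ne_of_mem_erase hk
          by_cases h1 : x k = 1
          · simp [h1]
          · by_cases h2 : x k = 0
            · simp [h2]
            · exact absurd (hcon k (by simp [frac, h1, h2])) hki.symm
        have h2 : ∑ k ∈ univ.erase i, x k = (((univ.erase i).filter (fun k => x k = 1)).card : ℝ) := by
          rw [Finset.sum_congr rfl h01, Finset.sum_boole]
        have h3 := Finset.add_sum_erase univ x (Finset.mem_univ i)
        rw [h2, hs] at h3
        set q := ((univ.erase i).filter (fun k => x k = 1)).card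
        have h4 : (0 : ℝ) < x i := lt_of_le_of_ne (hx i).1 (Ne.symm hi'.1)
        have h5 : x i < 1 := lt_of_le_of_ne (hx i).2 hi'.2
        have h6 : (q : ℝ) < h := by linarith
        have h7 : (h : ℝ) < q + 1 := by linarith
        have h8 : q < h := by exact_mod_cast h6
        have h9 : h < q + 1 := by exact_mod_cast h7
        omega
      obtain ⟨y, hy1, hy2, hy3, hy4⟩ := exists_better H x hx i j hij hi hj
      exact (ih y hy1 (hy2.trans hs) (by omega)).trans hy3

theorem quad_symm (H : SimpleGraph (Fin N)) (x : Fin N → ℝ) :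
    quad H (fun k => 1 - x k) = quad H x := by
  unfold quad
  rw [Finset.sum_comm]
  refine Finset.sum_congr rfl fun i _ => Finset.sum_congr rfl fun j _ => ?_
  rw [W_symm H j i]; ring

/-- unbalanced fractional bisections, first case -/
theorem quad_ge_of_le (H : SimpleGraph (Fin N)) (h : ℕ) (hh : 0 < h) (K : ℝ)
    (hK : ∀ A : Finset (Fin N), A.card = h → K ≤ (cutEdges H A : ℝ))
    (x : Fin N → ℝ) (hx : ∀ k, 0 ≤ x k ∧ x k ≤ 1) (hs : (h : ℝ) ≤ ∑ k, x k) :
    K - N * (∑ k, x k - h) ≤ quad H x := by
  set s := ∑ k, x k with hsdef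
  have hh' : (0 : ℝ) < h := by exact_mod_cast hh
  have hspos : 0 < s := by linarith
  set θ : ℝ := h / s with hθ
  have hθs : θ * s = h := by rw [hθ]; field_simp
  have hθ0 : 0 ≤ θ := by positivity
  have hθ1 : θ ≤ 1 := by rw [hθ, div_le_one hspos]; exact hs
  have h1 : K ≤ quad H (fun k => θ * x k) := by
    refine quad_ge H h K hK _ (fun k => θ * x k) (fun k => ⟨?_, ?_⟩) ?_ le_rfl
    · exact mul_nonneg hθ0 (hx k).1
    · have := mul_le_mul hθ1 (hx k).2 (hx k).1 (by norm_num); linarith
    · rw [← Finset.mul_sum, ← hsdef, hθs]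
  have h2 : quad H (fun k => θ * x k) ≤ quad H x + ∑ _i : Fin N, ∑ j, (1 - θ) * x j := by
    rw [Finset.sum_comm]
    unfold quad
    rw [← Finset.sum_add_distrib]
    refine Finset.sum_le_sum fun i _ => ?_
    rw [← Finset.sum_add_distrib]
    refine Finset.sum_le_sum fun j _ => ?_
    have hw0 := W_nonneg H i j
    have hw1 := W_le_one H i j
    obtain ⟨hi0, hi1⟩ := hx i
    obtain ⟨hj0, hj1⟩ := hx j
    have key : θ * x i * (1 - θ * x j) - x i * (1 - x j) ≤ (1 - θ) * x i := by
      have : θ * x i * (1 - θ * x j) - x i * (1 - x j) =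
          (1 - θ) * x i * ((1 + θ) * x j - 1) := by ring
      rw [this]
      have h3 : (1 + θ) * x j - 1 ≤ 1 := by nlinarith
      have h4 : 0 ≤ (1 - θ) * x i := mul_nonneg (by linarith) hi0
      nlinarith
    have h4 : 0 ≤ (1 - θ) * x i := mul_nonneg (by linarith) hi0
    nlinarith
  rw [Finset.sum_const, ← Finset.mul_sum, ← hsdef, card_univ, Fintype.card_fin,
    nsmul_eq_mul] at h2
  have h5 : (N : ℝ) * ((1 - θ) * s) = N * (s - h) := by
    rw [← hθs]; ring
  rw [h5] at h2
  linarith

/-- unbalanced fractional bisections -/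
theorem quad_ge_abs (H : SimpleGraph (Fin N)) (h : ℕ) (hN : 2 * h = N) (hh : 0 < h) (K : ℝ)
    (hK : ∀ A : Finset (Fin N), A.card = h → K ≤ (cutEdges H A : ℝ))
    (x : Fin N → ℝ) (hx : ∀ k, 0 ≤ x k ∧ x k ≤ 1) :
    K - N * |∑ k, x k - h| ≤ quad H x := by
  rcases le_total (h : ℝ) (∑ k, x k) with hs | hs
  · rw [abs_of_nonneg (by linarith)]
    exact quad_ge_of_le H h hh K hK x hx hs
  · have h1 : ∑ k : Fin N, (1 - x k) = 2 * h - ∑ k, x k := by
      rw [Finset.sum_sub_distrib]
      simp only [Finset.sum_const, card_univ, Fintype.card_fin, nsmul_eq_mul, mul_one]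
      have : (N : ℝ) = 2 * h := by exact_mod_cast hN.symm
      rw [this]
    have h2 := quad_ge_of_le H h hh K hK (fun k => 1 - x k)
      (fun k => ⟨by linarith [(hx k).2], by linarith [(hx k).1]⟩) (by rw [h1]; linarith)
    rw [quad_symm, h1] at h2
    rw [abs_of_nonpos (by linarith)]
    have : (N : ℝ) * (2 * h - ∑ k, x k - h) = N * (-(∑ k, x k - h)) := by ring
    linarith

end

end Pool.Agent.Helper76_Bisect
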