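import Pool.Agent.Helper76_Bisect.Defs

set_option autoImplicit false

/-!
Concentration of cut sizes under a random perturbation.
-/

namespace Pool.Agent.Helper76_Bisect

open Finset

section
open Classical

variable {n : ℕ}

theorem adj_symmDiff {V : Type} (G T : SimpleGraph V) (u v : V) :
    (symmDiff G T).Adj u v ↔ (G.Adj u v ↔ ¬ T.Adj u v) := by
  rw [symmDiff_def, SimpleGraph.sup_adj, SimpleGraph.sdiff_adj, SimpleGraph.sdiff_adj]
  tauto

theorem mem_pairs {p : Fin n × Fin n} : p ∈ pairs n ↔ p.1 < p.2 := by simp [pairs]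

/-- A product over all pairs, summed over all graphs. -/
theorem sum_prod_pairs (g : Fin n × Fin n → Bool → ℝ) :
    ∑ T : SimpleGraph (Fin n), ∏ p ∈ pairs n, g p (decide (T.Adj p.1 p.2)) =
      ∏ p ∈ pairs n, (g p true + g p false) := by
  rw [Finset.prod_add]
  refine Finset.sum_nbij' (fun T => (pairs n).filter (fun p => T.Adj p.1 p.2))
    (fun t => SimpleGraph.fromRel (fun u v => (u, v) ∈ t)) ?_ ?_ ?_ ?_ ?_
  · intro T _
    simp
  · intro t _
    simp
  · intro T _
    ext u v
    simp only [SimpleGraph.fromRel_adj, Finset.mem_filter, mem_pairs]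
    constructor
    · rintro ⟨_, h | h⟩
      · exact h.2
      · exact h.2.symm
    · intro h
      refine ⟨h.ne, ?_⟩
      rcases lt_or_gt_of_ne h.ne with h' | h'
      · left; exact ⟨h', h⟩
      · right; exact ⟨h', h.symm⟩
  · intro t ht
    rw [Finset.mem_powerset] at ht
    ext p
    simp only [Finset.mem_filter, SimpleGraph.fromRel_adj, mem_pairs]
    constructor
    · rintro ⟨h1, h2, h3 | h3⟩
      · exact h3
      · have := mem_pairs.mp (ht h3)
        exact absurd this (not_lt.mpr h1.le)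
    · intro h
      have := mem_pairs.mp (ht h)
      exact ⟨this, this.ne, Or.inl h⟩
  · intro T _
    rw [← Finset.prod_filter_mul_prod_filter_not (pairs n) (fun p => T.Adj p.1 p.2)]
    congr 1
    · refine Finset.prod_congr rfl fun p hp => ?_
      rw [(Finset.mem_filter.mp hp).2 |> decide_eq_true]
    · have : (pairs n).filter (fun p => ¬ T.Adj p.1 p.2) =
          pairs n \ (pairs n).filter (fun p => T.Adj p.1 p.2) := by
        ext p; simp only [Finset.mem_filter, Finset.mem_sdiff]; tauto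
      rw [← this]
      refine Finset.prod_congr rfl fun p hp => ?_
      rw [(Finset.mem_filter.mp hp).2 |> decide_eq_false]

theorem toggleProb_eq (σ : ℝ) (T : SimpleGraph (Fin n)) :
    toggleProb σ T =
      ∏ p ∈ pairs n, (if decide (T.Adj p.1 p.2) = true then σ else 1 - σ) := by
  unfold toggleProb
  refine Finset.prod_congr rfl fun p _ => ?_
  simp

theorem sum_toggleProb (σ : ℝ) : ∑ T : SimpleGraph (Fin n), toggleProb σ T = 1 := by
  simp only [toggleProb_eq]
  rw [sum_prod_pairs (fun _ b => if b = true then σ else 1 - σ)]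
  simp

theorem toggleProb_nonneg {σ : ℝ} (h0 : 0 ≤ σ) (h1 : σ ≤ 1) (T : SimpleGraph (Fin n)) :
    0 ≤ toggleProb σ T := by
  rw [toggleProb_eq]
  refine Finset.prod_nonneg fun p _ => ?_
  split_ifs
  · exact h0
  · linarith

/-- the pair `p` crosses the cut `S` -/
def cr (S : Finset (Fin n)) (p : Fin n × Fin n) : Prop := ¬ (p.1 ∈ S ↔ p.2 ∈ S)

theorem cutEdges_eq (G : SimpleGraph (Fin n)) (S : Finset (Fin n)) :
    cutEdges G S = ((pairs n).filter (fun p => cr S p ∧ G.Adj p.1 p.2)).card := by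
  unfold cutEdges
  refine Finset.card_nbij' (fun p => if p.1 < p.2 then p else p.swap)
    (fun p => if p.1 ∈ S then p else p.swap) ?_ ?_ ?_ ?_
  · rintro ⟨u, v⟩ h
    simp only [Finset.coe_filter, Finset.mem_univ, true_and, Set.mem_ofPred_eq] at h
    obtain ⟨hu, hv, huv⟩ := h
    simp only [Finset.coe_filter, Set.mem_ofPred_eq, mem_pairs, cr]
    by_cases h : u < v
    · simp [h, hu, hv, huv]
    · have h' : v < u := lt_of_le_of_ne (not_lt.mp h) huv.ne'
      simp [h, h', hu, hv, huv.symm]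
  · rintro ⟨u, v⟩ h
    simp only [Finset.coe_filter, Set.mem_ofPred_eq, mem_pairs, cr] at h
    obtain ⟨h1, h2, h3⟩ := h
    simp only [Finset.coe_filter, Finset.mem_univ, true_and, Set.mem_ofPred_eq]
    by_cases h : u ∈ S
    · have hv : v ∉ S := by tauto
      simp [h, hv, h3]
    · have hv : v ∈ S := by tauto
      simp [h, hv, h3.symm]
  · rintro ⟨u, v⟩ h
    simp only [Finset.coe_filter, Finset.mem_univ, true_and, Set.mem_ofPred_eq] at h
    obtain ⟨hu, hv, huv⟩ := h
    by_cases h : u < v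
    · simp [h, hu]
    · simp [h, hv]
  · rintro ⟨u, v⟩ h
    simp only [Finset.coe_filter, Set.mem_ofPred_eq, mem_pairs, cr] at h
    obtain ⟨h1, h2, h3⟩ := h
    by_cases h : u ∈ S
    · simp [h, h1]
    · simp [h, h1.le]

/-- expected size of a cut after perturbation -/
noncomputable def mu (σ : ℝ) (G : SimpleGraph (Fin n)) (S : Finset (Fin n)) : ℝ :=
  ∑ p ∈ (pairs n).filter (cr S), if G.Adj p.1 p.2 then 1 - σ else σ

theorem cutEdges_top (S : Finset (Fin n)) :
    ((pairs n).filter (cr S)).card = S.card * (n - S.card) := by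
  have h1 : cutEdges (⊤ : SimpleGraph (Fin n)) S = ((pairs n).filter (cr S)).card := by
    rw [cutEdges_eq]
    congr 1
    ext p
    simp only [Finset.mem_filter, mem_pairs, SimpleGraph.top_adj]
    constructor
    · rintro ⟨a, b, _⟩; exact ⟨a, b⟩
    · rintro ⟨a, b⟩; exact ⟨a, b, a.ne⟩
  rw [← h1]
  unfold cutEdges
  rw [show S.card * (n - S.card) = (S ×ˢ Sᶜ).card by
    rw [Finset.card_product, Finset.card_compl, Fintype.card_fin]]
  congr 1
  ext p
  simp only [Finset.mem_filter, Finset.mem_univ, true_and, SimpleGraph.top_adj,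
    Finset.mem_product, Finset.mem_compl]
  constructor
  · rintro ⟨a, b, _⟩; exact ⟨a, b⟩
  · rintro ⟨a, b⟩; exact ⟨a, b, fun h => b (h ▸ a)⟩

theorem mu_eq (σ : ℝ) (G : SimpleGraph (Fin n)) (S : Finset (Fin n)) (hS : 2 * S.card = n) :
    mu σ G S = (cutEdges G S : ℝ) * (1 - 2 * σ) + σ * ((n : ℝ) ^ 2 / 4) := by
  unfold mu
  rw [Finset.sum_ite, Finset.sum_const, Finset.sum_const, Finset.filter_filter,
    Finset.filter_filter, ← cutEdges_eq]
  have h1 : ((pairs n).filter (fun p => cr S p ∧ ¬ G.Adj p.1 p.2)).card + cutEdges G S =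
      S.card * (n - S.card) := by
    rw [← cutEdges_top, cutEdges_eq, add_comm]
    rw [← Finset.filter_filter, ← Finset.filter_filter]
    exact Finset.card_filter_add_card_filter_not _
  have h2 : (((pairs n).filter (fun p => cr S p ∧ ¬ G.Adj p.1 p.2)).card : ℝ) =
      (n : ℝ) ^ 2 / 4 - cutEdges G S := by
    have h3 : n - S.card = S.card := by omega
    rw [h3] at h1
    have h4 : ((n : ℝ)) = 2 * S.card := by exact_mod_cast hS.symm
    have h5 : (((pairs n).filter (fun p => cr S p ∧ ¬ G.Adj p.1 p.2)).card : ℝ) +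
        cutEdges G S = (S.card : ℝ) * S.card := by exact_mod_cast h1
    rw [h4]; linarith
  rw [nsmul_eq_mul, nsmul_eq_mul, h2]
  ring

theorem cutEdges_le (G : SimpleGraph (Fin n)) (S : Finset (Fin n)) (hS : 2 * S.card = n) :
    (cutEdges G S : ℝ) ≤ (n : ℝ) ^ 2 / 4 := by
  have h1 : cutEdges G S ≤ S.card * (n - S.card) := by
    rw [← cutEdges_top, cutEdges_eq, ← Finset.filter_filter]
    exact Finset.card_le_card (Finset.filter_subset _ _)
  have h3 : n - S.card = S.card := by omega
  rw [h3] at h1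
  have h4 : ((n : ℝ)) = 2 * S.card := by exact_mod_cast hS.symm
  have h5 : (cutEdges G S : ℝ) ≤ (S.card : ℝ) * S.card := by exact_mod_cast h1
  rw [h4]; linarith

theorem exp_sub_one_le {t : ℝ} (ht : |t| ≤ 1) : Real.exp t - 1 ≤ t + t ^ 2 := by
  have := Real.abs_exp_sub_one_sub_id_le ht
  have := (abs_le.mp this).2
  linarith

theorem one_add_mul_exp_le {q t : ℝ} (hq : 0 ≤ q) (ht : |t| ≤ 1) :
    1 - q + q * Real.exp t ≤ Real.exp (q * (t + t ^ 2)) := by
  have h1 := exp_sub_one_le ht
  have h2 : 1 - q + q * Real.exp t = q * (Real.exp t - 1) + 1 := by ring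
  rw [h2]
  calc q * (Real.exp t - 1) + 1 ≤ q * (t + t ^ 2) + 1 := by gcongr
    _ ≤ _ := Real.add_one_le_exp _

/-- exponential moments of the perturbed cut size -/
theorem mgf_le {σ : ℝ} (h0 : 0 ≤ σ) (h1 : σ ≤ 1) (G : SimpleGraph (Fin n))
    (S : Finset (Fin n)) {t : ℝ} (ht : |t| ≤ 1) :
    ∑ T : SimpleGraph (Fin n), toggleProb σ T *
      Real.exp (t * cutEdges (symmDiff G T) S) ≤ Real.exp ((t + t ^ 2) * mu σ G S) := by
  let g : Fin n × Fin n → Bool → ℝ := fun p b =>
    (if b = true then σ else 1 - σ) *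
      (if cr S p then Real.exp (t * (if ((G.Adj p.1 p.2) ↔ ¬ (b = true)) then 1 else 0)) else 1)
  have e1 : ∀ T : SimpleGraph (Fin n), toggleProb σ T *
      Real.exp (t * cutEdges (symmDiff G T) S) = ∏ p ∈ pairs n, g p (decide (T.Adj p.1 p.2)) := by
    intro T
    simp only [g]
    rw [Finset.prod_mul_distrib, ← toggleProb_eq]
    congr 1
    rw [cutEdges_eq, ← Finset.filter_filter, Finset.card_filter, Nat.cast_sum, Finset.mul_sum,
      Real.exp_sum, Finset.prod_filter]
    refine Finset.prod_congr rfl fun p _ => ?_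
    by_cases hp : cr S p
    · simp only [hp, if_true]
      congr 2
      simp only [decide_eq_true_eq, adj_symmDiff]
      by_cases ha : G.Adj p.1 p.2 <;> by_cases hb : T.Adj p.1 p.2 <;> simp [ha, hb]
    · simp [hp]
  rw [Finset.sum_congr rfl fun T _ => e1 T, sum_prod_pairs g]
  have e2 : Real.exp ((t + t ^ 2) * mu σ G S) = ∏ p ∈ pairs n,
      (if cr S p then Real.exp ((if G.Adj p.1 p.2 then 1 - σ else σ) * (t + t ^ 2)) else 1) := by
    unfold mu
    rw [mul_comm, Finset.sum_mul, Real.exp_sum, Finset.prod_filter]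
  rw [e2]
  refine Finset.prod_le_prod (fun p _ => ?_) (fun p _ => ?_)
  · have h1' : 0 ≤ 1 - σ := by linarith
    simp only [g]
    split_ifs <;> positivity
  · by_cases hp : cr S p
    · by_cases ha : G.Adj p.1 p.2
      · have := one_add_mul_exp_le (q := 1 - σ) (by linarith) ht
        simp only [g, hp, ha]
        simp
        linarith
      · have := one_add_mul_exp_le (q := σ) h0 ht
        simp only [g, hp, ha]
        simp
        linarith
    · simp [g, hp]

/-- lower tail -/
theorem lower_tail {σ : ℝ} (h0 : 0 ≤ σ) (h1 : σ ≤ 1) (G : SimpleGraph (Fin n))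
    (S : Finset (Fin n)) {r h : ℝ} (hh0 : 0 ≤ h) (hh1 : h ≤ 1 / 2)
    (hmu : (r + h) * (n : ℝ) ^ 2 ≤ mu σ G S) (hmu' : mu σ G S ≤ (n : ℝ) ^ 2 / 4) :
    ∑ T : SimpleGraph (Fin n) with (cutEdges (symmDiff G T) S : ℝ) ≤ r * (n : ℝ) ^ 2,
      toggleProb σ T ≤ Real.exp (- (h ^ 2 * (n : ℝ) ^ 2)) := by
  have hm := mgf_le h0 h1 G S (t := - (2 * h)) (by rw [abs_neg, abs_of_nonneg] <;> linarith)
  calc ∑ T : SimpleGraph (Fin n) with (cutEdges (symmDiff G T) S : ℝ) ≤ r * (n : ℝ) ^ 2,
      toggleProb σ T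
      ≤ ∑ T : SimpleGraph (Fin n) with (cutEdges (symmDiff G T) S : ℝ) ≤ r * (n : ℝ) ^ 2,
        Real.exp (2 * h * (r * (n : ℝ) ^ 2)) * (toggleProb σ T *
          Real.exp (- (2 * h) * cutEdges (symmDiff G T) S)) := by
        refine Finset.sum_le_sum fun T hT => ?_
        have hT' := (Finset.mem_filter.mp hT).2
        have h2 : 1 ≤ Real.exp (2 * h * (r * (n : ℝ) ^ 2)) *
            Real.exp (- (2 * h) * cutEdges (symmDiff G T) S) := by
          rw [← Real.exp_add]
          apply Real.one_le_exp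
          nlinarith
        calc toggleProb σ T = toggleProb σ T * 1 := (mul_one _).symm
          _ ≤ toggleProb σ T * (Real.exp (2 * h * (r * (n : ℝ) ^ 2)) *
            Real.exp (- (2 * h) * cutEdges (symmDiff G T) S)) :=
              mul_le_mul_of_nonneg_left h2 (toggleProb_nonneg h0 h1 T)
          _ = _ := by ring
    _ ≤ ∑ T : SimpleGraph (Fin n),
        Real.exp (2 * h * (r * (n : ℝ) ^ 2)) * (toggleProb σ T *
          Real.exp (- (2 * h) * cutEdges (symmDiff G T) S)) := by
        refine Finset.sum_le_sum_of_subset_of_nonneg (Finset.filter_subset _ _) ?_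
        intro T _ _
        exact mul_nonneg (Real.exp_pos _).le
          (mul_nonneg (toggleProb_nonneg h0 h1 T) (Real.exp_pos _).le)
    _ = Real.exp (2 * h * (r * (n : ℝ) ^ 2)) * ∑ T : SimpleGraph (Fin n), (toggleProb σ T *
          Real.exp (- (2 * h) * cutEdges (symmDiff G T) S)) := by rw [Finset.mul_sum]
    _ ≤ Real.exp (2 * h * (r * (n : ℝ) ^ 2)) *
        Real.exp ((- (2 * h) + (- (2 * h)) ^ 2) * mu σ G S) :=
        mul_le_mul_of_nonneg_left hm (Real.exp_pos _).le
    _ ≤ _ := by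
        rw [← Real.exp_add]
        apply Real.exp_le_exp.mpr
        nlinarith [mul_nonneg hh0 hh0]

/-- upper tail -/
theorem upper_tail {σ : ℝ} (h0 : 0 ≤ σ) (h1 : σ ≤ 1) (G : SimpleGraph (Fin n))
    (S : Finset (Fin n)) {r h : ℝ} (hh0 : 0 ≤ h) (hh1 : h ≤ 1 / 2)
    (hmu : mu σ G S ≤ (r - h) * (n : ℝ) ^ 2) (hmu' : mu σ G S ≤ (n : ℝ) ^ 2 / 4) :
    ∑ T : SimpleGraph (Fin n) with ¬ (cutEdges (symmDiff G T) S : ℝ) ≤ r * (n : ℝ) ^ 2,
      toggleProb σ T ≤ Real.exp (- (h ^ 2 * (n : ℝ) ^ 2)) := by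
  have hm := mgf_le h0 h1 G S (t := 2 * h) (by rw [abs_of_nonneg] <;> linarith)
  calc ∑ T : SimpleGraph (Fin n) with ¬ (cutEdges (symmDiff G T) S : ℝ) ≤ r * (n : ℝ) ^ 2,
      toggleProb σ T
      ≤ ∑ T : SimpleGraph (Fin n) with ¬ (cutEdges (symmDiff G T) S : ℝ) ≤ r * (n : ℝ) ^ 2,
        Real.exp (- (2 * h * (r * (n : ℝ) ^ 2))) * (toggleProb σ T *
          Real.exp (2 * h * cutEdges (symmDiff G T) S)) := by
        refine Finset.sum_le_sum fun T hT => ?_
        have hT' := (Finset.mem_filter.mp hT).2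
        push Not at hT'
        have h2 : 1 ≤ Real.exp (- (2 * h * (r * (n : ℝ) ^ 2))) *
            Real.exp (2 * h * cutEdges (symmDiff G T) S) := by
          rw [← Real.exp_add]
          apply Real.one_le_exp
          nlinarith
        calc toggleProb σ T = toggleProb σ T * 1 := (mul_one _).symm
          _ ≤ toggleProb σ T * (Real.exp (- (2 * h * (r * (n : ℝ) ^ 2))) *
            Real.exp (2 * h * cutEdges (symmDiff G T) S)) :=
              mul_le_mul_of_nonneg_left h2 (toggleProb_nonneg h0 h1 T)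
          _ = _ := by ring
    _ ≤ ∑ T : SimpleGraph (Fin n),
        Real.exp (- (2 * h * (r * (n : ℝ) ^ 2))) * (toggleProb σ T *
          Real.exp (2 * h * cutEdges (symmDiff G T) S)) := by
        refine Finset.sum_le_sum_of_subset_of_nonneg (Finset.filter_subset _ _) ?_
        intro T _ _
        exact mul_nonneg (Real.exp_pos _).le
          (mul_nonneg (toggleProb_nonneg h0 h1 T) (Real.exp_pos _).le)
    _ = Real.exp (- (2 * h * (r * (n : ℝ) ^ 2))) * ∑ T : SimpleGraph (Fin n), (toggleProb σ T *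
          Real.exp (2 * h * cutEdges (symmDiff G T) S)) := by rw [Finset.mul_sum]
    _ ≤ Real.exp (- (2 * h * (r * (n : ℝ) ^ 2))) *
        Real.exp ((2 * h + (2 * h) ^ 2) * mu σ G S) :=
        mul_le_mul_of_nonneg_left hm (Real.exp_pos _).le
    _ ≤ _ := by
        rw [← Real.exp_add]
        apply Real.exp_le_exp.mpr
        nlinarith [mul_nonneg hh0 hh0]

end

end Pool.Agent.Helper76_Bisect
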