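import Pool.Agent.Helper76_Bisect.SLP

set_option autoImplicit false

/-!
Majority circuits and derandomisation by boosting.
-/

namespace Pool.Agent.Helper76_Bisect

open Finset

section Majority
variable {X : Type} {𝓑 : Set (X → Bool)} {s : ℕ} {F : Set (X → Bool)}

/-- the number of `r < i` with `f r x = true` -/
def cnt (f : ℕ → X → Bool) (i : ℕ) (x : X) : ℕ :=
  ((Finset.range i).filter (fun r => f r x = true)).card

theorem cnt_succ (f : ℕ → X → Bool) (i : ℕ) (x : X) :
    cnt f (i + 1) x = cnt f i x + (if f i x = true then 1 else 0) := by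
  unfold cnt
  rw [Finset.range_add_one, Finset.filter_insert]
  split_ifs with h
  · rw [Finset.card_insert_of_notMem (by simp)]
  · simp

/-- threshold functions -/
def thr (f : ℕ → X → Bool) (i j : ℕ) : X → Bool := fun x => decide (j ≤ cnt f i x)

theorem thr_zero (f : ℕ → X → Bool) (i : ℕ) : thr f i 0 = fun _ => true := by
  funext x; simp [thr]

theorem thr_succ (f : ℕ → X → Bool) (i j : ℕ) :
    thr f (i + 1) (j + 1) = fun x => thr f i (j + 1) x || (f i x && thr f i j x) := by
  funext x
  rw [Bool.eq_iff_iff]
  simp only [thr, cnt_succ, decide_eq_true_eq, Bool.or_eq_true, Bool.and_eq_true]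
  by_cases h : f i x = true
  · simp only [h, if_true, true_and]; omega
  · simp [h]

theorem thr_init (f : ℕ → X → Bool) (j : ℕ) : thr f 0 (j + 1) = fun _ => false := by
  funext x; simp [thr, cnt]

theorem Computes.thresholds (m : ℕ) (f : ℕ → X → Bool) (h : Computes 𝓑 s F)
    (hf : ∀ r < m, f r ∈ F) (i : ℕ) (hi : i ≤ m) :
    Computes 𝓑 (s + 2 + i * (5 * (m + 2))) (F ∪ {g | ∃ j ∈ range (m + 2), g = thr f i j}) := by
  induction i with
  | zero =>
    refine ((h.const true).const false).mono (by omega) ?_
    rintro g (hg | ⟨j, _, rfl⟩)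
    · right; right; exact hg
    · cases j with
      | zero => right; left; exact thr_zero f 0
      | succ j => left; exact thr_init f j
  | succ i ih =>
    have h1 := ih (by omega)
    have h2 := h1.bigUnion (range (m + 2)) (fun j => thr f (i + 1) j) 5 ?_
    · refine h2.mono ?_ ?_
      · simp only [card_range]; ring_nf; omega
      · rintro g (hg | ⟨j, hj, rfl⟩)
        · left; left; exact hg
        · right; exact ⟨j, hj, rfl⟩
    · intro t G hG ht j hj
      cases j with
      | zero =>
        refine ht.mono (by omega) ?_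
        rintro g (rfl | hg)
        · apply hG; right
          exact ⟨0, by simp, by rw [thr_zero, thr_zero]⟩
        · exact hg
      | succ j =>
        have hj' := mem_range.mp hj
        have := ht.orAnd (f := thr f i (j + 1)) (g := f i) (k := thr f i j)
          (hG (Or.inr ⟨j + 1, hj, rfl⟩)) (hG (Or.inl (hf i (by omega))))
          (hG (Or.inr ⟨j, mem_range.mpr (by omega), rfl⟩))
        rwa [← thr_succ] at this

/-- the majority of `m` functions. -/
theorem Computes.majority (m : ℕ) (f : ℕ → X → Bool) (h : Computes 𝓑 s F)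
    (hf : ∀ r < m, f r ∈ F) (D : X → Bool) (hD : ∀ x, D x = true ↔ m < 2 * cnt f m x) :
    Computes 𝓑 (s + 2 + m * (5 * (m + 2))) (insert D F) := by
  refine (h.thresholds m f hf m le_rfl).mono le_rfl ?_
  rintro g (rfl | hg)
  · right
    refine ⟨m / 2 + 1, mem_range.mpr (by omega), ?_⟩
    funext x
    rw [Bool.eq_iff_iff, hD x]
    simp only [thr, decide_eq_true_eq]
    omega
  · left; exact hg

end Majority

section Boosting

/-- Derandomisation: if a random function errs with probability at most `2/5` at every point,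
then there are `m` functions whose majority is right everywhere. -/
theorem boost {X I : Type} [Fintype X] [Fintype I] (p : I → ℝ) (hp : ∀ i, 0 ≤ p i)
    (hsum : ∑ i, p i = 1) (F : I → X → Bool) (ans : X → Bool)
    (herr : ∀ x, ∑ i with F i x ≠ ans x, p i ≤ 2 / 5) (m : ℕ)
    (hm : (Fintype.card X : ℝ) * (49 / 50) ^ m < 1) :
    ∃ r : ℕ → I, (∀ j, 0 < p (r j)) ∧
      ∀ x, 2 * ((range m).filter (fun j => F (r j) x ≠ ans x)).card < m := by
  classical
  obtain ⟨i₀, hi₀⟩ : ∃ i, 0 < p i := by
    by_contra hcon
    push Not at hcon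
    have : ∑ i, p i ≤ 0 := Finset.sum_nonpos (fun i _ => hcon i)
    linarith
  let Φ : (ℕ → I) → ℕ → X → ℝ := fun r m x =>
    ∏ j ∈ range m, (if F (r j) x ≠ ans x then (6 / 5 : ℝ) else 5 / 6)
  have hΦ0 : ∀ r m x, 0 ≤ Φ r m x := by
    intro r m x
    exact Finset.prod_nonneg (fun j _ => by split_ifs <;> norm_num)
  have key : ∀ m : ℕ, ∃ r : ℕ → I, (∀ j, 0 < p (r j)) ∧
      ∑ x, Φ r m x ≤ (Fintype.card X : ℝ) * (49 / 50) ^ m := by
    intro m
    induction m with
    | zero =>
      refine ⟨fun _ => i₀, fun _ => hi₀, ?_⟩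
      simp [Φ]
    | succ m ih =>
      obtain ⟨r, hr, hS⟩ := ih
      have hex : ∃ i, 0 < p i ∧
          ∑ x, Φ r m x * (if F i x ≠ ans x then (6 / 5 : ℝ) else 5 / 6) ≤
            (49 / 50) * ∑ x, Φ r m x := by
        by_contra hcon
        push Not at hcon
        have h1 : ∑ i, p i * ∑ x, Φ r m x * (if F i x ≠ ans x then (6 / 5 : ℝ) else 5 / 6) ≤
            (49 / 50) * ∑ x, Φ r m x := by
          calc ∑ i, p i * ∑ x, Φ r m x * (if F i x ≠ ans x then (6 / 5 : ℝ) else 5 / 6)
              = ∑ x, Φ r m x * ∑ i, p i * (if F i x ≠ ans x then (6 / 5 : ℝ) else 5 / 6) := by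
                simp only [Finset.mul_sum]
                rw [Finset.sum_comm]
                refine Finset.sum_congr rfl fun x _ => Finset.sum_congr rfl fun i _ => by ring
            _ ≤ ∑ x, Φ r m x * (49 / 50) := by
                refine Finset.sum_le_sum fun x _ => mul_le_mul_of_nonneg_left ?_ (hΦ0 r m x)
                have e1 : ∑ i, p i * (if F i x ≠ ans x then (6 / 5 : ℝ) else 5 / 6) =
                    (∑ i, p i) * (5 / 6) + (∑ i with F i x ≠ ans x, p i) * (6 / 5 - 5 / 6) := by
                  rw [Finset.sum_filter, Finset.sum_mul, Finset.sum_mul,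
                    ← Finset.sum_add_distrib]
                  refine Finset.sum_congr rfl fun i _ => ?_
                  split_ifs <;> ring
                rw [e1, hsum]
                have := herr x
                nlinarith
            _ = (49 / 50) * ∑ x, Φ r m x := by rw [← Finset.sum_mul]; ring
        have h2 : (49 / 50) * ∑ x, Φ r m x <
            ∑ i, p i * ∑ x, Φ r m x * (if F i x ≠ ans x then (6 / 5 : ℝ) else 5 / 6) := by
          calc (49 / 50) * ∑ x, Φ r m x = ∑ i, p i * ((49 / 50) * ∑ x, Φ r m x) := by
                rw [← Finset.sum_mul, hsum, one_mul]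
            _ < _ := by
                refine Finset.sum_lt_sum ?_ ⟨i₀, Finset.mem_univ _, ?_⟩
                · intro i _
                  rcases (hp i).eq_or_lt with h0 | h0
                  · rw [← h0]; simp
                  · exact mul_le_mul_of_nonneg_left (hcon i h0).le (hp i)
                · exact mul_lt_mul_of_pos_left (hcon i₀ hi₀) hi₀
        linarith
      obtain ⟨i, hi, hle⟩ := hex
      refine ⟨Function.update r m i, ?_, ?_⟩
      · intro j
        by_cases hj : j = m
        · subst hj; simpa using hi
        · simpa [hj] using hr j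
      · have e2 : ∀ x, Φ (Function.update r m i) (m + 1) x =
            Φ r m x * (if F i x ≠ ans x then (6 / 5 : ℝ) else 5 / 6) := by
          intro x
          simp only [Φ]
          rw [Finset.prod_range_succ]
          congr 1
          · refine Finset.prod_congr rfl fun j hj => ?_
            have : j ≠ m := (Finset.mem_range.mp hj).ne
            simp [this]
          · simp
        rw [Finset.sum_congr rfl fun x _ => e2 x]
        calc _ ≤ (49 / 50) * ∑ x, Φ r m x := hle
          _ ≤ (49 / 50) * ((Fintype.card X : ℝ) * (49 / 50) ^ m) :=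
              mul_le_mul_of_nonneg_left hS (by norm_num)
          _ = _ := by ring
  obtain ⟨r, hr, hS⟩ := key m
  refine ⟨r, hr, fun x => ?_⟩
  have h1 : Φ r m x < 1 :=
    lt_of_le_of_lt (Finset.single_le_sum (f := fun x => Φ r m x) (fun y _ => hΦ0 r m y)
      (Finset.mem_univ x)) (lt_of_le_of_lt hS hm)
  by_contra hcon
  push Not at hcon
  have h2 : Φ r m x = (6 / 5) ^ ((range m).filter (fun j => F (r j) x ≠ ans x)).card *
      (5 / 6) ^ ((range m).filter (fun j => ¬ (F (r j) x ≠ ans x))).card := by
    simp only [Φ]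
    rw [Finset.prod_ite, Finset.prod_const, Finset.prod_const]
  set a := ((range m).filter (fun j => F (r j) x ≠ ans x)).card with ha
  set b := ((range m).filter (fun j => ¬ (F (r j) x ≠ ans x))).card with hb
  have hab : a + b = m := by
    rw [ha, hb, Finset.card_filter_add_card_filter_not, card_range]
  have hba : b ≤ a := by omega
  obtain ⟨d, hd⟩ := Nat.exists_eq_add_of_le hba
  have h3 : (1 : ℝ) ≤ Φ r m x := by
    rw [h2, hd, pow_add]
    have : ((6 : ℝ) / 5) ^ b * (5 / 6) ^ b = 1 := by rw [← mul_pow]; norm_num
    have h4 : (1 : ℝ) ≤ (6 / 5) ^ d := one_le_pow₀ (by norm_num)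
    calc (1 : ℝ) ≤ (6 / 5) ^ d := h4
      _ = ((6 : ℝ) / 5) ^ b * (5 / 6) ^ b * (6 / 5) ^ d := by rw [this, one_mul]
      _ = _ := by ring
  linarith

end Boosting

end Pool.Agent.Helper76_Bisect
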