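import Pool.Agent.Helper76_Bisect.SLP

set_option autoImplicit false

/-!
Building query programs: load vertices, query pairs, run a circuit.
-/

namespace Pool.Agent.Helper76_Bisect

open Finset

section
variable {V : Type} [DecidableEq V]

theorem exists_load (S : Finset V) :
    ∃ W : List (SimpleGraph V → V), QueryProgram V [] W ∧ W.length ≤ S.card ∧
      ∀ v ∈ S, (fun _ => v) ∈ W := by
  induction S using Finset.induction_on with
  | empty => exact ⟨[], QueryProgram.nil, by simp, by simp⟩
  | insert a S ha ih =>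
    obtain ⟨W, h1, h2, h3⟩ := ih
    refine ⟨_, QueryProgram.vertex a h1, ?_, ?_⟩
    · rw [Finset.card_insert_of_notMem ha, List.length_cons]; omega
    · intro v hv
      rcases Finset.mem_insert.mp hv with rfl | hv
      · exact List.mem_cons_self
      · exact List.mem_cons_of_mem _ (h3 v hv)

open Classical in
theorem exists_queries {ι : Type} (u v : ι → V) {W : List (SimpleGraph V → V)}
    {B : List (SimpleGraph V → Bool)} (h : QueryProgram V B W) (I : Finset ι)
    (hu : ∀ i ∈ I, (fun _ => u i) ∈ W) (hv : ∀ i ∈ I, (fun _ => v i) ∈ W) :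
    ∃ B' : List (SimpleGraph V → Bool), QueryProgram V B' W ∧ B'.length ≤ B.length + I.card ∧
      (∀ f ∈ B, f ∈ B') ∧ ∀ i ∈ I, (fun G => decide (G.Adj (u i) (v i))) ∈ B' := by
  induction I using Finset.induction_on with
  | empty => exact ⟨B, h, by simp, fun f hf => hf, by simp⟩
  | insert a I ha ih =>
    obtain ⟨B', h1, h2, h3, h4⟩ := ih (fun i hi => hu i (Finset.mem_insert_of_mem hi))
      (fun i hi => hv i (Finset.mem_insert_of_mem hi))
    refine ⟨_, QueryProgram.query (fun _ => u a) (fun _ => v a)
      (fun G => decide (G.Adj (u a) (v a))) h1 (hu a (Finset.mem_insert_self _ _))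
      (hv a (Finset.mem_insert_self _ _)) (fun G => by simp), ?_, ?_, ?_⟩
    · rw [Finset.card_insert_of_notMem ha, List.length_cons]; omega
    · intro f hf; exact List.mem_cons_of_mem _ (h3 f hf)
    · intro i hi
      rcases Finset.mem_insert.mp hi with rfl | hi
      · exact List.mem_cons_self
      · exact List.mem_cons_of_mem _ (h4 i hi)

theorem run_circuit {ι : Type} (xv : SimpleGraph V → ι → Bool)
    {W : List (SimpleGraph V → V)} {B : List (SimpleGraph V → Bool)} (h : QueryProgram V B W)
    (hxv : ∀ i, (fun G => xv G i) ∈ B) {L : List ((ι → Bool) → Bool)} (hL : Circuit ι L) :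
    ∃ B' : List (SimpleGraph V → Bool), QueryProgram V B' W ∧
      B'.length ≤ B.length + L.length ∧ (∀ f ∈ B, f ∈ B') ∧
      ∀ f ∈ L, (fun G => f (xv G)) ∈ B' := by
  induction hL with
  | nil => exact ⟨B, h, by simp, fun f hf => hf, by simp⟩
  | @input L i _ ih =>
    obtain ⟨B', h1, h2, h3, h4⟩ := ih
    refine ⟨B', h1, h2.trans (by simp), h3, ?_⟩
    intro f hf
    rcases List.mem_cons.mp hf with rfl | hf
    · exact h3 _ (hxv i)
    · exact h4 f hf
  | @const L b _ ih =>
    obtain ⟨B', h1, h2, h3, h4⟩ := ih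
    refine ⟨_, QueryProgram.const b h1, ?_, fun f hf => List.mem_cons_of_mem _ (h3 f hf), ?_⟩
    · simp only [List.length_cons]; omega
    · intro f hf
      rcases List.mem_cons.mp hf with rfl | hf
      · exact List.mem_cons_self
      · exact List.mem_cons_of_mem _ (h4 f hf)
  | @nand L f g _ hf hg ih =>
    obtain ⟨B', h1, h2, h3, h4⟩ := ih
    refine ⟨_, QueryProgram.nand _ _ h1 (h4 f hf) (h4 g hg), ?_,
      fun f hf => List.mem_cons_of_mem _ (h3 f hf), ?_⟩
    · simp only [List.length_cons]; omega
    · intro k hk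
      rcases List.mem_cons.mp hk with rfl | hk
      · exact List.mem_cons_self
      · exact List.mem_cons_of_mem _ (h4 k hk)

open Classical in
/-- A circuit applied to the adjacency bits of finitely many pairs is a fast query program. -/
theorem computed_of_circuit {ι : Type} [Fintype ι] (u v : ι → V) (S : Finset V)
    (hu : ∀ i, u i ∈ S) (hv : ∀ i, v i ∈ S) {s : ℕ} {D : (ι → Bool) → Bool}
    (hD : HasCircuit s D) {τ : ℝ} (hτ : ((S.card + Fintype.card ι + s : ℕ) : ℝ) ≤ τ) :
    ComputedInTime τ (fun G : SimpleGraph V => D (fun i => decide (G.Adj (u i) (v i)))) := by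
  obtain ⟨W, h1, h2, h3⟩ := exists_load S
  obtain ⟨B, h4, h5, _, h7⟩ := exists_queries u v h1 (univ : Finset ι)
    (fun i _ => h3 _ (hu i)) (fun i _ => h3 _ (hv i))
  obtain ⟨L, hL1, hL2, hL3⟩ := hD
  obtain ⟨B', h8, h9, _, h11⟩ := run_circuit (fun G i => decide (G.Adj (u i) (v i))) h4
    (fun i => h7 i (mem_univ _)) hL1
  refine ⟨B', W, h8, le_trans ?_ hτ, h11 D hL3⟩
  have : B'.length + W.length ≤ S.card + Fintype.card ι + s := by
    simp only [List.length_nil, zero_add, card_univ] at h5
    omega
  exact_mod_cast this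

end

end Pool.Agent.Helper76_Bisect
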