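import Pool.Agent.Helper76_Bisect.Conc

set_option autoImplicit false

/-!
The perturbation rarely changes the answer when there is a gap; consequence for testers.
-/

namespace Pool.Agent.Helper76_Bisect

open Finset

section
open Classical

variable {n : ℕ}

theorem prob_yes {ρ σ g : ℝ} (h0 : 0 ≤ σ) (hσ : σ ≤ g) (hg : g ≤ 1 / 2) (G : SimpleGraph (Fin n))
    (S : Finset (Fin n)) (hS : 2 * S.card = n)
    (hcut : (cutEdges G S : ℝ) ≤ (ρ - g) * (n : ℝ) ^ 2) :
    ∑ T : SimpleGraph (Fin n) with ¬ RhoBisection ρ (symmDiff G T), toggleProb σ T ≤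
      Real.exp (- ((g / 2) ^ 2 * (n : ℝ) ^ 2)) := by
  have hle := cutEdges_le G S hS
  have hmu := mu_eq σ G S hS
  have hc0 : (0 : ℝ) ≤ cutEdges G S := Nat.cast_nonneg _
  have hn0 : (0 : ℝ) ≤ (n : ℝ) ^ 2 := by positivity
  refine le_trans ?_ (upper_tail h0 (by linarith) G S (r := ρ) (h := g / 2) (by linarith)
    (by linarith) ?_ ?_)
  · refine Finset.sum_le_sum_of_subset_of_nonneg ?_ ?_
    · intro T hT
      simp only [Finset.mem_filter, Finset.mem_univ, true_and] at hT ⊢
      intro h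
      exact hT ⟨S, hS, h⟩
    · intro T _ _
      exact toggleProb_nonneg h0 (by linarith) T
  · rw [hmu]; nlinarith
  · rw [hmu]; nlinarith

theorem prob_no {ρ σ g : ℝ} (h0 : 0 ≤ σ) (hσ : σ ≤ g) (hg : g ≤ 1 / 2) (G : SimpleGraph (Fin n))
    (hcut : ∀ S : Finset (Fin n), 2 * S.card = n →
      (ρ + g) * (n : ℝ) ^ 2 ≤ (cutEdges G S : ℝ)) :
    ∑ T : SimpleGraph (Fin n) with RhoBisection ρ (symmDiff G T), toggleProb σ T ≤
      2 ^ n * Real.exp (- ((g / 2) ^ 2 * (n : ℝ) ^ 2)) := by
  have hn0 : (0 : ℝ) ≤ (n : ℝ) ^ 2 := by positivity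
  have h1 : ∑ T : SimpleGraph (Fin n) with RhoBisection ρ (symmDiff G T), toggleProb σ T ≤
      ∑ S : Finset (Fin n) with 2 * S.card = n,
        ∑ T : SimpleGraph (Fin n) with (cutEdges (symmDiff G T) S : ℝ) ≤ ρ * (n : ℝ) ^ 2,
          toggleProb σ T := by
    have hpos := fun T : SimpleGraph (Fin n) => toggleProb_nonneg h0 (by linarith : σ ≤ 1) T
    rw [Finset.sum_filter]
    simp only [Finset.sum_filter (s := (univ : Finset (SimpleGraph (Fin n))))]
    rw [Finset.sum_comm]
    refine Finset.sum_le_sum fun T _ => ?_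
    split_ifs with hT
    · obtain ⟨S, hS, hS'⟩ := hT
      refine le_trans ?_ (Finset.single_le_sum (fun S _ => ?_)
        (Finset.mem_filter.mpr ⟨Finset.mem_univ S, hS⟩))
      · rw [if_pos hS']
      · split_ifs
        · exact hpos T
        · exact le_rfl
    · refine Finset.sum_nonneg fun S _ => ?_
      split_ifs
      · exact hpos T
      · exact le_rfl
  refine h1.trans ?_
  calc ∑ S : Finset (Fin n) with 2 * S.card = n,
        ∑ T : SimpleGraph (Fin n) with (cutEdges (symmDiff G T) S : ℝ) ≤ ρ * (n : ℝ) ^ 2,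
          toggleProb σ T
      ≤ ∑ S : Finset (Fin n) with 2 * S.card = n, Real.exp (- ((g / 2) ^ 2 * (n : ℝ) ^ 2)) := by
        refine Finset.sum_le_sum fun S hS => ?_
        have hS' := (Finset.mem_filter.mp hS).2
        have hle := cutEdges_le G S hS'
        have hmu := mu_eq σ G S hS'
        have hc0 : (0 : ℝ) ≤ cutEdges G S := Nat.cast_nonneg _
        have hc := hcut S hS'
        refine lower_tail h0 (by linarith) G S (by linarith) (by linarith) ?_ ?_
        · rw [hmu]; nlinarith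
        · rw [hmu]; nlinarith
    _ ≤ ∑ S : Finset (Fin n), Real.exp (- ((g / 2) ^ 2 * (n : ℝ) ^ 2)) :=
        Finset.sum_le_sum_of_subset_of_nonneg (Finset.filter_subset _ _)
          (fun _ _ _ => (Real.exp_pos _).le)
    _ = _ := by
        rw [Finset.sum_const, nsmul_eq_mul]
        congr 1
        simp

end

theorem exists_large {g : ℝ} (hg : 0 < g) : ∃ n₁ : ℕ, ∀ n : ℕ, n₁ ≤ n →
    (2 : ℝ) ^ n * Real.exp (- ((g / 2) ^ 2 * (n : ℝ) ^ 2)) ≤ 1 / 30 := by
  obtain ⟨N, hN⟩ := exists_nat_ge (8 / g ^ 2)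
  refine ⟨max N 29, fun n hn => ?_⟩
  have hn1 : (8 : ℝ) / g ^ 2 ≤ n := hN.trans (by exact_mod_cast (le_max_left _ _).trans hn)
  have hn2 : (29 : ℝ) ≤ n := by exact_mod_cast (le_max_right _ _).trans hn
  have h2 : (2 : ℝ) ^ n ≤ Real.exp n := by
    have : (2 : ℝ) ≤ Real.exp 1 := by
      have := Real.add_one_le_exp (1 : ℝ); linarith
    calc (2 : ℝ) ^ n ≤ (Real.exp 1) ^ n := pow_le_pow_left₀ (by norm_num) this n
      _ = Real.exp n := by rw [← Real.exp_nat_mul]; simp
  have h3 : (8 : ℝ) ≤ n * g ^ 2 := by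
    rwa [div_le_iff₀ (by positivity)] at hn1
  calc (2 : ℝ) ^ n * Real.exp (- ((g / 2) ^ 2 * (n : ℝ) ^ 2))
      ≤ Real.exp n * Real.exp (- ((g / 2) ^ 2 * (n : ℝ) ^ 2)) :=
        mul_le_mul_of_nonneg_right h2 (Real.exp_pos _).le
    _ = Real.exp (n - (g / 2) ^ 2 * (n : ℝ) ^ 2) := by rw [← Real.exp_add]; congr 1
    _ ≤ Real.exp (-(n : ℝ)) := by
        apply Real.exp_le_exp.mpr
        nlinarith
    _ ≤ 1 / 30 := by
        rw [Real.exp_neg, ← one_div]
        apply one_div_le_one_div_of_le (by norm_num)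
        have := Real.add_one_le_exp (n : ℝ)
        linarith

section
open Classical

/-- Error of the tester, without conditioning, relative to the answer for the base graph. -/
theorem total_error {n : ℕ} {t ρ σ : ℝ} (h0 : 0 ≤ σ) (h1 : σ ≤ 1) (A : RandomizedAlgorithm n t)
    (G : SimpleGraph (Fin n)) (hA : errorProb ρ σ A G < 1 / 3 + 1 / 30) (b : Bool)
    (hb : b = true ↔ RhoBisection ρ G)
    (hwrong : ∑ T : SimpleGraph (Fin n) with
      ¬ (RhoBisection ρ (symmDiff G T) ↔ RhoBisection ρ G), toggleProb σ T ≤ 1 / 30) :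
    ∑ i : SimpleGraph (Fin n) × (SimpleGraph (Fin n) → Bool) with i.2 (symmDiff G i.1) ≠ b,
      toggleProb σ i.1 * A.prob i.2 ≤ 2 / 5 := by
  have hpos := fun T : SimpleGraph (Fin n) => toggleProb_nonneg h0 h1 T
  have hsum : ∑ f, A.prob f = 1 := by
    have := A.sum_prob
    rwa [finsum_eq_sum_of_fintype] at this
  set w : ℝ := ∑ T : SimpleGraph (Fin n) with (RhoBisection ρ (symmDiff G T) ↔ RhoBisection ρ G),
      toggleProb σ T with hw
  have hw1 : w + ∑ T : SimpleGraph (Fin n) with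
      ¬ (RhoBisection ρ (symmDiff G T) ↔ RhoBisection ρ G), toggleProb σ T = 1 := by
    rw [hw, Finset.sum_filter_add_sum_filter_not, sum_toggleProb]
  have hw2 : 29 / 30 ≤ w := by linarith
  have hw3 : w ≤ 1 := by
    have : 0 ≤ ∑ T : SimpleGraph (Fin n) with
      ¬ (RhoBisection ρ (symmDiff G T) ↔ RhoBisection ρ G), toggleProb σ T :=
      Finset.sum_nonneg fun T _ => hpos T
    linarith
  have herr : ∑ T : SimpleGraph (Fin n) with (RhoBisection ρ (symmDiff G T) ↔ RhoBisection ρ G),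
      toggleProb σ T * ∑ f : SimpleGraph (Fin n) → Bool with
        ¬ (f (symmDiff G T) = true ↔ RhoBisection ρ (symmDiff G T)), A.prob f ≤
        1 / 3 + 1 / 30 := by
    have : errorProb ρ σ A G = (∑ T : SimpleGraph (Fin n) with
        (RhoBisection ρ (symmDiff G T) ↔ RhoBisection ρ G),
      toggleProb σ T * ∑ f : SimpleGraph (Fin n) → Bool with
        ¬ (f (symmDiff G T) = true ↔ RhoBisection ρ (symmDiff G T)), A.prob f) / w := rfl
    rw [this, div_lt_iff₀ (by linarith)] at hA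
    nlinarith
  have e1 : ∑ i : SimpleGraph (Fin n) × (SimpleGraph (Fin n) → Bool) with
      i.2 (symmDiff G i.1) ≠ b, toggleProb σ i.1 * A.prob i.2 =
      ∑ T : SimpleGraph (Fin n), toggleProb σ T *
        ∑ f : SimpleGraph (Fin n) → Bool with f (symmDiff G T) ≠ b, A.prob f := by
    rw [Finset.sum_filter, Fintype.sum_prod_type]
    refine Finset.sum_congr rfl fun T _ => ?_
    rw [Finset.mul_sum, Finset.sum_filter]
  rw [e1, ← Finset.sum_filter_add_sum_filter_not univ
    (fun T => (RhoBisection ρ (symmDiff G T) ↔ RhoBisection ρ G))]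
  have e2 : ∑ T : SimpleGraph (Fin n) with (RhoBisection ρ (symmDiff G T) ↔ RhoBisection ρ G),
      toggleProb σ T * ∑ f : SimpleGraph (Fin n) → Bool with f (symmDiff G T) ≠ b, A.prob f ≤
      1 / 3 + 1 / 30 := by
    refine le_trans (le_of_eq ?_) herr
    refine Finset.sum_congr rfl fun T hT => ?_
    have hT' := (Finset.mem_filter.mp hT).2
    congr 1
    refine Finset.sum_congr ?_ fun _ _ => rfl
    ext f
    simp only [Finset.mem_filter, Finset.mem_univ, true_and]
    rw [hT', ← hb]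
    rw [← Bool.eq_iff_iff]
  have e3 : ∑ T : SimpleGraph (Fin n) with
      ¬ (RhoBisection ρ (symmDiff G T) ↔ RhoBisection ρ G),
      toggleProb σ T * ∑ f : SimpleGraph (Fin n) → Bool with f (symmDiff G T) ≠ b, A.prob f ≤
      1 / 30 := by
    refine le_trans (Finset.sum_le_sum fun T _ => ?_) hwrong
    have : ∑ f : SimpleGraph (Fin n) → Bool with f (symmDiff G T) ≠ b, A.prob f ≤ 1 := by
      rw [← hsum]
      exact Finset.sum_le_sum_of_subset_of_nonneg (Finset.filter_subset _ _)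
        (fun f _ _ => A.prob_nonneg f)
    calc _ ≤ toggleProb σ T * 1 := mul_le_mul_of_nonneg_left this (hpos T)
      _ = _ := mul_one _
  linarith

end

end Pool.Agent.Helper76_Bisect
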