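import Pool.Agent.Helper76_Bisect.Counts
import Pool.Agent.Helper76_Bisect.Program
import Pool.Agent.Helper76_Bisect.Wrong

set_option autoImplicit false

/-!
`NP ⊆ P/poly` gives a fast (smoothed) tester.
-/

namespace Pool.Agent.Helper76_Bisect

open Finset

/-- polynomially bounded functions -/
def PolyBdd (f : ℕ → ℕ) : Prop := ∃ c κ : ℕ, ∀ R : ℕ, 1 ≤ R → f R ≤ c * R ^ κ

theorem PolyBdd.const (a : ℕ) : PolyBdd (fun _ => a) := ⟨a, 0, fun R _ => by simp⟩

theorem PolyBdd.id : PolyBdd (fun R => R) := ⟨1, 1, fun R _ => by simp⟩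

theorem PolyBdd.add {f g : ℕ → ℕ} (hf : PolyBdd f) (hg : PolyBdd g) :
    PolyBdd (fun R => f R + g R) := by
  obtain ⟨c, κ, h⟩ := hf
  obtain ⟨c', κ', h'⟩ := hg
  refine ⟨c + c', κ + κ', fun R hR => ?_⟩
  have h1 : R ^ κ ≤ R ^ (κ + κ') := Nat.pow_le_pow_right hR (by omega)
  have h2 : R ^ κ' ≤ R ^ (κ + κ') := Nat.pow_le_pow_right hR (by omega)
  calc f R + g R ≤ c * R ^ κ + c' * R ^ κ' := add_le_add (h R hR) (h' R hR)
    _ ≤ c * R ^ (κ + κ') + c' * R ^ (κ + κ') :=
        add_le_add (Nat.mul_le_mul_left _ h1) (Nat.mul_le_mul_left _ h2)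
    _ = _ := by ring

theorem PolyBdd.mul {f g : ℕ → ℕ} (hf : PolyBdd f) (hg : PolyBdd g) :
    PolyBdd (fun R => f R * g R) := by
  obtain ⟨c, κ, h⟩ := hf
  obtain ⟨c', κ', h'⟩ := hg
  refine ⟨c * c', κ + κ', fun R hR => ?_⟩
  calc f R * g R ≤ (c * R ^ κ) * (c' * R ^ κ') := Nat.mul_le_mul (h R hR) (h' R hR)
    _ = _ := by rw [pow_add]; ring

theorem PolyBdd.pow {f : ℕ → ℕ} (hf : PolyBdd f) (j : ℕ) : PolyBdd (fun R => f R ^ j) := by
  obtain ⟨c, κ, h⟩ := hf
  refine ⟨c ^ j, κ * j, fun R hR => ?_⟩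
  calc f R ^ j ≤ (c * R ^ κ) ^ j := Nat.pow_le_pow_left (h R hR) j
    _ = _ := by rw [mul_pow, ← pow_mul]

section
open Classical

variable {V : Type} [Fintype V] {k t m : ℕ}

/-- index type of the queried pairs -/
abbrev IX (m t : ℕ) : Type := (Fin m × Bool × Fin t) ⊕ Fin m

/-- endpoint of a test pair -/
def wv (W : Fin m → V × V) (r : Fin m) (b : Bool) : V := if b = true then (W r).2 else (W r).1

theorem accept_iff (G : SimpleGraph V) (Λ : ℝ) (lab : V → Fin k) (θ : ℝ) (U : Fin k → Fin t → V)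
    (W : Fin m → V × V) :
    accept G Λ lab θ U W ↔ ∃ π : Fin k → Fin t → Bool,
      (∑ r, ad G (W r).1 (W r).2 * (rb (yg G Λ lab U π (wv W r false)) *
        (1 - rb (yg G Λ lab U π (wv W r true))))) / (m : ℝ) +
        Λ * ((∑ r, rb (yg G Λ lab U π (wv W r false))) / (m : ℝ) - 1 / 2) ^ 2 ≤ θ := by
  unfold accept objhat
  simp only [wv, Bool.false_eq_true, if_false, if_true]

/-- running time of the test -/
def runTime (c κ k t m : ℕ) : ℕ :=
  (k * t + m * 2) + (m * (2 * t) + m) +
    (c * ((m * (2 * t) + m) + k * t + accCost t m) ^ κ + c)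

theorem accept_computed [DecidableEq V] {c κ : ℕ}
    (hNP : ∀ (n m s : ℕ) (C : (Fin n ⊕ Fin m → Bool) → Bool) (D : (Fin n → Bool) → Bool),
      HasCircuit s C → (∀ x, D x = true ↔ ∃ w : Fin m → Bool, C (Sum.elim x w) = true) →
        HasCircuit (c * s ^ κ + c) D)
    (Λ : ℝ) (lab : V → Fin k) (θ : ℝ) (U : Fin k → Fin t → V) (W : Fin m → V × V) {τ : ℝ}
    (hτ : (runTime c κ k t m : ℝ) ≤ τ) :
    ComputedInTime τ (fun G : SimpleGraph V => decide (accept G Λ lab θ U W)) := by
  -- indices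
  have hI : Fintype.card (IX m t) = m * (2 * t) + m := by
    simp [IX]
  have hJ : Fintype.card (Fin k × Fin t) = k * t := by simp
  let nI := Fintype.card (IX m t)
  let nJ := Fintype.card (Fin k × Fin t)
  let eI : IX m t ≃ Fin nI := Fintype.equivFin _
  let eJ : Fin k × Fin t ≃ Fin nJ := Fintype.equivFin _
  let aF : Fin m → Bool → Fin t → (Fin nI ⊕ Fin nJ → Bool) → Bool :=
    fun r b i z => z (Sum.inl (eI (Sum.inl (r, b, i))))
  let eF : Fin m → (Fin nI ⊕ Fin nJ → Bool) → Bool := fun r z => z (Sum.inl (eI (Sum.inr r)))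
  let pF : Fin k → Fin t → (Fin nI ⊕ Fin nJ → Bool) → Bool := fun j i z => z (Sum.inr (eJ (j, i)))
  let lb : Fin m → Bool → Fin k := fun r b => lab (wv W r b)
  let Y : Fin m → Bool → (Fin nI ⊕ Fin nJ → Bool) → Bool := fun r b z => decide
    ((∑ i, rb (aF r b i z) * (1 - 2 * rb (pF (lb r b) i z))) / (t : ℝ) +
        2 * Λ * ((∑ i, rb (pF (lb r b) i z)) / (t : ℝ) - 1 / 2) < 0)
  let C : (Fin nI ⊕ Fin nJ → Bool) → Bool := fun z => decide
    ((∑ r, rb (eF r z) * (rb (Y r false z) * (1 - rb (Y r true z)))) / (m : ℝ) +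
        Λ * ((∑ r, rb (Y r false z)) / (m : ℝ) - 1 / 2) ^ 2 ≤ θ)
  have hcoords : Computes (coords (Fin nI ⊕ Fin nJ)) (nI + nJ)
      {f | ∃ i ∈ (univ : Finset (Fin nI ⊕ Fin nJ)), f = fun z => z i} := by
    have := (Computes.empty (𝓑 := coords (Fin nI ⊕ Fin nJ))).bigUnion
      (univ : Finset (Fin nI ⊕ Fin nJ)) (fun i z => z i) 1 (by
        intro τ G _ hτ i _
        exact hτ.base ⟨i, rfl⟩)
    refine this.mono ?_ ?_
    · simp only [card_univ, Fintype.card_sum, Fintype.card_fin]; omega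
    · intro f hf; right; exact hf
  have hC : HasCircuit (nI + nJ + accCost t m) C :=
    (acc_computes hcoords aF eF pF (fun r b i => ⟨_, mem_univ _, rfl⟩)
      (fun r => ⟨_, mem_univ _, rfl⟩) (fun j i => ⟨_, mem_univ _, rfl⟩) lb Λ θ Y
      (fun r b x => by simp only [Y, decide_eq_true_eq]) C
      (fun x => by simp only [C, decide_eq_true_eq])).hasCircuit (Set.mem_insert _ _)
  let D : (Fin nI → Bool) → Bool := fun x => decide (∃ w : Fin nJ → Bool, C (Sum.elim x w) = true)
  have hD := hNP nI nJ _ C D hC (fun x => by simp only [D, decide_eq_true_eq])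
  -- vertices
  let S : Finset V := (univ : Finset (Fin k × Fin t)).image (fun p => U p.1 p.2) ∪
    (univ : Finset (Fin m × Bool)).image (fun p => wv W p.1 p.2)
  have hS : S.card ≤ k * t + m * 2 := by
    refine (Finset.card_union_le _ _).trans ?_
    refine add_le_add (Finset.card_image_le.trans ?_) (Finset.card_image_le.trans ?_)
    · rw [card_univ, hJ]
    · rw [card_univ]; simp
  let u' : IX m t → V := fun i => match i with
    | Sum.inl (r, b, i) => U (lab (wv W r b)) i
    | Sum.inr r => wv W r false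
  let v' : IX m t → V := fun i => match i with
    | Sum.inl (r, b, _) => wv W r b
    | Sum.inr r => wv W r true
  have hu : ∀ i, u' i ∈ S := by
    rintro (⟨r, b, i⟩ | r)
    · exact Finset.mem_union_left _ (Finset.mem_image.mpr ⟨(lab (wv W r b), i), mem_univ _, rfl⟩)
    · exact Finset.mem_union_right _ (Finset.mem_image.mpr ⟨(r, false), mem_univ _, rfl⟩)
  have hv : ∀ i, v' i ∈ S := by
    rintro (⟨r, b, i⟩ | r)
    · exact Finset.mem_union_right _ (Finset.mem_image.mpr ⟨(r, b), mem_univ _, rfl⟩)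
    · exact Finset.mem_union_right _ (Finset.mem_image.mpr ⟨(r, true), mem_univ _, rfl⟩)
  have hmain := computed_of_circuit (V := V) (fun i : Fin nI => u' (eI.symm i))
    (fun i : Fin nI => v' (eI.symm i)) S (fun i => hu _) (fun i => hv _) hD (τ := τ) (by
      refine le_trans ?_ hτ
      have : S.card + Fintype.card (Fin nI) + (c * (nI + nJ + accCost t m) ^ κ + c) ≤
          runTime c κ k t m := by
        unfold runTime
        rw [Fintype.card_fin]
        simp only [nI, nJ]
        rw [hI, hJ]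
        omega
      exact_mod_cast this)
  have heq : (fun G : SimpleGraph V => decide (accept G Λ lab θ U W)) =
      (fun G : SimpleGraph V => D (fun i => decide (G.Adj (u' (eI.symm i)) (v' (eI.symm i))))) := by
    funext G
    rw [Bool.eq_iff_iff, decide_eq_true_eq, accept_iff]
    simp only [D, decide_eq_true_eq]
    have key : ∀ w : Fin nJ → Bool, ∀ π : Fin k → Fin t → Bool,
        (∀ j i, w (eJ (j, i)) = π j i) →
        (C (Sum.elim (fun i => decide (G.Adj (u' (eI.symm i)) (v' (eI.symm i)))) w) = true ↔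
        (∑ r, ad G (W r).1 (W r).2 * (rb (yg G Λ lab U π (wv W r false)) *
        (1 - rb (yg G Λ lab U π (wv W r true))))) / (m : ℝ) +
        Λ * ((∑ r, rb (yg G Λ lab U π (wv W r false))) / (m : ℝ) - 1 / 2) ^ 2 ≤ θ) := by
      intro w π hwπ
      set z : Fin nI ⊕ Fin nJ → Bool :=
        Sum.elim (fun i => decide (G.Adj (u' (eI.symm i)) (v' (eI.symm i)))) w with hz
      have hY : ∀ r b, Y r b z = yg G Λ lab U π (wv W r b) := by
        intro r b
        simp only [Y, yg, bhat, aF, pF, lb, hz, Sum.elim_inl, Sum.elim_inr,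
          Equiv.symm_apply_apply, hwπ, u', v', ad, rb, decide_eq_true_eq]
      have he : ∀ r, rb (eF r z) = ad G (W r).1 (W r).2 := by
        intro r
        simp [eF, hz, u', v', ad, rb, wv]
      simp only [C, decide_eq_true_eq, hY, he]
    constructor
    · rintro ⟨π, hπ⟩
      refine ⟨fun q => π (eJ.symm q).1 (eJ.symm q).2, ?_⟩
      rw [key _ π (fun j i => by simp)]
      exact hπ
    · rintro ⟨w, hw⟩
      refine ⟨fun j i => w (eJ (j, i)), ?_⟩
      rw [← key w _ (fun j i => rfl)]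
      exact hw
  rw [heq]
  exact hmain

end

section
open Classical

/-- the uniform distribution over a finite family of programs -/
noncomputable def uniformAlg {n : ℕ} {τ : ℝ} {Ω : Type} [Fintype Ω] [Nonempty Ω]
    (f : Ω → SimpleGraph (Fin n) → Bool) (hf : ∀ ω, ComputedInTime τ (f ω)) :
    RandomizedAlgorithm n τ where
  prob g := ((univ.filter (fun ω => f ω = g)).card : ℝ) / (Fintype.card Ω : ℝ)
  prob_nonneg g := by positivity
  sum_prob := by
    rw [finsum_eq_sum_of_fintype, ← Finset.sum_div, ← Nat.cast_sum]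
    have hpos : (0 : ℝ) < Fintype.card Ω := by exact_mod_cast Fintype.card_pos
    have : ∑ g : SimpleGraph (Fin n) → Bool, (univ.filter (fun ω => f ω = g)).card =
        Fintype.card Ω := by
      rw [← Finset.card_univ, Finset.card_eq_sum_card_fiberwise (f := f) (t := univ)
        (fun _ _ => Finset.mem_coe.mpr (Finset.mem_univ _))]
    rw [this, div_self hpos.ne']
  computed g hg := by
    have : (univ.filter (fun ω => f ω = g)).card ≠ 0 := by
      intro h0
      apply hg
      rw [h0]; simp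
    obtain ⟨ω, hω⟩ := Finset.card_ne_zero.mp this
    rw [← (Finset.mem_filter.mp hω).2]
    exact hf ω

theorem uniformAlg_err {n : ℕ} {τ : ℝ} {Ω : Type} [Fintype Ω] [Nonempty Ω]
    (f : Ω → SimpleGraph (Fin n) → Bool) (hf : ∀ ω, ComputedInTime τ (f ω))
    (P : (SimpleGraph (Fin n) → Bool) → Prop) [DecidablePred P]
    [DecidablePred (fun ω => P (f ω))] :
    ∑ g : SimpleGraph (Fin n) → Bool with P g, (uniformAlg f hf).prob g =
      ((univ.filter (fun ω => P (f ω))).card : ℝ) / (Fintype.card Ω : ℝ) := by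
  simp only [uniformAlg]
  rw [← Finset.sum_div, ← Nat.cast_sum]
  congr 2
  rw [Finset.card_eq_sum_card_fiberwise (f := f) (s := univ.filter (fun ω => P (f ω)))
    (t := univ.filter P) (fun ω hω => by simpa using hω)]
  refine Finset.sum_congr rfl fun g hg => ?_
  congr 1
  ext ω
  simp only [Finset.mem_filter, Finset.mem_univ, true_and]
  constructor
  · intro h; exact ⟨by rw [h]; exact (Finset.mem_filter.mp hg).2, h⟩
  · exact fun h => h.2

variable {n : ℕ}

/-- NO instances are far after perturbation (Spielman-Teng) -/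
theorem far_prob {σ r h : ℝ} (h0 : 0 ≤ σ) (h1 : σ ≤ 1 / 2) (hh0 : 0 ≤ h) (hh1 : h ≤ 1 / 2)
    (G : SimpleGraph (Fin n))
    (hmu : ∀ S : Finset (Fin n), 2 * S.card = n → (r + h) * (n : ℝ) ^ 2 ≤ mu σ G S) :
    ∑ T : SimpleGraph (Fin n) with (∃ S : Finset (Fin n), 2 * S.card = n ∧
      (cutEdges (symmDiff G T) S : ℝ) ≤ r * (n : ℝ) ^ 2), toggleProb σ T ≤
      2 ^ n * Real.exp (- (h ^ 2 * (n : ℝ) ^ 2)) := by
  have hpos := fun T : SimpleGraph (Fin n) => toggleProb_nonneg h0 (by linarith : σ ≤ 1) T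
  have h2 : ∑ T : SimpleGraph (Fin n) with (∃ S : Finset (Fin n), 2 * S.card = n ∧
      (cutEdges (symmDiff G T) S : ℝ) ≤ r * (n : ℝ) ^ 2), toggleProb σ T ≤
      ∑ S : Finset (Fin n) with 2 * S.card = n,
        ∑ T : SimpleGraph (Fin n) with (cutEdges (symmDiff G T) S : ℝ) ≤ r * (n : ℝ) ^ 2,
          toggleProb σ T := by
    rw [Finset.sum_filter]
    simp only [Finset.sum_filter (s := (univ : Finset (SimpleGraph (Fin n))))]
    rw [Finset.sum_comm]
    refine Finset.sum_le_sum fun T _ => ?_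
    split_ifs with hT
    · obtain ⟨S, hS, hS'⟩ := hT
      refine le_trans ?_ (Finset.single_le_sum (fun S _ => ?_)
        (Finset.mem_filter.mpr ⟨Finset.mem_univ S, hS⟩))
      · rw [if_pos hS']
      · split_ifs
        · exact hpos T
        · exact le_rfl
    · refine Finset.sum_nonneg fun S _ => ?_
      split_ifs
      · exact hpos T
      · exact le_rfl
  refine h2.trans ?_
  calc ∑ S : Finset (Fin n) with 2 * S.card = n,
        ∑ T : SimpleGraph (Fin n) with (cutEdges (symmDiff G T) S : ℝ) ≤ r * (n : ℝ) ^ 2,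
          toggleProb σ T
      ≤ ∑ S : Finset (Fin n) with 2 * S.card = n, Real.exp (- (h ^ 2 * (n : ℝ) ^ 2)) := by
        refine Finset.sum_le_sum fun S hS => ?_
        have hS' := (Finset.mem_filter.mp hS).2
        have hle := cutEdges_le G S hS'
        have hmu1 := mu_eq σ G S hS'
        have hc0 : (0 : ℝ) ≤ cutEdges G S := Nat.cast_nonneg _
        have hn0 : (0 : ℝ) ≤ (n : ℝ) ^ 2 := by positivity
        refine lower_tail h0 (by linarith) G S hh0 hh1 (hmu S hS') ?_
        rw [hmu1]; nlinarith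
    _ ≤ ∑ S : Finset (Fin n), Real.exp (- (h ^ 2 * (n : ℝ) ^ 2)) :=
        Finset.sum_le_sum_of_subset_of_nonneg (Finset.filter_subset _ _)
          (fun _ _ _ => (Real.exp_pos _).le)
    _ = _ := by
        rw [Finset.sum_const, nsmul_eq_mul]
        congr 1
        simp

theorem block_size (k : ℕ) (hk : 0 < k) (hkn : k ≤ n) (i : ℕ) :
    (((univ.filter (fun v : Fin n => v.val % k = i)).card : ℝ) / (n : ℝ)) ≤ 2 / k := by
  have h1 : (univ.filter (fun v : Fin n => v.val % k = i)).card ≤ n / k + 1 := by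
    rw [← Finset.card_range (n / k + 1)]
    refine Finset.card_le_card_of_injOn (fun v => v.val / k) ?_ ?_
    · intro v _
      simp only [Finset.coe_range, Set.mem_Iio]
      have : v.val / k ≤ n / k := Nat.div_le_div_right v.isLt.le
      omega
    · intro v hv w hw h
      simp only [Finset.coe_filter, Finset.mem_univ, true_and, Set.mem_ofPred_eq] at hv hw
      apply Fin.ext
      have a1 := Nat.div_add_mod v.val k
      have a2 := Nat.div_add_mod w.val k
      simp only at h
      rw [h, hv] at a1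
      rw [hw] at a2
      omega
  have hkR : (0 : ℝ) < k := by exact_mod_cast hk
  have hnR : (0 : ℝ) < n := by exact_mod_cast (lt_of_lt_of_le hk hkn)
  have h2 : ((n / k : ℕ) : ℝ) ≤ (n : ℝ) / k := Nat.cast_div_le
  have h3 : ((univ.filter (fun v : Fin n => v.val % k = i)).card : ℝ) ≤ (n : ℝ) / k + 1 := by
    have : ((univ.filter (fun v : Fin n => v.val % k = i)).card : ℝ) ≤ ((n / k : ℕ) : ℝ) + 1 := by
      exact_mod_cast h1
    linarith
  have h4 : (1 : ℝ) ≤ (n : ℝ) / k := by
    rw [le_div_iff₀ hkR, one_mul]; exact_mod_cast hkn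
  rw [div_le_div_iff₀ hnR hkR]
  have h5 : (n : ℝ) / k * k = n := by field_simp
  nlinarith

end

end Pool.Agent.Helper76_Bisect
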