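import Pool.Agent.Helper76_Bisect.Guide

set_option autoImplicit false

/-!
The sampling test: completeness and soundness.
-/

namespace Pool.Agent.Helper76_Bisect

open Finset

section
open Classical

variable {V : Type} [Fintype V] {k t m : ℕ}

/-- the partition guided by the samples `U` with their partitions `π` -/
noncomputable def yg (G : SimpleGraph V) (Λ : ℝ) (lab : V → Fin k) (U : Fin k → Fin t → V)
    (π : Fin k → Fin t → Bool) (v : V) : Bool :=
  decide (bhat G Λ (U (lab v)) (π (lab v)) v < 0)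

/-- the objective estimated on random pairs -/
noncomputable def objhat (G : SimpleGraph V) (Λ : ℝ) (W : Fin m → V × V) (y : V → Bool) : ℝ :=
  (∑ r, ad G (W r).1 (W r).2 * (rb (y (W r).1) * (1 - rb (y (W r).2)))) / (m : ℝ) +
    Λ * ((∑ r, rb (y (W r).1)) / (m : ℝ) - 1 / 2) ^ 2

/-- acceptance -/
def accept (G : SimpleGraph V) (Λ : ℝ) (lab : V → Fin k) (thr : ℝ) (U : Fin k → Fin t → V)
    (W : Fin m → V × V) : Prop :=
  ∃ π : Fin k → Fin t → Bool, objhat G Λ W (yg G Λ lab U π) ≤ thr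

theorem objhat_dev [Nonempty V] (G : SimpleGraph V) {Λ : ℝ} (hΛ : 0 ≤ Λ) (hm : 0 < m)
    (y : V → Bool) (a : ℝ) (ha0 : 0 ≤ a) (ha : a ≤ 2) :
    ((univ.filter (fun W : Fin m → V × V =>
      ¬ |objhat G Λ W y - obj G Λ y| ≤ a * (1 + Λ))).card : ℝ) ≤
      (Fintype.card (Fin m → V × V) : ℝ) * (4 * Real.exp (-(a ^ 2 / 4 * m))) := by
  have hN : (0 : ℝ) < Fintype.card V := by exact_mod_cast Fintype.card_pos
  have hmR : (0 : ℝ) < m := by exact_mod_cast hm
  let f1 : V × V → ℝ := fun p => ad G p.1 p.2 * (rb (y p.1) * (1 - rb (y p.2)))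
  let f2 : V × V → ℝ := fun p => rb (y p.1)
  have hf1 : ∀ p, 0 ≤ f1 p ∧ f1 p ≤ 1 := by
    intro p
    have h1 := ad_nonneg G p.1 p.2
    have h2 := ad_le_one G p.1 p.2
    have h3 := rb_nonneg (y p.1)
    have h4 := rb_le_one (y p.1)
    have h5 := rb_nonneg (y p.2)
    have h6 := rb_le_one (y p.2)
    have h7 : 0 ≤ rb (y p.1) * (1 - rb (y p.2)) := mul_nonneg h3 (by linarith)
    have h8 : rb (y p.1) * (1 - rb (y p.2)) ≤ 1 := by nlinarith
    constructor
    · exact mul_nonneg h1 h7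
    · simp only [f1]; nlinarith
  have hf2 : ∀ p, 0 ≤ f2 p ∧ f2 p ≤ 1 := fun p => ⟨rb_nonneg _, rb_le_one _⟩
  have hcard : (Fintype.card (V × V) : ℝ) = (Fintype.card V : ℝ) ^ 2 := by
    rw [Fintype.card_prod]; push_cast; ring
  have hm1 : (∑ p, f1 p) / (Fintype.card (V × V) : ℝ) =
      (∑ u, ∑ v, ad G u v * (rb (y u) * (1 - rb (y v)))) / (Fintype.card V : ℝ) ^ 2 := by
    rw [hcard, Fintype.sum_prod_type]
  have hm2 : (∑ p, f2 p) / (Fintype.card (V × V) : ℝ) =
      (∑ u, rb (y u)) / (Fintype.card V : ℝ) := by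
    rw [hcard, Fintype.sum_prod_type]
    simp only [f2, Finset.sum_const, card_univ, nsmul_eq_mul]
    rw [← Finset.mul_sum]
    field_simp
  have d1 := dev_iid m hm f1 hf1 a ha0 ha
  have d2 := dev_iid m hm f2 hf2 a ha0 ha
  rw [hm1] at d1
  rw [hm2] at d2
  set c := (∑ u, ∑ v, ad G u v * (rb (y u) * (1 - rb (y v)))) / (Fintype.card V : ℝ) ^ 2 with hc
  set β := (∑ u, rb (y u)) / (Fintype.card V : ℝ) with hβ
  have hβ0 : 0 ≤ β := div_nonneg (Finset.sum_nonneg fun _ _ => rb_nonneg _) hN.le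
  have hβ1 : β ≤ 1 := by
    rw [hβ, div_le_one hN]
    calc ∑ u, rb (y u) ≤ ∑ _u : V, (1 : ℝ) := Finset.sum_le_sum fun _ _ => rb_le_one _
      _ = _ := by simp
  have hsub : (univ.filter (fun W : Fin m → V × V =>
      ¬ |objhat G Λ W y - obj G Λ y| ≤ a * (1 + Λ))) ⊆
      (univ.filter (fun z : Fin m → V × V => a ≤ |(∑ s, f1 (z s)) / m - c|)) ∪
      (univ.filter (fun z : Fin m → V × V => a ≤ |(∑ s, f2 (z s)) / m - β|)) := by
    intro W hW
    simp only [Finset.mem_filter, Finset.mem_univ, true_and, Finset.mem_union] at hW ⊢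
    by_contra hcon
    rw [not_or, not_le, not_le] at hcon
    apply hW
    obtain ⟨hc1, hc2⟩ := hcon
    set ch := (∑ s, f1 (W s)) / (m : ℝ) with hch
    set bh := (∑ s, f2 (W s)) / (m : ℝ) with hbh
    have hbh0 : 0 ≤ bh := div_nonneg (Finset.sum_nonneg fun _ _ => rb_nonneg _) hmR.le
    have hbh1 : bh ≤ 1 := by
      rw [hbh, div_le_one hmR]
      calc ∑ s, f2 (W s) ≤ ∑ _s : Fin m, (1 : ℝ) := Finset.sum_le_sum fun s _ => (hf2 _).2
        _ = _ := by simp
    have e1 : objhat G Λ W y - obj G Λ y = (ch - c) + Λ * ((bh - β) * (bh + β - 1)) := by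
      unfold objhat obj
      rw [← hc, ← hβ]
      change ch + Λ * (bh - 1 / 2) ^ 2 - _ = _
      ring
    rw [e1]
    have h1 : |bh + β - 1| ≤ 1 := by rw [abs_le]; constructor <;> linarith
    calc |(ch - c) + Λ * ((bh - β) * (bh + β - 1))|
        ≤ |ch - c| + |Λ * ((bh - β) * (bh + β - 1))| := abs_add_le _ _
      _ = |ch - c| + Λ * (|bh - β| * |bh + β - 1|) := by
          rw [abs_mul, abs_mul, abs_of_nonneg hΛ]
      _ ≤ a + Λ * (a * 1) := by
          gcongr
      _ = a * (1 + Λ) := by ring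
  have hcardle := (Finset.card_le_card hsub).trans (Finset.card_union_le _ _)
  have hR : ((univ.filter (fun W : Fin m → V × V =>
      ¬ |objhat G Λ W y - obj G Λ y| ≤ a * (1 + Λ))).card : ℝ) ≤
      ((univ.filter (fun z : Fin m → V × V => a ≤ |(∑ s, f1 (z s)) / m - c|)).card : ℝ) +
      ((univ.filter (fun z : Fin m → V × V => a ≤ |(∑ s, f2 (z s)) / m - β|)).card : ℝ) := by
    exact_mod_cast hcardle
  have hcc : (Fintype.card (Fin m → V × V) : ℝ) = (Fintype.card (V × V) : ℝ) ^ m := by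
    simp
  rw [hcc]
  linarith

theorem card_filter_prod {Ω₁ Ω₂ : Type} [Fintype Ω₁] [Fintype Ω₂] (P : Ω₁ → Ω₂ → Prop)
    [DecidablePred (fun p : Ω₁ × Ω₂ => P p.1 p.2)] [∀ u, DecidablePred (P u)] :
    ((univ.filter (fun p : Ω₁ × Ω₂ => P p.1 p.2)).card : ℝ) =
      ∑ u : Ω₁, ((univ.filter (fun w : Ω₂ => P u w)).card : ℝ) := by
  simp only [Finset.card_filter, Nat.cast_sum, Fintype.sum_prod_type]

/-- completeness -/
theorem complete [Nonempty V] (G : SimpleGraph V) {Λ : ℝ} (hΛ : 0 ≤ Λ) (ht : 0 < t)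
    (hm : 0 < m) (lab : V → Fin k) (ρ δ a c : ℝ) (hδ : 0 < δ) (ha0 : 0 ≤ a) (ha : a ≤ 2)
    (hblock : ∀ i, (((univ.filter (fun v => (lab v).val = i)).card : ℝ) /
      (Fintype.card V : ℝ)) ≤ c)
    (h1 : 10 * (1 + Λ) / Real.sqrt t ≤ δ / 10) (h2 : k * ((Λ + 1) * c ^ 2) ≤ δ)
    (h3 : a * (1 + Λ) ≤ δ) (h4 : 4 * Real.exp (-(a ^ 2 / 4 * m)) ≤ 1 / 10)
    (y0 : V → Bool) (hobj : obj G Λ y0 ≤ ρ) :
    ((univ.filter (fun p : (Fin k → Fin t → V) × (Fin m → V × V) =>
      ¬ accept G Λ lab (ρ + 3 * δ) p.1 p.2)).card : ℝ) ≤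
      (Fintype.card ((Fin k → Fin t → V) × (Fin m → V × V)) : ℝ) * (1 / 5) := by
  set lab' : V → ℕ := fun v => (lab v).val with hlab'
  set E : (Fin k → Fin t → V) → ℝ := fun U => ∑ i ∈ range k, stepErr G Λ lab' (ext U) y0 i with hE
  have hE0 : ∀ U, 0 ≤ E U := by
    intro U
    refine Finset.sum_nonneg fun i _ => ?_
    unfold stepErr
    exact div_nonneg (Finset.sum_nonneg fun _ _ => abs_nonneg _) (Nat.cast_nonneg _)
  have hsum : ∑ U, E U ≤ (Fintype.card (Fin k → Fin t → V) : ℝ) * (δ / 10) :=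
    (sum_stepErr G hΛ ht lab' y0).trans (mul_le_mul_of_nonneg_left h1 (Nat.cast_nonneg _))
  -- good `U`
  have hgood : ∀ U, E U < δ → ((univ.filter (fun W : Fin m → V × V =>
      ¬ accept G Λ lab (ρ + 3 * δ) U W)).card : ℝ) ≤
      (Fintype.card (Fin m → V × V) : ℝ) * (1 / 10) := by
    intro U hU
    set y : V → Bool := yh G Λ lab' (ext U) y0 k with hy
    have hobjy : obj G Λ y ≤ ρ + 2 * δ := by
      have := obj_yh G hΛ lab' (ext U) y0 c hblock k
      change obj G Λ y ≤ obj G Λ y0 + E U + _ at this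
      linarith
    let π : Fin k → Fin t → Bool := fun j s => yh G Λ lab' (ext U) y0 j.val (U j s)
    have hyg : y = yg G Λ lab U π := by
      funext v
      rw [hy, yh_final G Λ lab' (ext U) y0 v k (lab v).isLt]
      have hext : ext U (lab' v) = U (lab v) := by
        unfold ext
        rw [dif_pos (lab v).isLt]
      rw [hext]
      rfl
    have hd := objhat_dev (m := m) G hΛ hm y a ha0 ha
    refine le_trans ?_ (hd.trans (mul_le_mul_of_nonneg_left h4 (Nat.cast_nonneg _)))
    have hsub : (univ.filter (fun W : Fin m → V × V => ¬ accept G Λ lab (ρ + 3 * δ) U W)) ⊆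
        (univ.filter (fun W : Fin m → V × V =>
          ¬ |objhat G Λ W y - obj G Λ y| ≤ a * (1 + Λ))) := by
      intro W hW
      simp only [Finset.mem_filter, Finset.mem_univ, true_and] at hW ⊢
      intro hcon
      apply hW
      refine ⟨π, ?_⟩
      rw [← hyg]
      have := (abs_le.mp hcon).2
      linarith
    exact_mod_cast Finset.card_le_card hsub
  rw [card_filter_prod (fun (U : Fin k → Fin t → V) (W : Fin m → V × V) =>
    ¬ accept G Λ lab (ρ + 3 * δ) U W)]
  have hbound : ∀ U, ((univ.filter (fun W : Fin m → V × V =>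
      ¬ accept G Λ lab (ρ + 3 * δ) U W)).card : ℝ) ≤
      (Fintype.card (Fin m → V × V) : ℝ) * (1 / 10 + E U / δ) := by
    intro U
    by_cases hU : E U < δ
    · refine (hgood U hU).trans (mul_le_mul_of_nonneg_left ?_ (Nat.cast_nonneg _))
      have : 0 ≤ E U / δ := div_nonneg (hE0 U) hδ.le
      linarith
    · push Not at hU
      have h5 : 1 ≤ E U / δ := by rw [le_div_iff₀ hδ]; linarith
      have h6 : ((univ.filter (fun W : Fin m → V × V =>
        ¬ accept G Λ lab (ρ + 3 * δ) U W)).card : ℝ) ≤ Fintype.card (Fin m → V × V) := by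
        exact_mod_cast Finset.card_le_univ _
      have h7 : (0 : ℝ) ≤ Fintype.card (Fin m → V × V) := Nat.cast_nonneg _
      nlinarith
  calc ∑ U, ((univ.filter (fun W : Fin m → V × V =>
      ¬ accept G Λ lab (ρ + 3 * δ) U W)).card : ℝ)
      ≤ ∑ U, (Fintype.card (Fin m → V × V) : ℝ) * (1 / 10 + E U / δ) :=
        Finset.sum_le_sum fun U _ => hbound U
    _ = (Fintype.card (Fin m → V × V) : ℝ) *
        ((Fintype.card (Fin k → Fin t → V) : ℝ) * (1 / 10) + (∑ U, E U) / δ) := by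
        rw [← Finset.mul_sum, Finset.sum_add_distrib, Finset.sum_const,
          card_univ, nsmul_eq_mul, ← Finset.sum_div]
    _ ≤ (Fintype.card (Fin m → V × V) : ℝ) *
        ((Fintype.card (Fin k → Fin t → V) : ℝ) * (1 / 10) +
          (Fintype.card (Fin k → Fin t → V) : ℝ) * (1 / 10)) := by
        refine mul_le_mul_of_nonneg_left ?_ (Nat.cast_nonneg _)
        have : (∑ U, E U) / δ ≤ (Fintype.card (Fin k → Fin t → V) : ℝ) * (1 / 10) := by
          rw [div_le_iff₀ hδ]
          linarith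
        linarith
    _ = _ := by
        rw [Fintype.card_prod]; push_cast; ring

/-- soundness -/
theorem sound [Nonempty V] (G : SimpleGraph V) {Λ : ℝ} (hΛ : 0 ≤ Λ)
    (hm : 0 < m) (lab : V → Fin k) (ρ δ a : ℝ) (hδ : 0 < δ) (ha0 : 0 ≤ a) (ha : a ≤ 2)
    (h3 : a * (1 + Λ) ≤ δ)
    (h4 : 2 ^ (k * t) * (4 * Real.exp (-(a ^ 2 / 4 * m))) ≤ 1 / 10)
    (hobj : ∀ y : V → Bool, ρ + 7 * δ ≤ obj G Λ y) :
    ((univ.filter (fun p : (Fin k → Fin t → V) × (Fin m → V × V) =>
      accept G Λ lab (ρ + 3 * δ) p.1 p.2)).card : ℝ) ≤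
      (Fintype.card ((Fin k → Fin t → V) × (Fin m → V × V)) : ℝ) * (1 / 10) := by
  rw [card_filter_prod (fun (U : Fin k → Fin t → V) (W : Fin m → V × V) =>
    accept G Λ lab (ρ + 3 * δ) U W)]
  have hbound : ∀ U : Fin k → Fin t → V, ((univ.filter (fun W : Fin m → V × V =>
      accept G Λ lab (ρ + 3 * δ) U W)).card : ℝ) ≤
      (Fintype.card (Fin m → V × V) : ℝ) * (1 / 10) := by
    intro U
    have hsub : (univ.filter (fun W : Fin m → V × V => accept G Λ lab (ρ + 3 * δ) U W)) ⊆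
        (univ : Finset (Fin k → Fin t → Bool)).biUnion (fun π =>
          univ.filter (fun W : Fin m → V × V =>
            ¬ |objhat G Λ W (yg G Λ lab U π) - obj G Λ (yg G Λ lab U π)| ≤ a * (1 + Λ))) := by
      intro W hW
      simp only [Finset.mem_filter, Finset.mem_univ, true_and, Finset.mem_biUnion] at hW ⊢
      obtain ⟨π, hπ⟩ := hW
      refine ⟨π, fun hcon => ?_⟩
      have h5 := hobj (yg G Λ lab U π)
      have h6 := (abs_le.mp hcon).1
      linarith
    have hcard := (Finset.card_le_card hsub).trans Finset.card_biUnion_le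
    have hcardR : ((univ.filter (fun W : Fin m → V × V =>
        accept G Λ lab (ρ + 3 * δ) U W)).card : ℝ) ≤
        ∑ π : Fin k → Fin t → Bool, ((univ.filter (fun W : Fin m → V × V =>
            ¬ |objhat G Λ W (yg G Λ lab U π) - obj G Λ (yg G Λ lab U π)| ≤ a * (1 + Λ))).card : ℝ) := by
      exact_mod_cast hcard
    refine hcardR.trans ?_
    calc ∑ π : Fin k → Fin t → Bool, ((univ.filter (fun W : Fin m → V × V =>
            ¬ |objhat G Λ W (yg G Λ lab U π) - obj G Λ (yg G Λ lab U π)| ≤ a * (1 + Λ))).card : ℝ)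
        ≤ ∑ _π : Fin k → Fin t → Bool, (Fintype.card (Fin m → V × V) : ℝ) *
            (4 * Real.exp (-(a ^ 2 / 4 * m))) :=
          Finset.sum_le_sum fun π _ => objhat_dev G hΛ hm _ a ha0 ha
      _ = (Fintype.card (Fin m → V × V) : ℝ) *
          (2 ^ (k * t) * (4 * Real.exp (-(a ^ 2 / 4 * m)))) := by
          rw [Finset.sum_const, card_univ, nsmul_eq_mul]
          have : (Fintype.card (Fin k → Fin t → Bool) : ℝ) = 2 ^ (k * t) := by
            simp only [Fintype.card_fun, Fintype.card_bool, Fintype.card_fin]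
            push_cast
            rw [← pow_mul, mul_comm]
          rw [this]; ring
      _ ≤ _ := mul_le_mul_of_nonneg_left h4 (Nat.cast_nonneg _)
  calc ∑ U, ((univ.filter (fun W : Fin m → V × V =>
      accept G Λ lab (ρ + 3 * δ) U W)).card : ℝ)
      ≤ ∑ _U : Fin k → Fin t → V, (Fintype.card (Fin m → V × V) : ℝ) * (1 / 10) :=
        Finset.sum_le_sum fun U _ => hbound U
    _ = _ := by
        rw [Finset.sum_const, card_univ, nsmul_eq_mul, Fintype.card_prod]; push_cast; ring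

end

section
open Classical

variable {n : ℕ}

/-- indicator of a set as a bit vector -/
theorem obj_eq (G : SimpleGraph (Fin n)) (Λ : ℝ) (S : Finset (Fin n)) :
    obj G Λ (fun v => decide (v ∈ S)) =
      (cutEdges G S : ℝ) / (n : ℝ) ^ 2 + Λ * ((S.card : ℝ) / n - 1 / 2) ^ 2 := by
  have h1 : ∀ v, rb (decide (v ∈ S)) = chi S v := by
    intro v; simp [rb, chi]
  unfold obj
  simp only [h1, sum_chi, Fintype.card_fin]
  rw [cutEdges_real]
  congr 2
  refine Finset.sum_congr rfl fun u _ => Finset.sum_congr rfl fun v _ => ?_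
  unfold ad; ring

theorem cut_lipschitz (G : SimpleGraph (Fin n)) (S S' : Finset (Fin n)) (h : S ⊆ S') :
    cutEdges G S' ≤ cutEdges G S + (S' \ S).card * n ∧
      cutEdges G S ≤ cutEdges G S' + (S' \ S).card * n := by
  have hprod : ((S' \ S) ×ˢ (univ : Finset (Fin n))).card = (S' \ S).card * n := by
    rw [Finset.card_product, card_univ, Fintype.card_fin]
  have hprod' : ((univ : Finset (Fin n)) ×ˢ (S' \ S)).card = (S' \ S).card * n := by
    rw [Finset.card_product, card_univ, Fintype.card_fin, mul_comm]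
  constructor
  · rw [← hprod]
    unfold cutEdges
    refine le_trans (Finset.card_le_card ?_) (Finset.card_union_le _ _)
    intro p hp
    simp only [Finset.mem_filter, Finset.mem_univ, true_and, Finset.mem_union,
      Finset.mem_product, Finset.mem_sdiff, and_true] at hp ⊢
    obtain ⟨h1, h2, h3⟩ := hp
    by_cases h4 : p.1 ∈ S
    · left; exact ⟨h4, fun h5 => h2 (h h5), h3⟩
    · right; exact ⟨h1, h4⟩
  · rw [← hprod']
    unfold cutEdges
    refine le_trans (Finset.card_le_card ?_) (Finset.card_union_le _ _)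
    intro p hp
    simp only [Finset.mem_filter, Finset.mem_univ, true_and, Finset.mem_union,
      Finset.mem_product, Finset.mem_sdiff] at hp ⊢
    obtain ⟨h1, h2, h3⟩ := hp
    by_cases h4 : p.2 ∈ S'
    · right; exact ⟨h4, h2⟩
    · left; exact ⟨h h1, h4, h3⟩

/-- far graphs have large penalised objective -/
theorem obj_far (G : SimpleGraph (Fin n)) (hn : 0 < n) (he : Even n) {Λ g : ℝ} (hΛ : 0 < Λ)
    (hfar : ∀ S : Finset (Fin n), 2 * S.card = n → g * (n : ℝ) ^ 2 ≤ (cutEdges G S : ℝ))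
    (y : Fin n → Bool) : g - 1 / (4 * Λ) ≤ obj G Λ y := by
  obtain ⟨h, hh⟩ := he
  set S : Finset (Fin n) := univ.filter (fun v => y v = true) with hS
  have hy : y = fun v => decide (v ∈ S) := by
    funext v; simp [hS]
  rw [hy, obj_eq]
  have hnR : (0 : ℝ) < n := by exact_mod_cast hn
  have hnh : (n : ℝ) = 2 * h := by rw [hh]; push_cast; ring
  have key : ∀ e : ℝ, 0 ≤ e → (S.card : ℝ) = h + e * n ∨ (S.card : ℝ) = h - e * n →
      (g - e) * (n : ℝ) ^ 2 ≤ cutEdges G S →
      g - 1 / (4 * Λ) ≤ (cutEdges G S : ℝ) / (n : ℝ) ^ 2 + Λ * ((S.card : ℝ) / n - 1 / 2) ^ 2 := by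
    intro e _ hc hcut
    have h1 : g - e ≤ (cutEdges G S : ℝ) / (n : ℝ) ^ 2 := by
      rw [le_div_iff₀ (by positivity)]; exact hcut
    have h2 : ((S.card : ℝ) / n - 1 / 2) ^ 2 = e ^ 2 := by
      have hh2 : (h : ℝ) / n = 1 / 2 := by
        rw [div_eq_iff hnR.ne', hnh]; ring
      rcases hc with hc | hc
      · rw [hc, add_div, hh2, mul_div_assoc, div_self hnR.ne']; ring
      · rw [hc, sub_div, hh2, mul_div_assoc, div_self hnR.ne']; ring
    rw [h2]
    have h3 : -(1 / (4 * Λ)) ≤ Λ * e ^ 2 - e := by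
      have : Λ * e ^ 2 - e + 1 / (4 * Λ) = Λ * (e - 1 / (2 * Λ)) ^ 2 := by
        field_simp; ring
      have h4 : 0 ≤ Λ * (e - 1 / (2 * Λ)) ^ 2 := by positivity
      linarith
    linarith
  rcases le_total h S.card with hle | hle
  · obtain ⟨S', hS', hcard⟩ := Finset.exists_subset_card_eq (s := S) hle
    have h1 := (cut_lipschitz G S' S hS').2
    have h2 := hfar S' (by omega)
    have h3 : (S \ S').card = S.card - h := by
      rw [Finset.card_sdiff_of_subset hS', hcard]
    rw [h3] at h1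
    have h1R : (cutEdges G S' : ℝ) ≤ cutEdges G S + ((S.card : ℝ) - h) * n := by
      have : ((S.card - h : ℕ) : ℝ) = (S.card : ℝ) - h := by rw [Nat.cast_sub hle]
      rw [← this]; exact_mod_cast h1
    have hleR : (h : ℝ) ≤ S.card := by exact_mod_cast hle
    refine key (((S.card : ℝ) - h) / n) (div_nonneg (by linarith) hnR.le) (Or.inl ?_) ?_
    · field_simp; ring
    · have : (g - ((S.card : ℝ) - h) / n) * (n : ℝ) ^ 2 =
          g * (n : ℝ) ^ 2 - ((S.card : ℝ) - h) * n := by field_simp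
      rw [this]; linarith
  · obtain ⟨S', hS', hcard⟩ := Finset.exists_superset_card_eq (s := S) hle
      (by rw [Fintype.card_fin]; omega)
    have h1 := (cut_lipschitz G S S' hS').1
    have h2 := hfar S' (by omega)
    have h3 : (S' \ S).card = h - S.card := by
      rw [Finset.card_sdiff_of_subset hS', hcard]
    rw [h3] at h1
    have h1R : (cutEdges G S' : ℝ) ≤ cutEdges G S + ((h : ℝ) - S.card) * n := by
      have : ((h - S.card : ℕ) : ℝ) = (h : ℝ) - S.card := by rw [Nat.cast_sub hle]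
      rw [← this]; exact_mod_cast h1
    have hleR : (S.card : ℝ) ≤ h := by exact_mod_cast hle
    refine key (((h : ℝ) - S.card) / n) (div_nonneg (by linarith) hnR.le) (Or.inr ?_) ?_
    · field_simp; ring
    · have : (g - ((h : ℝ) - S.card) / n) * (n : ℝ) ^ 2 =
          g * (n : ℝ) ^ 2 - ((h : ℝ) - S.card) * n := by field_simp
      rw [this]; linarith

end

end Pool.Agent.Helper76_Bisect
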