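import Pool.Agent.Helper76_Bisect.Boost
import Pool.Agent.Helper76_Bisect.Tester

set_option autoImplicit false

/-!
Circuits for predicates of counts, and for the witness predicate of the sampling test.
-/

namespace Pool.Agent.Helper76_Bisect

open Finset

section
variable {X : Type} {𝓑 : Set (X → Bool)} {s : ℕ} {F : Set (X → Bool)}

theorem Computes.exact (m : ℕ) (f : ℕ → X → Bool) (h : Computes 𝓑 s F)
    (hf : ∀ r < m, f r ∈ F) :
    Computes 𝓑 (s + 2 + m * (5 * (m + 2)) + 3 * (m + 1))
      (F ∪ {g | ∃ j ∈ range (m + 1), g = fun x => decide (cnt f m x = j)}) := by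
  have h1 := h.thresholds m f hf m le_rfl
  have h2 := h1.bigUnion (range (m + 1)) (fun j x => decide (cnt f m x = j)) 3 (by
    intro t G hG ht j hj
    have hj' := mem_range.mp hj
    have h3 := (ht.not (f := thr f m (j + 1)) (hG (Or.inr ⟨j + 1, mem_range.mpr (by omega),
      rfl⟩))).and (f := thr f m j) (g := fun x => !(thr f m (j + 1) x))
      (Set.mem_insert_of_mem _ (hG (Or.inr ⟨j, mem_range.mpr (by omega), rfl⟩)))
      (Set.mem_insert _ _)
    refine h3.mono (by omega) ?_
    rintro g (rfl | hg)
    · left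
      funext x
      rw [Bool.eq_iff_iff]
      simp only [thr, decide_eq_true_eq, Bool.and_eq_true, Bool.not_eq_true', decide_eq_false_iff_not]
      omega
    · right; right; exact hg)
  refine h2.mono ?_ ?_
  · simp only [card_range]; omega
  · rintro g (hg | hg)
    · left; left; exact hg
    · right; exact hg

open Classical in
/-- predicates of three counts -/
theorem Computes.count3 (m : ℕ) (f g k : ℕ → X → Bool) (h : Computes 𝓑 s F)
    (hf : ∀ r < m, f r ∈ F) (hg : ∀ r < m, g r ∈ F) (hk : ∀ r < m, k r ∈ F)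
    (P : ℕ → ℕ → ℕ → Prop) (D : X → Bool)
    (hD : ∀ x, D x = true ↔ P (cnt f m x) (cnt g m x) (cnt k m x)) :
    Computes 𝓑 (s + 100 * (m + 2) ^ 3) (insert D F) := by
  have hcle : ∀ (f : ℕ → X → Bool) (x : X), cnt f m x ∈ range (m + 1) := by
    intro f x
    rw [mem_range]
    unfold cnt
    have := Finset.card_filter_le (range m) (fun r => f r x = true)
    rw [card_range] at this
    omega
  have h1 := h.exact m f hf
  have h2 := h1.exact m g (fun r hr => Or.inl (hg r hr))
  have h3 := h2.exact m k (fun r hr => Or.inl (Or.inl (hk r hr)))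
  have h4 := h3.bigUnion (range (m + 1) ×ˢ range (m + 1))
    (fun p x => decide (cnt f m x = p.1) && decide (cnt g m x = p.2)) 2 (by
      intro t G hG ht p hp
      rw [mem_product] at hp
      exact ht.and (f := fun x => decide (cnt f m x = p.1))
        (g := fun x => decide (cnt g m x = p.2))
        (hG (Or.inl (Or.inl (Or.inr ⟨p.1, hp.1, rfl⟩)))) (hG (Or.inl (Or.inr ⟨p.2, hp.2, rfl⟩))))
  have h5 := h4.bigOr (((range (m + 1) ×ˢ range (m + 1)) ×ˢ range (m + 1)).filter
      (fun p => P p.1.1 p.1.2 p.2))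
    (fun p x => decide (cnt f m x = p.1.1) && decide (cnt g m x = p.1.2))
    (fun p x => decide (cnt k m x = p.2))
    (by
      intro p hp
      have hp' := (mem_product.mp (mem_filter.mp hp).1)
      exact Or.inr ⟨p.1, hp'.1, rfl⟩)
    (by
      intro p hp
      have hp' := (mem_product.mp (mem_filter.mp hp).1)
      exact Or.inl (Or.inr ⟨p.2, hp'.2, rfl⟩)) D (by
      intro x
      rw [hD x]
      constructor
      · intro hP
        refine ⟨((cnt f m x, cnt g m x), cnt k m x), ?_, by simp, by simp⟩
        rw [mem_filter, mem_product, mem_product]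
        exact ⟨⟨⟨hcle f x, hcle g x⟩, hcle k x⟩, hP⟩
      · rintro ⟨p, hp, h6, h7⟩
        simp only [Bool.and_eq_true, decide_eq_true_eq] at h6 h7
        rw [h6.1, h6.2, h7]
        exact (mem_filter.mp hp).2)
  refine h5.mono ?_ ?_
  · have hc1 : (((range (m + 1) ×ˢ range (m + 1)) ×ˢ range (m + 1)).filter
      (fun p => P p.1.1 p.1.2 p.2)).card ≤ (m + 1) * (m + 1) * (m + 1) := by
      refine (Finset.card_filter_le _ _).trans ?_
      rw [card_product, card_product, card_range]
    rw [card_product, card_range]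
    have e1 : (m + 2) ^ 3 = m ^ 3 + 6 * m ^ 2 + 12 * m + 8 := by ring
    rw [e1]
    nlinarith
  · rintro d (rfl | hd)
    · left; rfl
    · right; left; left; left; left; exact hd

/-- extension of a finite family of functions -/
def exf {t : ℕ} (g : Fin t → X → Bool) : ℕ → X → Bool :=
  fun s => if h : s < t then g ⟨s, h⟩ else fun _ => false

theorem exf_mem {t : ℕ} {g : Fin t → X → Bool} (hg : ∀ s, g s ∈ F) : ∀ r < t, exf g r ∈ F := by
  intro r hr
  unfold exf
  rw [dif_pos hr]
  exact hg _

theorem sum_rb {t : ℕ} (g : Fin t → X → Bool) (x : X) :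
    ∑ r : Fin t, rb (g r x) = (cnt (exf g) t x : ℝ) := by
  unfold cnt
  rw [Finset.card_filter, Nat.cast_sum, Finset.sum_range]
  refine Finset.sum_congr rfl fun r _ => ?_
  unfold rb exf
  rw [dif_pos r.isLt]
  simp

/-- cost of the witness predicate -/
def accCost (t m : ℕ) : ℕ :=
  (5 * t + 100 * (t + 2) ^ 3) * (m * 2) + (5 * m + 100 * (m + 2) ^ 3)

theorem acc_computes {k t m : ℕ} (h : Computes 𝓑 s F) (aF : Fin m → Bool → Fin t → X → Bool)
    (eF : Fin m → X → Bool) (pF : Fin k → Fin t → X → Bool) (ha : ∀ r b i, aF r b i ∈ F)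
    (he : ∀ r, eF r ∈ F) (hp : ∀ j i, pF j i ∈ F) (lb : Fin m → Bool → Fin k) (Λ θ : ℝ)
    (Y : Fin m → Bool → X → Bool)
    (hY : ∀ r b x, Y r b x = true ↔
      (∑ i, rb (aF r b i x) * (1 - 2 * rb (pF (lb r b) i x))) / (t : ℝ) +
        2 * Λ * ((∑ i, rb (pF (lb r b) i x)) / (t : ℝ) - 1 / 2) < 0)
    (D : X → Bool)
    (hD : ∀ x, D x = true ↔
      (∑ r, rb (eF r x) * (rb (Y r false x) * (1 - rb (Y r true x)))) / (m : ℝ) +
        Λ * ((∑ r, rb (Y r false x)) / (m : ℝ) - 1 / 2) ^ 2 ≤ θ) :
    Computes 𝓑 (s + accCost t m) (insert D F) := by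
  have h1 := h.bigUnion (univ : Finset (Fin m × Bool)) (fun p => Y p.1 p.2)
    (5 * t + 100 * (t + 2) ^ 3) (by
      rintro τ G hG hτ ⟨r, b⟩ _
      have h2 := hτ.bigUnion (univ : Finset (Fin t))
        (fun i x => aF r b i x && pF (lb r b) i x) 2 (by
          intro τ' G' hG' hτ' i _
          exact hτ'.and (hG' (hG (ha r b i))) (hG' (hG (hp (lb r b) i))))
      have h3 := h2.bigUnion (univ : Finset (Fin t))
        (fun i x => aF r b i x && !(pF (lb r b) i x)) 3 (by
          intro τ' G' hG' hτ' i _
          have h4 := (hτ'.not (f := pF (lb r b) i) (hG' (Or.inl (hG (hp (lb r b) i))))).and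
            (f := aF r b i) (g := fun x => !(pF (lb r b) i x))
            (Set.mem_insert_of_mem _ (hG' (Or.inl (hG (ha r b i))))) (Set.mem_insert _ _)
          refine h4.mono (by omega) ?_
          rintro g (rfl | hg)
          · left; rfl
          · right; right; exact hg)
      have h5 := h3.count3 t (exf fun i x => aF r b i x && !(pF (lb r b) i x))
        (exf fun i x => aF r b i x && pF (lb r b) i x) (exf fun i => pF (lb r b) i)
        (exf_mem fun i => Or.inr ⟨i, mem_univ _, rfl⟩)
        (exf_mem fun i => Or.inl (Or.inr ⟨i, mem_univ _, rfl⟩))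
        (exf_mem fun i => Or.inl (Or.inl (hG (hp (lb r b) i))))
        (fun n1 n2 n3 => ((n1 : ℝ) - n2) / (t : ℝ) + 2 * Λ * ((n3 : ℝ) / (t : ℝ) - 1 / 2) < 0)
        (Y r b) (by
          intro x
          rw [hY, ← sum_rb, ← sum_rb, ← sum_rb, ← Finset.sum_sub_distrib]
          have : ∀ i, rb (aF r b i x) * (1 - 2 * rb (pF (lb r b) i x)) =
              rb (aF r b i x && !(pF (lb r b) i x)) - rb (aF r b i x && pF (lb r b) i x) := by
            intro i
            cases aF r b i x <;> cases pF (lb r b) i x <;> simp [rb] <;> norm_num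
          simp only [this])
      refine h5.mono ?_ ?_
      · simp only [card_univ, Fintype.card_fin]; omega
      · rintro g (rfl | hg)
        · left; rfl
        · right; left; left; exact hg)
  have h6 := h1.bigUnion (univ : Finset (Fin m))
    (fun r x => eF r x && Y r false x) 2 (by
      intro τ G hG hτ r _
      exact hτ.and (hG (Or.inl (he r))) (hG (Or.inr ⟨(r, false), mem_univ _, rfl⟩)))
  have h7 := h6.bigUnion (univ : Finset (Fin m))
    (fun r x => (eF r x && Y r false x) && !(Y r true x)) 3 (by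
      intro τ G hG hτ r _
      have h8 := (hτ.not (f := Y r true) (hG (Or.inl (Or.inr ⟨(r, true), mem_univ _, rfl⟩)))).and
        (f := fun x => eF r x && Y r false x) (g := fun x => !(Y r true x))
        (Set.mem_insert_of_mem _ (hG (Or.inr ⟨r, mem_univ _, rfl⟩))) (Set.mem_insert _ _)
      refine h8.mono (by omega) ?_
      rintro g (rfl | hg)
      · left; rfl
      · right; right; exact hg)
  have h9 := h7.count3 m (exf fun r x => (eF r x && Y r false x) && !(Y r true x))
    (exf fun r => Y r false) (exf fun r => Y r false)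
    (exf_mem fun r => Or.inr ⟨r, mem_univ _, rfl⟩)
    (exf_mem fun r => Or.inl (Or.inl (Or.inr ⟨(r, false), mem_univ _, rfl⟩)))
    (exf_mem fun r => Or.inl (Or.inl (Or.inr ⟨(r, false), mem_univ _, rfl⟩)))
    (fun n1 n2 _ => (n1 : ℝ) / (m : ℝ) + Λ * ((n2 : ℝ) / (m : ℝ) - 1 / 2) ^ 2 ≤ θ) D (by
      intro x
      rw [hD, ← sum_rb, ← sum_rb]
      have : ∀ r, rb (eF r x) * (rb (Y r false x) * (1 - rb (Y r true x))) =
          rb ((eF r x && Y r false x) && !(Y r true x)) := by
        intro r
        cases eF r x <;> cases Y r false x <;> cases Y r true x <;> simp [rb]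
      simp only [this])
  refine h9.mono ?_ ?_
  · unfold accCost
    simp only [card_univ, Fintype.card_prod, Fintype.card_bool, Fintype.card_fin]
    omega
  · rintro g (rfl | hg)
    · left; rfl
    · right; left; left; left; exact hg

end

end Pool.Agent.Helper76_Bisect
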