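import Mathlib

set_option autoImplicit false

/-!
Definitions for the hardness theorem on fast smoothed testers for graph bisection.
-/

namespace Pool.Agent.Helper76_Bisect

open Finset

/-! ### Graph bisection -/

/-- The number of edges of `G` with one endpoint in `S` and the other outside `S`. -/
noncomputable def cutEdges {V : Type} [Fintype V] (G : SimpleGraph V) (S : Finset V) : ℕ := by
  classical exact (univ.filter (fun p : V × V => p.1 ∈ S ∧ p.2 ∉ S ∧ G.Adj p.1 p.2)).card

/-- `ρ`-Bisection: the `n` vertices can be split into two halves of size `n / 2` joined by at most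
`ρ n ^ 2` edges. -/
def RhoBisection (ρ : ℝ) {n : ℕ} (G : SimpleGraph (Fin n)) : Prop :=
  ∃ S : Finset (Fin n), 2 * S.card = n ∧ (cutEdges G S : ℝ) ≤ ρ * (n : ℝ) ^ 2

/-! ### Perturbations

The perturbed graph is the symmetric difference `symmDiff G T` of the edge sets of the base graph
`G` and of the random graph `T` of toggled pairs. -/

/-- The unordered pairs of distinct vertices, each represented once. -/
def pairs (n : ℕ) : Finset (Fin n × Fin n) := univ.filter (fun p => p.1 < p.2)

/-- The probability that `T` is exactly the set of pairs toggled by a `σ`-perturbation: every pair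
is toggled independently with probability `σ`. -/
noncomputable def toggleProb (σ : ℝ) {n : ℕ} (T : SimpleGraph (Fin n)) : ℝ := by
  classical exact ∏ p ∈ pairs n, if T.Adj p.1 p.2 then σ else 1 - σ

/-! ### Algorithms with edge queries -/

/-- `QueryProgram V B W`: there is a straight-line program (with access to a graph on `V`)
that computes exactly the bit values `B` and the vertex values `W`, most recent value first; each
value is given as a function of the queried graph.  The number of steps of the program is
`B.length + W.length`.  Steps can load a constant bit, load a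
fixed vertex (a program drawn at random can thus use random vertices), apply a NAND gate, select
one of two vertices according to a bit, compare two vertices and query whether two
vertices are adjacent. In particular queries can depend on the answers to earlier queries. -/
inductive QueryProgram (V : Type) [DecidableEq V] :
    List (SimpleGraph V → Bool) → List (SimpleGraph V → V) → Prop
  | nil : QueryProgram V [] []
  | const {B : List (SimpleGraph V → Bool)} {W : List (SimpleGraph V → V)} (b : Bool) :
      QueryProgram V B W → QueryProgram V ((fun _ => b) :: B) W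
  | nand {B : List (SimpleGraph V → Bool)} {W : List (SimpleGraph V → V)}
      (f g : SimpleGraph V → Bool) :
      QueryProgram V B W → f ∈ B → g ∈ B →
      QueryProgram V ((fun G => !(f G && g G)) :: B) W
  | vertex {B : List (SimpleGraph V → Bool)} {W : List (SimpleGraph V → V)} (v : V) :
      QueryProgram V B W → QueryProgram V B ((fun _ => v) :: W)
  | select {B : List (SimpleGraph V → Bool)} {W : List (SimpleGraph V → V)}
      (f : SimpleGraph V → Bool) (u v : SimpleGraph V → V) :
      QueryProgram V B W → f ∈ B → u ∈ W → v ∈ W →
      QueryProgram V B ((fun G => if f G then u G else v G) :: W)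
  | compare {B : List (SimpleGraph V → Bool)} {W : List (SimpleGraph V → V)}
      (u v : SimpleGraph V → V) :
      QueryProgram V B W → u ∈ W → v ∈ W →
      QueryProgram V ((fun G => decide (u G = v G)) :: B) W
  | query {B : List (SimpleGraph V → Bool)} {W : List (SimpleGraph V → V)}
      (u v : SimpleGraph V → V) (a : SimpleGraph V → Bool) :
      QueryProgram V B W → u ∈ W → v ∈ W → (∀ G, a G = true ↔ G.Adj (u G) (v G)) →
      QueryProgram V (a :: B) W

/-- `f` is computed by a deterministic program with edge queries running in at most `t` steps. -/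
def ComputedInTime {V : Type} [DecidableEq V] (t : ℝ) (f : SimpleGraph V → Bool) : Prop :=
  ∃ (B : List (SimpleGraph V → Bool)) (W : List (SimpleGraph V → V)),
    QueryProgram V B W ∧ ((B.length + W.length : ℕ) : ℝ) ≤ t ∧ f ∈ B

/-- A randomized algorithm with edge queries to a graph on `n` vertices, running in at most `t`
steps: a probability distribution on (the functions computed by) the deterministic programs with at
most `t` steps. -/
structure RandomizedAlgorithm (n : ℕ) (t : ℝ) where
  /-- the probability that the drawn program computes `f` -/
  prob : (SimpleGraph (Fin n) → Bool) → ℝ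
  prob_nonneg : ∀ f, 0 ≤ prob f
  sum_prob : ∑ᶠ f, prob f = 1
  computed : ∀ f, prob f ≠ 0 → ComputedInTime t f

/-- The probability that the algorithm `A` errs on a `ρ`-Bisection-preserving `σ`-perturbation
`symmDiff G T` of `G`, i.e. the probability of `A (symmDiff G T) ≠ ρ-Bisection (symmDiff G T)`
conditioned on `ρ-Bisection (symmDiff G T) = ρ-Bisection G`. -/
noncomputable def errorProb (ρ σ : ℝ) {n : ℕ} {t : ℝ} (A : RandomizedAlgorithm n t)
    (G : SimpleGraph (Fin n)) : ℝ := by
  classical exact
    (∑ T : SimpleGraph (Fin n) with (RhoBisection ρ (symmDiff G T) ↔ RhoBisection ρ G),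
      toggleProb σ T * ∑ f : SimpleGraph (Fin n) → Bool with
        ¬ (f (symmDiff G T) = true ↔ RhoBisection ρ (symmDiff G T)), A.prob f) /
    (∑ T : SimpleGraph (Fin n) with (RhoBisection ρ (symmDiff G T) ↔ RhoBisection ρ G),
      toggleProb σ T)

/-- There is a (possibly non-uniform) randomized algorithm with edge queries, running in time
polynomial in `1 / ε` and `1 / σ`, which errs with probability less than `1/3 + o(1)` on
`ρ`-Bisection-preserving `σ`-perturbations of all graphs, for all `0 < ε < σ (1/4 - 2ρ)`. -/
def HasFastSmoothedTester (ρ : ℝ) : Prop :=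
  ∃ c k : ℕ, ∀ ε σ : ℝ, 0 < σ → σ ≤ 1 / 2 → 0 < ε → ε < σ * (1 / 4 - 2 * ρ) →
    ∃ A : (n : ℕ) → RandomizedAlgorithm n (c * (1 / ε + 1 / σ) ^ k),
      ∀ δ : ℝ, 0 < δ → ∃ n₀ : ℕ, ∀ n : ℕ, n₀ ≤ n → Even n →
        ∀ G : SimpleGraph (Fin n), errorProb ρ σ (A n) G < 1 / 3 + δ

/-! ### Boolean circuits -/

/-- `Circuit ι L`: there is a Boolean circuit (straight-line program) with inputs indexed by `ι`
whose wires carry exactly the functions `L`, most recent first; a wire carries an input,
a constant or the NAND of two earlier wires. Its size is `L.length`. -/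
inductive Circuit (ι : Type) : List ((ι → Bool) → Bool) → Prop
  | nil : Circuit ι []
  | input {L : List ((ι → Bool) → Bool)} (i : ι) :
      Circuit ι L → Circuit ι ((fun x => x i) :: L)
  | const {L : List ((ι → Bool) → Bool)} (b : Bool) :
      Circuit ι L → Circuit ι ((fun _ => b) :: L)
  | nand {L : List ((ι → Bool) → Bool)} (f g : (ι → Bool) → Bool) :
      Circuit ι L → f ∈ L → g ∈ L → Circuit ι ((fun x => !(f x && g x)) :: L)

/-- `f` is computed by a Boolean circuit of size at most `s`. -/
def HasCircuit {ι : Type} (s : ℕ) (f : (ι → Bool) → Bool) : Prop :=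
  ∃ L, Circuit ι L ∧ L.length ≤ s ∧ f ∈ L

/-- `NP ⊆ P/poly`: if `C` is computed by a circuit of size `s` with inputs `x ∈ {0,1}^n` and
`w ∈ {0,1}^m`, then `x ↦ [∃ w, C (x, w) = 1]` is computed by a circuit whose size is polynomial
in `s`. -/
def NPSubsetPPoly : Prop :=
  ∃ c k : ℕ, ∀ (n m s : ℕ) (C : (Fin n ⊕ Fin m → Bool) → Bool) (D : (Fin n → Bool) → Bool),
    HasCircuit s C → (∀ x, D x = true ↔ ∃ w : Fin m → Bool, C (Sum.elim x w) = true) →
      HasCircuit (c * s ^ k + c) D

end Pool.Agent.Helper76_Bisect
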