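import Pool.Agent.Helper76_Bisect.Defs

set_option autoImplicit false

/-!
The gadget graph: two cliques joined by a regular bipartite graph, plus a blow-up of `H`.
-/

namespace Pool.Agent.Helper76_Bisect

open Finset

/-- vertices of the gadget -/
abbrev GV (L N M : ℕ) : Type := (Bool × ZMod L) ⊕ (Fin N × Fin M)

/-- adjacency of the gadget -/
def gAdj {L N M : ℕ} (H : SimpleGraph (Fin N)) (D : ℕ) : GV L N M → GV L N M → Prop
  | Sum.inl (s, i), Sum.inl (t, j) =>
    (s = t ∧ i ≠ j) ∨ (s = false ∧ t = true ∧ (j - i).val < D) ∨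
      (s = true ∧ t = false ∧ (i - j).val < D)
  | Sum.inr (i, a), Sum.inr (j, b) => (i = j ∧ a ≠ b) ∨ H.Adj i j
  | Sum.inl _, Sum.inr _ => False
  | Sum.inr _, Sum.inl _ => False

/-- the gadget graph -/
def gadget (L : ℕ) {N : ℕ} (M : ℕ) (H : SimpleGraph (Fin N)) (D : ℕ) :
    SimpleGraph (GV L N M) where
  Adj := gAdj H D
  symm := ⟨by
    rintro (⟨s, i⟩ | ⟨i, a⟩) (⟨t, j⟩ | ⟨j, b⟩) h
    · rcases h with ⟨rfl, h⟩ | ⟨rfl, rfl, h⟩ | ⟨rfl, rfl, h⟩
      · left; exact ⟨rfl, h.symm⟩
      · right; right; exact ⟨rfl, rfl, h⟩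
      · right; left; exact ⟨rfl, rfl, h⟩
    · exact h
    · exact h
    · rcases h with ⟨rfl, h⟩ | h
      · left; exact ⟨rfl, h.symm⟩
      · right; exact h.symm⟩
  loopless := ⟨by
    rintro (⟨s, i⟩ | ⟨i, a⟩) h
    · rcases h with ⟨_, h⟩ | ⟨h, h', _⟩ | ⟨h, h', _⟩
      · exact h rfl
      · rw [h] at h'; exact Bool.false_ne_true h'
      · rw [h] at h'; exact Bool.false_ne_true h'.symm
    · rcases h with ⟨_, h⟩ | h
      · exact h rfl
      · exact H.loopless.irrefl _ h⟩

section
open Classical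

/-- indicator of a set -/
noncomputable def chi {V : Type} (S : Finset V) (v : V) : ℝ := if v ∈ S then 1 else 0

theorem chi_nonneg {V : Type} (S : Finset V) (v : V) : 0 ≤ chi S v := by
  unfold chi; split_ifs <;> norm_num

theorem chi_le_one {V : Type} (S : Finset V) (v : V) : chi S v ≤ 1 := by
  unfold chi; split_ifs <;> norm_num

theorem chi_mul_one_sub {V : Type} (S : Finset V) (v : V) : chi S v * (1 - chi S v) = 0 := by
  unfold chi; split_ifs <;> norm_num

theorem sum_chi {V : Type} [Fintype V] (S : Finset V) : ∑ v, chi S v = S.card := by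
  unfold chi; simp

theorem cutEdges_real {V : Type} [Fintype V] (G : SimpleGraph V) (S : Finset V) :
    (cutEdges G S : ℝ) = ∑ u, ∑ v, chi S u * (1 - chi S v) * (if G.Adj u v then 1 else 0) := by
  unfold cutEdges
  rw [Finset.card_filter, Nat.cast_sum, Fintype.sum_prod_type]
  refine Finset.sum_congr rfl fun u _ => Finset.sum_congr rfl fun v _ => ?_
  unfold chi
  by_cases hu : u ∈ S <;> by_cases hv : v ∈ S <;> by_cases h : G.Adj u v <;> simp [hu, hv, h]

theorem card_val_lt (L D : ℕ) [NeZero L] (h : D ≤ L) :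
    (univ.filter (fun w : ZMod L => w.val < D)).card = D := by
  cases L with
  | zero => exact absurd rfl (NeZero.ne 0)
  | succ L => exact (Fin.card_filter_val_lt).trans (min_eq_right h)

/-- the circulant bipartite relation -/
noncomputable def R (L D : ℕ) (i j : ZMod L) : ℝ := if (j - i).val < D then 1 else 0

theorem R_nonneg (L D : ℕ) (i j : ZMod L) : 0 ≤ R L D i j := by
  unfold R; split_ifs <;> norm_num

theorem sum_R_left (L D : ℕ) [NeZero L] (h : D ≤ L) (i : ZMod L) : ∑ j, R L D i j = D := by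
  unfold R
  rw [← Equiv.sum_comp (Equiv.addRight i)]
  simp only [Equiv.coe_addRight, add_sub_cancel_right]
  rw [Finset.sum_boole, card_val_lt L D h]

theorem sum_R_right (L D : ℕ) [NeZero L] (h : D ≤ L) (j : ZMod L) : ∑ i, R L D i j = D := by
  unfold R
  rw [← Equiv.sum_comp (Equiv.subLeft j)]
  simp only [Equiv.subLeft_apply, sub_sub_cancel]
  rw [Finset.sum_boole, card_val_lt L D h]

/-- weights of the blow-up -/
noncomputable def W {N : ℕ} (H : SimpleGraph (Fin N)) (i j : Fin N) : ℝ :=
  if i = j ∨ H.Adj i j then 1 else 0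

theorem W_nonneg {N : ℕ} (H : SimpleGraph (Fin N)) (i j : Fin N) : 0 ≤ W H i j := by
  unfold W; split_ifs <;> norm_num

theorem W_le_one {N : ℕ} (H : SimpleGraph (Fin N)) (i j : Fin N) : W H i j ≤ 1 := by
  unfold W; split_ifs <;> norm_num

theorem W_self {N : ℕ} (H : SimpleGraph (Fin N)) (i : Fin N) : W H i i = 1 := by
  simp [W]

theorem W_symm {N : ℕ} (H : SimpleGraph (Fin N)) (i j : Fin N) : W H i j = W H j i := by
  unfold W; simp only [eq_comm (a := i), H.adj_comm i j]

/-- the quadratic form measuring fractional cuts -/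
noncomputable def quad {N : ℕ} (H : SimpleGraph (Fin N)) (x : Fin N → ℝ) : ℝ :=
  ∑ i, ∑ j, W H i j * (x i * (1 - x j))

variable {L N M : ℕ}

/-- the part of the cut inside the two cliques and between them -/
theorem cut_gadget [NeZero L] (H : SimpleGraph (Fin N)) (D : ℕ) (S : Finset (GV L N M)) :
    (cutEdges (gadget L M H D) S : ℝ) =
      (∑ i, chi S (Sum.inl (false, i))) * (∑ i, (1 - chi S (Sum.inl (false, i)))) +
      (∑ i, chi S (Sum.inl (true, i))) * (∑ i, (1 - chi S (Sum.inl (true, i)))) +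
      (∑ i, ∑ j, R L D i j * (chi S (Sum.inl (false, i)) * (1 - chi S (Sum.inl (true, j))) +
        chi S (Sum.inl (true, j)) * (1 - chi S (Sum.inl (false, i))))) +
      ∑ i, ∑ j, W H i j * ((∑ a, chi S (Sum.inr (i, a))) *
        (∑ b, (1 - chi S (Sum.inr (j, b))))) := by
  rw [cutEdges_real]
  simp only [Fintype.sum_sum_type, Fintype.sum_prod_type, Fintype.sum_bool]
  have hff : ∀ i j : ZMod L, (if (gadget L M H D).Adj (Sum.inl (false, i)) (Sum.inl (false, j))
      then (1 : ℝ) else 0) = if i = j then 0 else 1 := by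
    intro i j
    simp [gadget, gAdj]
  have htt : ∀ i j : ZMod L, (if (gadget L M H D).Adj (Sum.inl (true, i)) (Sum.inl (true, j))
      then (1 : ℝ) else 0) = if i = j then 0 else 1 := by
    intro i j
    simp [gadget, gAdj]
  have hft : ∀ i j : ZMod L, (if (gadget L M H D).Adj (Sum.inl (false, i)) (Sum.inl (true, j))
      then (1 : ℝ) else 0) = R L D i j := by
    intro i j
    simp [gadget, gAdj, R]
  have htf : ∀ i j : ZMod L, (if (gadget L M H D).Adj (Sum.inl (true, i)) (Sum.inl (false, j))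
      then (1 : ℝ) else 0) = R L D j i := by
    intro i j
    simp [gadget, gAdj, R]
  have hlr : ∀ (u : Bool × ZMod L) (v : Fin N × Fin M),
      (if (gadget L M H D).Adj (Sum.inl u) (Sum.inr v) then (1 : ℝ) else 0) = 0 := by
    intro u v
    simp [gadget, gAdj]
  have hrl : ∀ (u : Bool × ZMod L) (v : Fin N × Fin M),
      (if (gadget L M H D).Adj (Sum.inr v) (Sum.inl u) then (1 : ℝ) else 0) = 0 := by
    intro u v
    simp [gadget, gAdj]
  have hrr : ∀ (i j : Fin N) (a b : Fin M),
      chi S (Sum.inr (i, a)) * (1 - chi S (Sum.inr (j, b))) *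
      (if (gadget L M H D).Adj (Sum.inr (i, a)) (Sum.inr (j, b)) then (1 : ℝ) else 0) =
      W H i j * (chi S (Sum.inr (i, a)) * (1 - chi S (Sum.inr (j, b)))) := by
    intro i j a b
    by_cases hij : i = j
    · subst hij
      by_cases hab : a = b
      · subst hab
        rw [chi_mul_one_sub]; simp
      · simp [gadget, gAdj, W, hab]
    · simp only [gadget, gAdj, W, hij, false_and, false_or]
      ring
  have hcl : ∀ (b : Bool) (i j : ZMod L),
      chi S (Sum.inl (b, i)) * (1 - chi S (Sum.inl (b, j))) * (if i = j then (0 : ℝ) else 1) =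
      chi S (Sum.inl (b, i)) * (1 - chi S (Sum.inl (b, j))) := by
    intro b i j
    by_cases hij : i = j
    · subst hij; rw [chi_mul_one_sub]; simp
    · simp [hij]
  simp only [hff, htt, hft, htf, hlr, hrl, hrr, hcl, mul_zero, Finset.sum_const_zero, add_zero,
    zero_add]
  have e1 : ∑ i : ZMod L, ∑ j : ZMod L,
      chi S (Sum.inl (true, i)) * (1 - chi S (Sum.inl (false, j))) * R L D j i =
      ∑ i : ZMod L, ∑ j : ZMod L,
      chi S (Sum.inl (true, j)) * (1 - chi S (Sum.inl (false, i))) * R L D i j :=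
    Finset.sum_comm
  simp only [Finset.sum_add_distrib, mul_add]
  rw [e1]
  simp only [Finset.sum_mul_sum]
  have e2 : ∑ i : Fin N, ∑ a : Fin M, ∑ j : Fin N, ∑ b : Fin M,
      W H i j * (chi S (Sum.inr (i, a)) * (1 - chi S (Sum.inr (j, b)))) =
      ∑ i : Fin N, ∑ j : Fin N, W H i j * ∑ a : Fin M, ∑ b : Fin M,
        (chi S (Sum.inr (i, a)) * (1 - chi S (Sum.inr (j, b)))) := by
    refine Finset.sum_congr rfl fun i _ => ?_
    rw [Finset.sum_comm]
    refine Finset.sum_congr rfl fun j _ => ?_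
    simp only [Finset.mul_sum]
  rw [e2]
  have e3 : ∀ i j : ZMod L, R L D i j * (chi S (Sum.inl (false, i)) *
      (1 - chi S (Sum.inl (true, j)))) = chi S (Sum.inl (false, i)) *
      (1 - chi S (Sum.inl (true, j))) * R L D i j := fun i j => by ring
  have e4 : ∀ i j : ZMod L, R L D i j * (chi S (Sum.inl (true, j)) *
      (1 - chi S (Sum.inl (false, i)))) = chi S (Sum.inl (true, j)) *
      (1 - chi S (Sum.inl (false, i))) * R L D i j := fun i j => by ring
  simp only [e3, e4]
  ring

end

end Pool.Agent.Helper76_Bisect
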