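import Pool.Agent.Helper76_Bisect.Round

set_option autoImplicit false

/-!
The minimum bisection of the gadget graph.
-/

namespace Pool.Agent.Helper76_Bisect

open Finset

section
open Classical

variable {L N M : ℕ}

theorem numeric_bound {a c l d P : ℝ} (ha : 0 ≤ a) (hc : 0 ≤ c) (hac : a + c ≤ l)
    (habs : |a - c| ≤ P / 2) (hP : 5 / 4 * P ≤ l / 2 - d) :
    P * |a - c| ≤ a * (l - a - d) + c * (l - c - d) := by
  have hP0 : 0 ≤ P := by have := abs_nonneg (a - c); linarith
  obtain ⟨h1, h2⟩ := abs_le.mp habs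
  have h3 : P ≤ l - a - d := by linarith
  have h4 : P ≤ l - c - d := by linarith
  have h5 : |a - c| ≤ a + c := by
    rw [abs_le]; constructor <;> linarith
  calc P * |a - c| ≤ P * (a + c) := mul_le_mul_of_nonneg_left h5 hP0
    _ = a * P + c * P := by ring
    _ ≤ _ := add_le_add (mul_le_mul_of_nonneg_left h3 ha) (mul_le_mul_of_nonneg_left h4 hc)

theorem bip_ge [NeZero L] (D : ℕ) (hD : D ≤ L) (f g : ZMod L → ℝ)
    (hf : ∀ i, 0 ≤ f i ∧ f i ≤ 1) (hg : ∀ i, 0 ≤ g i ∧ g i ≤ 1) :
    (D : ℝ) * |∑ i, f i - ∑ i, g i| ≤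
      ∑ i, ∑ j, R L D i j * (f i * (1 - g j) + g j * (1 - f i)) := by
  have h1 : (D : ℝ) * (∑ i, f i - ∑ i, g i) = ∑ i, ∑ j, R L D i j * (f i - g j) := by
    simp only [mul_sub, Finset.sum_sub_distrib]
    congr 1
    · rw [Finset.mul_sum]
      refine Finset.sum_congr rfl fun i _ => ?_
      rw [← Finset.sum_mul, sum_R_left L D hD]
    · rw [Finset.sum_comm, Finset.mul_sum]
      refine Finset.sum_congr rfl fun i _ => ?_
      rw [← Finset.sum_mul, sum_R_right L D hD]
  have h2 : (D : ℝ) * (∑ i, f i - ∑ i, g i) ≤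
      ∑ i, ∑ j, R L D i j * (f i * (1 - g j) + g j * (1 - f i)) := by
    rw [h1]
    refine Finset.sum_le_sum fun i _ => Finset.sum_le_sum fun j _ => ?_
    refine mul_le_mul_of_nonneg_left ?_ (R_nonneg L D i j)
    nlinarith [mul_nonneg (hg j).1 (sub_nonneg.mpr (hf i).2)]
  have h3 : - ((D : ℝ) * (∑ i, f i - ∑ i, g i)) ≤
      ∑ i, ∑ j, R L D i j * (f i * (1 - g j) + g j * (1 - f i)) := by
    rw [h1, ← Finset.sum_neg_distrib]
    refine Finset.sum_le_sum fun i _ => ?_
    rw [← Finset.sum_neg_distrib]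
    refine Finset.sum_le_sum fun j _ => ?_
    rw [← mul_neg]
    refine mul_le_mul_of_nonneg_left ?_ (R_nonneg L D i j)
    nlinarith [mul_nonneg (hf i).1 (sub_nonneg.mpr (hg j).2)]
  rcases abs_cases (∑ i, f i - ∑ i, g i) with ⟨h, _⟩ | ⟨h, _⟩
  · rw [h]; exact h2
  · rw [h, mul_neg]; exact h3

theorem gadget_lower [NeZero L] (H : SimpleGraph (Fin N)) (D : ℕ) (hD : D ≤ L) (h : ℕ)
    (hN : 2 * h = N) (hh : 0 < h) (hM : 0 < M) (K : ℝ)
    (hK : ∀ A : Finset (Fin N), A.card = h → K ≤ (cutEdges H A : ℝ))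
    (hLD : 5 / 4 * ((N : ℝ) * M) ≤ (L : ℝ) / 2 - D) (S : Finset (GV L N M))
    (hS : S.card = L + h * M) :
    (D : ℝ) * L + (M : ℝ) ^ 2 * K ≤ cutEdges (gadget L M H D) S := by
  rw [cut_gadget]
  have hM' : (0 : ℝ) < M := by exact_mod_cast hM
  have hNh : (N : ℝ) = 2 * h := by exact_mod_cast hN.symm
  set y1 : ℝ := ∑ i, chi S (Sum.inl (false, i)) with hy1
  set y2 : ℝ := ∑ i, chi S (Sum.inl (true, i)) with hy2
  set b : Fin N → ℝ := fun i => ∑ a, chi S (Sum.inr (i, a)) with hb
  have hc1 : ∑ i, (1 - chi S (Sum.inl (false, i))) = L - y1 := by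
    rw [Finset.sum_sub_distrib, hy1]; simp [ZMod.card]
  have hc2 : ∑ i, (1 - chi S (Sum.inl (true, i))) = L - y2 := by
    rw [Finset.sum_sub_distrib, hy2]; simp [ZMod.card]
  have hc3 : ∀ j, ∑ a, (1 - chi S (Sum.inr (j, a))) = M - b j := by
    intro j
    rw [Finset.sum_sub_distrib, hb]; simp
  have hy10 : 0 ≤ y1 := Finset.sum_nonneg fun i _ => chi_nonneg S _
  have hy20 : 0 ≤ y2 := Finset.sum_nonneg fun i _ => chi_nonneg S _
  have hy1L : y1 ≤ L := by
    have : 0 ≤ ∑ i, (1 - chi S (Sum.inl (false, i))) :=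
      Finset.sum_nonneg fun i _ => sub_nonneg.mpr (chi_le_one S _)
    rw [hc1] at this; linarith
  have hy2L : y2 ≤ L := by
    have : 0 ≤ ∑ i, (1 - chi S (Sum.inl (true, i))) :=
      Finset.sum_nonneg fun i _ => sub_nonneg.mpr (chi_le_one S _)
    rw [hc2] at this; linarith
  have hb0 : ∀ j, 0 ≤ b j := fun j => Finset.sum_nonneg fun i _ => chi_nonneg S _
  have hbM : ∀ j, b j ≤ M := by
    intro j
    have : 0 ≤ ∑ a, (1 - chi S (Sum.inr (j, a))) :=
      Finset.sum_nonneg fun i _ => sub_nonneg.mpr (chi_le_one S _)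
    rw [hc3] at this; linarith
  have htot : y1 + y2 + ∑ j, b j = L + h * M := by
    have h1 := sum_chi S
    rw [Fintype.sum_sum_type, Fintype.sum_prod_type, Fintype.sum_prod_type, Fintype.sum_bool,
      hS] at h1
    push_cast at h1
    rw [← h1]; ring
  rw [hc1, hc2]
  simp only [hc3]
  have hbip := bip_ge D hD (fun i => chi S (Sum.inl (false, i))) (fun i => chi S (Sum.inl (true, i)))
    (fun i => ⟨chi_nonneg S _, chi_le_one S _⟩) (fun i => ⟨chi_nonneg S _, chi_le_one S _⟩)
  have hq := quad_ge_abs H h hN hh K hK (fun j => b j / M)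
    (fun j => ⟨div_nonneg (hb0 j) hM'.le, (div_le_one hM').mpr (hbM j)⟩)
  have hq2 : ∑ i, ∑ j, W H i j * (b i * (M - b j)) = (M : ℝ) ^ 2 * quad H (fun j => b j / M) := by
    unfold quad
    rw [Finset.mul_sum]
    refine Finset.sum_congr rfl fun i _ => ?_
    rw [Finset.mul_sum]
    refine Finset.sum_congr rfl fun j _ => ?_
    field_simp
  have hq3 : (M : ℝ) ^ 2 * K - (N : ℝ) * M * |∑ j, b j - h * M| ≤
      ∑ i, ∑ j, W H i j * (b i * (M - b j)) := by
    rw [hq2]
    have h1 : ∑ j, b j / M - h = (∑ j, b j - h * M) / M := by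
      rw [← Finset.sum_div]; field_simp
    rw [h1, abs_div, abs_of_pos hM'] at hq
    have h2 : (M : ℝ) ^ 2 * (K - N * (|∑ j, b j - h * M| / M)) =
        (M : ℝ) ^ 2 * K - (N : ℝ) * M * |∑ j, b j - h * M| := by
      field_simp
    rw [← h2]
    exact mul_le_mul_of_nonneg_left hq (by positivity)
  have hBB : ∑ j, b j ≤ N * M := by
    calc ∑ j, b j ≤ ∑ _j : Fin N, (M : ℝ) := Finset.sum_le_sum fun j _ => hbM j
      _ = N * M := by simp
  have hB0 : 0 ≤ ∑ j, b j := Finset.sum_nonneg fun j _ => hb0 j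
  have hBm : |∑ j, b j - h * M| ≤ (N * M : ℝ) / 2 := by
    rw [abs_le, hNh]
    rw [hNh] at hBB
    constructor <;> linarith
  have hBy : ∑ j, b j - h * M = L - y1 - y2 := by linarith
  rw [hBy] at hq3 hBm
  change (D : ℝ) * |y1 - y2| ≤ _ at hbip
  have hfinal : (D : ℝ) * L + (N : ℝ) * M * |L - y1 - y2| ≤
      y1 * (L - y1) + y2 * (L - y2) + D * |y1 - y2| := by
    rcases le_total y2 y1 with hle | hle
    · have := numeric_bound (a := L - y1) (c := y2) (l := L) (d := D) (P := N * M)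
        (by linarith) hy20 (by linarith) hBm hLD
      rw [abs_of_nonneg (by linarith : 0 ≤ y1 - y2)]
      linarith
    · have h1 : |(L : ℝ) - y2 - y1| ≤ (N : ℝ) * M / 2 := by
        rwa [show (L : ℝ) - y2 - y1 = L - y1 - y2 by ring]
      have := numeric_bound (a := L - y2) (c := y1) (l := L) (d := D) (P := N * M)
        (by linarith) hy10 (by linarith) h1 hLD
      rw [show (L : ℝ) - y2 - y1 = L - y1 - y2 by ring] at this
      rw [abs_of_nonpos (by linarith : y1 - y2 ≤ 0)]
      linarith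
  have hDL : (0 : ℝ) ≤ 1 := zero_le_one
  linarith

theorem gadget_upper [NeZero L] (H : SimpleGraph (Fin N)) (D : ℕ) (hD : D ≤ L) (h : ℕ)
    (A : Finset (Fin N)) (hA : A.card = h) :
    ∃ S : Finset (GV L N M), S.card = L + h * M ∧
      (cutEdges (gadget L M H D) S : ℝ) = (D : ℝ) * L + (M : ℝ) ^ 2 * cutEdges H A := by
  let S : Finset (GV L N M) := univ.filter (fun v => Sum.elim (fun p => p.1 = false)
    (fun p => p.1 ∈ A) v)
  have hS1 : ∀ i, chi S (Sum.inl (false, i)) = 1 := by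
    intro i; simp [chi, S]
  have hS2 : ∀ i, chi S (Sum.inl (true, i)) = 0 := by
    intro i; simp [chi, S]
  have hS3 : ∀ i a, chi S (Sum.inr (i, a)) = chi A i := by
    intro i a; simp [chi, S]
  refine ⟨S, ?_, ?_⟩
  · have h1 := sum_chi S
    rw [Fintype.sum_sum_type, Fintype.sum_prod_type, Fintype.sum_prod_type,
      Fintype.sum_bool] at h1
    simp only [hS1, hS2, hS3] at h1
    simp only [Finset.sum_const_zero, Finset.sum_const, card_univ, ZMod.card, nsmul_eq_mul,
      mul_one, zero_add, Fintype.card_fin] at h1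
    rw [← Finset.mul_sum, sum_chi, hA] at h1
    have : (S.card : ℝ) = ((L + h * M : ℕ) : ℝ) := by
      rw [← h1]; push_cast; ring
    exact_mod_cast this
  · rw [cut_gadget]
    simp only [hS1, hS2, hS3]
    simp only [sub_self, sub_zero, mul_one, mul_zero, Finset.sum_const_zero, zero_mul, zero_add,
      add_zero, Finset.sum_const, card_univ, ZMod.card, nsmul_eq_mul, Fintype.card_fin]
    simp only [sum_R_left L D hD]
    rw [Finset.sum_const, card_univ, ZMod.card, nsmul_eq_mul, cutEdges_real, Finset.mul_sum]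
    congr 1
    · ring
    · refine Finset.sum_congr rfl fun i _ => ?_
      rw [Finset.mul_sum]
      refine Finset.sum_congr rfl fun j _ => ?_
      by_cases hij : i = j
      · subst hij
        have := chi_mul_one_sub A i
        have h2 : (M : ℝ) * chi A i * (M * (1 - chi A i)) = 0 := by
          calc (M : ℝ) * chi A i * (M * (1 - chi A i)) = M * M * (chi A i * (1 - chi A i)) := by
                ring
            _ = 0 := by rw [this, mul_zero]
        rw [h2, this]; ring
      · simp only [W, hij, false_or]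
        ring

end

end Pool.Agent.Helper76_Bisect
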