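import Pool.Agent.Helper76_Bisect.SLP

set_option autoImplicit false

/-!
From circuits to systems of local constraints.
-/

namespace Pool.Agent.Helper76_Bisect

/-- local constraints: a variable equals an input bit, a constant, or the NAND of two variables -/
inductive Gate (V : Type) (n : ℕ) : Type
  | xin (v : V) (i : Fin n) : Gate V n
  | con (v : V) (b : Bool) : Gate V n
  | nand (z a b : V) : Gate V n

/-- satisfaction of a constraint -/
def Gate.holds {V : Type} {n : ℕ} (x : Fin n → Bool) (α : V → Bool) : Gate V n → Prop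
  | .xin v i => α v = x i
  | .con v b => α v = b
  | .nand z a b => α z = !(α a && α b)

/-- renaming of variables -/
def Gate.rename {V V' : Type} {n : ℕ} (φ : V → V') : Gate V n → Gate V' n
  | .xin v i => .xin (φ v) i
  | .con v b => .con (φ v) b
  | .nand z a b => .nand (φ z) (φ a) (φ b)

/-- all variables of the constraint satisfy `P` -/
def Gate.all {V : Type} {n : ℕ} (P : V → Prop) : Gate V n → Prop
  | .xin v _ => P v
  | .con v _ => P v
  | .nand z a b => P z ∧ P a ∧ P b

theorem Gate.holds_rename {V V' : Type} {n : ℕ} (φ : V → V') (x : Fin n → Bool) (α : V' → Bool)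
    (g : Gate V n) : (g.rename φ).holds x α ↔ g.holds x (fun v => α (φ v)) := by
  cases g <;> exact Iff.rfl

theorem Gate.holds_congr {V : Type} {n : ℕ} (x : Fin n → Bool) (α β : V → Bool)
    (g : Gate V n) (h : g.all (fun v => α v = β v)) : g.holds x α ↔ g.holds x β := by
  cases g with
  | xin v i => simp only [Gate.holds]; rw [show α v = β v from h]
  | con v b => simp only [Gate.holds]; rw [show α v = β v from h]
  | nand z a b =>
    obtain ⟨h1, h2, h3⟩ := h
    simp only [Gate.holds]; rw [h1, h2, h3]

theorem Gate.all_mono {V : Type} {n : ℕ} {P Q : V → Prop} (hPQ : ∀ v, P v → Q v)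
    (g : Gate V n) (h : g.all P) : g.all Q := by
  cases g with
  | xin v i => exact hPQ _ h
  | con v b => exact hPQ _ h
  | nand z a b => exact ⟨hPQ _ h.1, hPQ _ h.2.1, hPQ _ h.2.2⟩

theorem Circuit.extract {n m : ℕ} {L : List ((Fin n ⊕ Fin m → Bool) → Bool)}
    (h : Circuit (Fin n ⊕ Fin m) L) :
    ∃ gs : List (Gate ((Fin n ⊕ Fin m → Bool) → Bool) n), gs.length ≤ L.length ∧
      (∀ g ∈ gs, g.all (fun f => f ∈ L)) ∧
      (∀ (x : Fin n → Bool) (w : Fin m → Bool), ∀ g ∈ gs, g.holds x (fun f => f (Sum.elim x w))) ∧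
      (∀ (x : Fin n → Bool) (α : ((Fin n ⊕ Fin m → Bool) → Bool) → Bool),
        (∀ g ∈ gs, g.holds x α) →
          ∀ f ∈ L, α f = f (Sum.elim x (fun j => α (fun y => y (Sum.inr j))))) := by
  induction h with
  | nil => exact ⟨[], by simp, by simp, by simp, by simp⟩
  | @input L i _ ih =>
    obtain ⟨gs, h1, h2, h3, h4⟩ := ih
    rcases i with i | j
    · refine ⟨Gate.xin (fun y => y (Sum.inl i)) i :: gs, by simpa using h1, ?_, ?_, ?_⟩
      · intro g hg
        rcases List.mem_cons.mp hg with rfl | hg
        · exact List.mem_cons_self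
        · exact Gate.all_mono (fun f hf => List.mem_cons_of_mem _ hf) g (h2 g hg)
      · intro x w g hg
        rcases List.mem_cons.mp hg with rfl | hg
        · rfl
        · exact h3 x w g hg
      · intro x α hα f hf
        rcases List.mem_cons.mp hf with rfl | hf
        · exact hα _ List.mem_cons_self
        · exact h4 x α (fun g hg => hα g (List.mem_cons_of_mem _ hg)) f hf
    · refine ⟨gs, h1.trans (by simp), ?_, h3, ?_⟩
      · intro g hg
        exact Gate.all_mono (fun f hf => List.mem_cons_of_mem _ hf) g (h2 g hg)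
      · intro x α hα f hf
        rcases List.mem_cons.mp hf with rfl | hf
        · rfl
        · exact h4 x α hα f hf
  | @const L b _ ih =>
    obtain ⟨gs, h1, h2, h3, h4⟩ := ih
    refine ⟨Gate.con (fun _ => b) b :: gs, by simpa using h1, ?_, ?_, ?_⟩
    · intro g hg
      rcases List.mem_cons.mp hg with rfl | hg
      · exact List.mem_cons_self
      · exact Gate.all_mono (fun f hf => List.mem_cons_of_mem _ hf) g (h2 g hg)
    · intro x w g hg
      rcases List.mem_cons.mp hg with rfl | hg
      · rfl
      · exact h3 x w g hg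
    · intro x α hα f hf
      rcases List.mem_cons.mp hf with rfl | hf
      · exact hα _ List.mem_cons_self
      · exact h4 x α (fun g hg => hα g (List.mem_cons_of_mem _ hg)) f hf
  | @nand L f₁ f₂ _ hf₁ hf₂ ih =>
    obtain ⟨gs, h1, h2, h3, h4⟩ := ih
    refine ⟨Gate.nand (fun y => !(f₁ y && f₂ y)) f₁ f₂ :: gs, by simpa using h1, ?_, ?_, ?_⟩
    · intro g hg
      rcases List.mem_cons.mp hg with rfl | hg
      · exact ⟨List.mem_cons_self, List.mem_cons_of_mem _ hf₁, List.mem_cons_of_mem _ hf₂⟩
      · exact Gate.all_mono (fun f hf => List.mem_cons_of_mem _ hf) g (h2 g hg)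
    · intro x w g hg
      rcases List.mem_cons.mp hg with rfl | hg
      · rfl
      · exact h3 x w g hg
    · intro x α hα f hf
      have h5 := h4 x α (fun g hg => hα g (List.mem_cons_of_mem _ hg))
      rcases List.mem_cons.mp hf with rfl | hf
      · have h6 := hα _ List.mem_cons_self
        simp only [Gate.holds] at h6
        dsimp only
        rw [h6, ← h5 f₁ hf₁, ← h5 f₂ hf₂]
      · exact h5 f hf

/-- Circuit satisfiability as satisfiability of a short list of local constraints. -/
theorem HasCircuit.gates {n m s : ℕ} {C : (Fin n ⊕ Fin m → Bool) → Bool} (h : HasCircuit s C) :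
    ∃ (k l : ℕ) (gs : Fin l → Gate (Fin k) n), k ≤ s ∧ l ≤ s + 1 ∧ 1 ≤ s ∧
      ∀ x : Fin n → Bool, (∃ w : Fin m → Bool, C (Sum.elim x w) = true) ↔
        ∃ α : Fin k → Bool, ∀ g, (gs g).holds x α := by
  classical
  obtain ⟨L, hL, hs, hC⟩ := h
  obtain ⟨gs, h1, h2, h3, h4⟩ := hL.extract
  have hCF : C ∈ L.toFinset := List.mem_toFinset.mpr hC
  let e : {f // f ∈ L.toFinset} ≃ Fin L.toFinset.card := L.toFinset.equivFin
  let φ : ((Fin n ⊕ Fin m → Bool) → Bool) → Fin L.toFinset.card :=
    fun f => if hf : f ∈ L.toFinset then e ⟨f, hf⟩ else e ⟨C, hCF⟩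
  let ψ : Fin L.toFinset.card → ((Fin n ⊕ Fin m → Bool) → Bool) := fun i => (e.symm i).1
  have hψφ : ∀ f ∈ L, ψ (φ f) = f := by
    intro f hf
    have hf' : f ∈ L.toFinset := List.mem_toFinset.mpr hf
    simp only [ψ, φ, dif_pos hf', Equiv.symm_apply_apply]
  let gs' : List (Gate (Fin L.toFinset.card) n) :=
    Gate.con (φ C) true :: gs.map (Gate.rename φ)
  have hsat : ∀ x : Fin n → Bool, (∃ w : Fin m → Bool, C (Sum.elim x w) = true) ↔
        ∃ α : Fin L.toFinset.card → Bool, ∀ g ∈ gs', g.holds x α := by
    intro x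
    constructor
    · rintro ⟨w, hw⟩
      refine ⟨fun i => ψ i (Sum.elim x w), ?_⟩
      intro g hg
      rcases List.mem_cons.mp hg with rfl | hg
      · change ψ (φ C) (Sum.elim x w) = true
        rw [hψφ C hC]; exact hw
      · obtain ⟨g', hg', rfl⟩ := List.mem_map.mp hg
        rw [Gate.holds_rename]
        rw [Gate.holds_congr x _ (fun f => f (Sum.elim x w)) g']
        · exact h3 x w g' hg'
        · exact Gate.all_mono (fun f hf => by rw [hψφ f hf]) g' (h2 g' hg')
    · rintro ⟨α, hα⟩
      refine ⟨fun j => α (φ (fun y => y (Sum.inr j))), ?_⟩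
      have h5 := h4 x (fun f => α (φ f)) (fun g hg => by
        rw [← Gate.holds_rename φ x α g]
        exact hα _ (List.mem_cons_of_mem _ (List.mem_map_of_mem hg))) C hC
      rw [← h5]
      exact hα _ List.mem_cons_self
  refine ⟨L.toFinset.card, gs'.length, gs'.get, ?_, ?_, ?_, ?_⟩
  · exact (L.toFinset_card_le).trans hs
  · simp only [gs', List.length_cons, List.length_map]; omega
  · have : 0 < L.length := List.length_pos_of_mem hC
    omega
  · intro x
    rw [hsat x]
    refine exists_congr fun α => ?_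
    constructor
    · intro h g; exact h _ (List.get_mem _ _)
    · intro h g hg
      obtain ⟨i, hi⟩ := List.mem_iff_get.mp hg
      rw [← hi]; exact h i

end Pool.Agent.Helper76_Bisect
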