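import Pool.Agent.Helper76_Bisect.Hoeff
import Pool.Agent.Helper76_Bisect.Gadget

set_option autoImplicit false

/-!
Near-optimal partitions guided by small random samples.
-/

namespace Pool.Agent.Helper76_Bisect

open Finset

section
open Classical

set_option linter.unusedSectionVars false

variable {V : Type} [Fintype V]

/-- real value of a bit -/
def rb (b : Bool) : ℝ := if b = true then 1 else 0

theorem rb_nonneg (b : Bool) : 0 ≤ rb b := by unfold rb; split_ifs <;> norm_num

theorem rb_le_one (b : Bool) : rb b ≤ 1 := by unfold rb; split_ifs <;> norm_num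

/-- adjacency as a real number -/
noncomputable def ad (G : SimpleGraph V) (u v : V) : ℝ := if G.Adj u v then 1 else 0

theorem ad_nonneg (G : SimpleGraph V) (u v : V) : 0 ≤ ad G u v := by
  unfold ad; split_ifs <;> norm_num

theorem ad_le_one (G : SimpleGraph V) (u v : V) : ad G u v ≤ 1 := by
  unfold ad; split_ifs <;> norm_num

theorem ad_symm (G : SimpleGraph V) (u v : V) : ad G u v = ad G v u := by
  unfold ad; rw [G.adj_comm]

/-- the penalised objective -/
noncomputable def obj (G : SimpleGraph V) (Λ : ℝ) (y : V → Bool) : ℝ :=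
  (∑ u, ∑ v, ad G u v * (rb (y u) * (1 - rb (y v)))) / (Fintype.card V : ℝ) ^ 2 +
    Λ * ((∑ u, rb (y u)) / (Fintype.card V : ℝ) - 1 / 2) ^ 2

/-- its gradient -/
noncomputable def grad (G : SimpleGraph V) (Λ : ℝ) (y : V → Bool) (v : V) : ℝ :=
  (∑ u, ad G u v * (1 - 2 * rb (y u))) / (Fintype.card V : ℝ) +
    2 * Λ * ((∑ u, rb (y u)) / (Fintype.card V : ℝ) - 1 / 2)

/-- the estimated gradient -/
noncomputable def bhat (G : SimpleGraph V) (Λ : ℝ) {t : ℕ} (U : Fin t → V) (π : Fin t → Bool)
    (v : V) : ℝ :=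
  (∑ s, ad G (U s) v * (1 - 2 * rb (π s))) / (t : ℝ) +
    2 * Λ * ((∑ s, rb (π s)) / (t : ℝ) - 1 / 2)

theorem obj_change [Nonempty V] (G : SimpleGraph V) (Λ : ℝ) (y y' : V → Bool) :
    obj G Λ y' - obj G Λ y =
      (∑ v, (rb (y' v) - rb (y v)) * grad G Λ y v) / (Fintype.card V : ℝ) +
      (Λ * ((∑ v, (rb (y' v) - rb (y v))) / (Fintype.card V : ℝ)) ^ 2 -
        (∑ u, ∑ v, ad G u v * ((rb (y' u) - rb (y u)) * (rb (y' v) - rb (y v)))) /
          (Fintype.card V : ℝ) ^ 2) := by
  have hN : (Fintype.card V : ℝ) ≠ 0 := by exact_mod_cast Fintype.card_ne_zero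
  set N : ℝ := (Fintype.card V : ℝ) with hNdef
  set d : V → ℝ := fun v => rb (y' v) - rb (y v) with hd
  have hy' : ∀ v, rb (y' v) = rb (y v) + d v := fun v => by rw [hd]; ring
  have e1 : ∑ u, ∑ v, ad G u v * (rb (y' u) * (1 - rb (y' v))) =
      ∑ u, ∑ v, ad G u v * (rb (y u) * (1 - rb (y v))) +
      ∑ v, d v * ∑ u, ad G u v * (1 - 2 * rb (y u)) -
      ∑ u, ∑ v, ad G u v * (d u * d v) := by
    have e2 : ∑ v, d v * ∑ u, ad G u v * (1 - 2 * rb (y u)) =
        ∑ u, ∑ v, ad G u v * (d u * (1 - rb (y v)) - rb (y u) * d v) := by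
      have e3 : ∑ u, ∑ v, ad G u v * (d u * (1 - rb (y v)) - rb (y u) * d v) =
          ∑ u, ∑ v, ad G u v * (d u * (1 - rb (y v))) -
          ∑ u, ∑ v, ad G u v * (rb (y u) * d v) := by
        rw [← Finset.sum_sub_distrib]
        refine Finset.sum_congr rfl fun u _ => ?_
        rw [← Finset.sum_sub_distrib]
        refine Finset.sum_congr rfl fun v _ => ?_
        ring
      rw [e3, Finset.sum_comm (f := fun u v => ad G u v * (rb (y u) * d v)),
        ← Finset.sum_sub_distrib]
      refine Finset.sum_congr rfl fun v _ => ?_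
      rw [Finset.mul_sum, ← Finset.sum_sub_distrib]
      refine Finset.sum_congr rfl fun u _ => ?_
      rw [ad_symm G v u]; ring
    rw [e2, ← Finset.sum_add_distrib, ← Finset.sum_sub_distrib]
    refine Finset.sum_congr rfl fun u _ => ?_
    rw [← Finset.sum_add_distrib, ← Finset.sum_sub_distrib]
    refine Finset.sum_congr rfl fun v _ => ?_
    rw [hy' u, hy' v]; ring
  have e4 : ∑ u, rb (y' u) = ∑ u, rb (y u) + ∑ u, d u := by
    rw [← Finset.sum_add_distrib]
    exact Finset.sum_congr rfl fun u _ => hy' u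
  have e5 : ∑ v, d v * grad G Λ y v =
      (∑ v, d v * ∑ u, ad G u v * (1 - 2 * rb (y u))) / N +
        (∑ v, d v) * (2 * Λ * ((∑ u, rb (y u)) / N - 1 / 2)) := by
    rw [Finset.sum_div, Finset.sum_mul, ← Finset.sum_add_distrib]
    refine Finset.sum_congr rfl fun v _ => ?_
    unfold grad
    rw [← hNdef]; ring
  rw [e5]
  unfold obj
  rw [← hNdef, e1, e4]
  field_simp
  ring

/-- updating a block -/
theorem obj_block [Nonempty V] (G : SimpleGraph V) {Λ : ℝ} (hΛ : 0 ≤ Λ) (y : V → Bool)
    (B : Finset V) (g : V → ℝ) :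
    obj G Λ (fun v => if v ∈ B then decide (g v < 0) else y v) ≤
      obj G Λ y + (∑ v ∈ B, |grad G Λ y v - g v|) / (Fintype.card V : ℝ) +
        (Λ + 1) * ((B.card : ℝ) / (Fintype.card V : ℝ)) ^ 2 := by
  have hN : (0 : ℝ) < Fintype.card V := by exact_mod_cast Fintype.card_pos
  have h := obj_change G Λ y (fun v => if v ∈ B then decide (g v < 0) else y v)
  set N : ℝ := (Fintype.card V : ℝ) with hNdef
  set y' : V → Bool := fun v => if v ∈ B then decide (g v < 0) else y v with hy'
  have hd0 : ∀ v, v ∉ B → rb (y' v) - rb (y v) = 0 := by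
    intro v hv; rw [hy']; simp [hv]
  have hd1 : ∀ v, |rb (y' v) - rb (y v)| ≤ 1 := by
    intro v
    rw [abs_le]
    constructor <;> linarith [rb_nonneg (y' v), rb_le_one (y' v), rb_nonneg (y v),
      rb_le_one (y v)]
  have h1 : ∑ v, (rb (y' v) - rb (y v)) * grad G Λ y v ≤ ∑ v ∈ B, |grad G Λ y v - g v| := by
    have e1 : ∑ v, (rb (y' v) - rb (y v)) * grad G Λ y v =
        ∑ v ∈ B, (rb (y' v) - rb (y v)) * grad G Λ y v := by
      refine (Finset.sum_subset (Finset.subset_univ B) fun v _ hv => ?_).symm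
      rw [hd0 v hv, zero_mul]
    rw [e1]
    refine Finset.sum_le_sum fun v hv => ?_
    have h2 : (rb (y' v) - rb (y v)) * g v ≤ 0 := by
      have : y' v = decide (g v < 0) := by rw [hy']; simp [hv]
      rw [this]
      by_cases hg : g v < 0
      · have a1 : rb (decide (g v < 0)) = 1 := by simp [rb, hg]
        rw [a1]
        have := rb_le_one (y v)
        nlinarith
      · have a1 : rb (decide (g v < 0)) = 0 := by simp [rb, hg]
        rw [a1]
        have := rb_nonneg (y v)
        push Not at hg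
        nlinarith
    calc (rb (y' v) - rb (y v)) * grad G Λ y v
        = (rb (y' v) - rb (y v)) * g v + (rb (y' v) - rb (y v)) * (grad G Λ y v - g v) := by ring
      _ ≤ 0 + |(rb (y' v) - rb (y v)) * (grad G Λ y v - g v)| := add_le_add h2 (le_abs_self _)
      _ = |rb (y' v) - rb (y v)| * |grad G Λ y v - g v| := by rw [zero_add, abs_mul]
      _ ≤ 1 * |grad G Λ y v - g v| := mul_le_mul_of_nonneg_right (hd1 v) (abs_nonneg _)
      _ = _ := one_mul _
  have hsum : ∑ v, |rb (y' v) - rb (y v)| ≤ B.card := by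
    calc ∑ v, |rb (y' v) - rb (y v)| = ∑ v ∈ B, |rb (y' v) - rb (y v)| := by
          refine (Finset.sum_subset (Finset.subset_univ B) fun v _ hv => ?_).symm
          rw [hd0 v hv, abs_zero]
      _ ≤ ∑ _v ∈ B, (1 : ℝ) := Finset.sum_le_sum fun v _ => hd1 v
      _ = _ := by simp
  have hB0 : (0 : ℝ) ≤ B.card := Nat.cast_nonneg _
  have h3 : ((∑ v, (rb (y' v) - rb (y v))) / N) ^ 2 ≤ ((B.card : ℝ) / N) ^ 2 := by
    have h4 : |∑ v, (rb (y' v) - rb (y v))| ≤ B.card :=
      (Finset.abs_sum_le_sum_abs _ _).trans hsum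
    rw [← sq_abs, abs_div, abs_of_pos hN]
    gcongr
  have h5 : -(∑ u, ∑ v, ad G u v * ((rb (y' u) - rb (y u)) * (rb (y' v) - rb (y v)))) ≤
      (B.card : ℝ) ^ 2 := by
    have h6 : ∑ u, ∑ v, |ad G u v * ((rb (y' u) - rb (y u)) * (rb (y' v) - rb (y v)))| ≤
        (B.card : ℝ) ^ 2 := by
      calc ∑ u, ∑ v, |ad G u v * ((rb (y' u) - rb (y u)) * (rb (y' v) - rb (y v)))|
          ≤ ∑ u, ∑ v, |rb (y' u) - rb (y u)| * |rb (y' v) - rb (y v)| := by
            refine Finset.sum_le_sum fun u _ => Finset.sum_le_sum fun v _ => ?_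
            rw [abs_mul, abs_mul, abs_of_nonneg (ad_nonneg G u v)]
            exact mul_le_of_le_one_left (by positivity) (ad_le_one G u v)
        _ = (∑ u, |rb (y' u) - rb (y u)|) * ∑ v, |rb (y' v) - rb (y v)| := by
            rw [Finset.sum_mul_sum]
        _ ≤ (B.card : ℝ) * B.card :=
            mul_le_mul hsum hsum (Finset.sum_nonneg fun _ _ => abs_nonneg _) hB0
        _ = _ := by ring
    have h7 : -(∑ u, ∑ v, ad G u v * ((rb (y' u) - rb (y u)) * (rb (y' v) - rb (y v)))) ≤
        ∑ u, ∑ v, |ad G u v * ((rb (y' u) - rb (y u)) * (rb (y' v) - rb (y v)))| := by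
      rw [← Finset.sum_neg_distrib]
      refine Finset.sum_le_sum fun u _ => ?_
      rw [← Finset.sum_neg_distrib]
      exact Finset.sum_le_sum fun v _ => neg_le_abs _
    exact h7.trans h6
  have h8 : -((∑ u, ∑ v, ad G u v * ((rb (y' u) - rb (y u)) * (rb (y' v) - rb (y v)))) / N ^ 2) ≤
      ((B.card : ℝ) / N) ^ 2 := by
    rw [← neg_div, div_pow]
    gcongr
  have h9 : (∑ v, (rb (y' v) - rb (y v)) * grad G Λ y v) / N ≤
      (∑ v ∈ B, |grad G Λ y v - g v|) / N := by gcongr
  have h10 : Λ * ((∑ v, (rb (y' v) - rb (y v))) / N) ^ 2 ≤ Λ * ((B.card : ℝ) / N) ^ 2 :=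
    mul_le_mul_of_nonneg_left h3 hΛ
  linarith

/-- the hybrid partitions -/
noncomputable def yh (G : SimpleGraph V) (Λ : ℝ) {t : ℕ} (lab : V → ℕ) (U : ℕ → Fin t → V)
    (y0 : V → Bool) : ℕ → V → Bool
  | 0 => y0
  | i + 1 => fun v => if v ∈ univ.filter (fun v => lab v = i) then
      decide (bhat G Λ (U i) (fun s => yh G Λ lab U y0 i (U i s)) v < 0)
      else yh G Λ lab U y0 i v

/-- error of step `i` -/
noncomputable def stepErr (G : SimpleGraph V) (Λ : ℝ) {t : ℕ} (lab : V → ℕ) (U : ℕ → Fin t → V)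
    (y0 : V → Bool) (i : ℕ) : ℝ :=
  (∑ v ∈ univ.filter (fun v => lab v = i), |grad G Λ (yh G Λ lab U y0 i) v -
    bhat G Λ (U i) (fun s => yh G Λ lab U y0 i (U i s)) v|) / (Fintype.card V : ℝ)

theorem obj_yh [Nonempty V] (G : SimpleGraph V) {Λ : ℝ} (hΛ : 0 ≤ Λ) {t : ℕ} (lab : V → ℕ)
    (U : ℕ → Fin t → V) (y0 : V → Bool) (c : ℝ)
    (hc : ∀ i, (((univ.filter (fun v => lab v = i)).card : ℝ) / (Fintype.card V : ℝ)) ≤ c)
    (i : ℕ) :
    obj G Λ (yh G Λ lab U y0 i) ≤ obj G Λ y0 + ∑ j ∈ range i, stepErr G Λ lab U y0 j +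
      i * ((Λ + 1) * c ^ 2) := by
  induction i with
  | zero => simp [yh]
  | succ i ih =>
    have h := obj_block G hΛ (yh G Λ lab U y0 i) (univ.filter (fun v => lab v = i))
      (bhat G Λ (U i) (fun s => yh G Λ lab U y0 i (U i s)))
    have h2 : (Λ + 1) * (((univ.filter (fun v => lab v = i)).card : ℝ) /
        (Fintype.card V : ℝ)) ^ 2 ≤ (Λ + 1) * c ^ 2 := by
      have h3 : (0 : ℝ) ≤ ((univ.filter (fun v => lab v = i)).card : ℝ) /
        (Fintype.card V : ℝ) := by positivity
      have h4 := hc i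
      gcongr
    rw [Finset.sum_range_succ]
    change obj G Λ (yh G Λ lab U y0 (i + 1)) ≤ _ + stepErr G Λ lab U y0 i + _ at h
    push_cast
    linarith

theorem yh_final (G : SimpleGraph V) (Λ : ℝ) {t : ℕ} (lab : V → ℕ)
    (U : ℕ → Fin t → V) (y0 : V → Bool) (v : V) (j : ℕ) (hj : lab v < j) :
    yh G Λ lab U y0 j v = decide (bhat G Λ (U (lab v))
      (fun s => yh G Λ lab U y0 (lab v) (U (lab v) s)) v < 0) := by
  induction j with
  | zero => omega
  | succ j ih =>
    by_cases h : lab v = j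
    · simp only [yh, h, Finset.mem_filter, Finset.mem_univ, true_and, if_true]
    · have h1 : yh G Λ lab U y0 (j + 1) v = yh G Λ lab U y0 j v := by
        simp only [yh, Finset.mem_filter, Finset.mem_univ, true_and, h, if_false]
      rw [h1]
      exact ih (by omega)

theorem yh_congr (G : SimpleGraph V) (Λ : ℝ) {t : ℕ} (lab : V → ℕ)
    (U U' : ℕ → Fin t → V) (y0 : V → Bool) (j : ℕ) (h : ∀ i < j, U i = U' i) :
    yh G Λ lab U y0 j = yh G Λ lab U' y0 j := by
  induction j with
  | zero => rfl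
  | succ j ih =>
    have h1 := ih (fun i hi => h i (by omega))
    funext v
    simp only [yh]
    rw [h1, h j (by omega)]

/-- fixed partition, random sample: the estimate of the gradient is good on average. -/
theorem grad_est [Nonempty V] (G : SimpleGraph V) {Λ : ℝ} (hΛ : 0 ≤ Λ) {t : ℕ} (ht : 0 < t)
    (y : V → Bool) (v : V) :
    ∑ z : Fin t → V, |grad G Λ y v - bhat G Λ z (fun s => y (z s)) v| ≤
      (Fintype.card (Fin t → V) : ℝ) * (10 * (1 + Λ) / Real.sqrt t) := by
  have hN : (0 : ℝ) < Fintype.card V := by exact_mod_cast Fintype.card_pos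
  have htR : (0 : ℝ) < t := by exact_mod_cast ht
  let X : V → ℝ := fun u => ad G u v * (1 - 2 * rb (y u)) + 2 * Λ * (rb (y u) - 1 / 2)
  have hX : ∀ u, |X u| ≤ 1 + Λ := by
    intro u
    have h1 := ad_nonneg G u v
    have h2 := ad_le_one G u v
    have h3 := rb_nonneg (y u)
    have h4 := rb_le_one (y u)
    rw [abs_le]
    constructor
    · simp only [X]; nlinarith
    · simp only [X]; nlinarith
  have hmeanX : (∑ u, X u) / (Fintype.card V : ℝ) = grad G Λ y v := by
    simp only [X, grad]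
    rw [Finset.sum_add_distrib, ← Finset.mul_sum, Finset.sum_sub_distrib, Finset.sum_const,
      card_univ, nsmul_eq_mul]
    field_simp
  have hg : |grad G Λ y v| ≤ 1 + Λ := by
    rw [← hmeanX, abs_div, abs_of_pos hN, div_le_iff₀ hN]
    calc |∑ u, X u| ≤ ∑ u, |X u| := Finset.abs_sum_le_sum_abs _ _
      _ ≤ ∑ _u : V, (1 + Λ) := Finset.sum_le_sum fun u _ => hX u
      _ = _ := by simp; ring
  let Y : V → ℝ := fun u => X u - grad G Λ y v
  have hY : ∀ u, |Y u| ≤ 2 * (1 + Λ) := by
    intro u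
    calc |X u - grad G Λ y v| ≤ |X u| + |grad G Λ y v| := abs_sub _ _
      _ ≤ _ := by linarith [hX u]
  have hYm : ∑ u, Y u = 0 := by
    simp only [Y]
    rw [Finset.sum_sub_distrib, Finset.sum_const, card_univ, nsmul_eq_mul, ← hmeanX]
    field_simp
    ring
  have hb : ∀ z : Fin t → V, |grad G Λ y v - bhat G Λ z (fun s => y (z s)) v| =
      |∑ s, Y (z s)| / t := by
    intro z
    have : bhat G Λ z (fun s => y (z s)) v - grad G Λ y v = (∑ s, Y (z s)) / t := by
      simp only [Y, X, bhat]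
      rw [Finset.sum_sub_distrib, Finset.sum_add_distrib, ← Finset.mul_sum,
        Finset.sum_sub_distrib, Finset.sum_const, Finset.sum_const, card_univ, nsmul_eq_mul,
        nsmul_eq_mul, Fintype.card_fin]
      field_simp
    rw [abs_sub_comm, this, abs_div, abs_of_pos htR]
  simp only [hb]
  rw [← Finset.sum_div, div_le_iff₀ htR]
  refine (abs_iid t ht Y (2 * (1 + Λ)) (by linarith) hY hYm).trans (le_of_eq ?_)
  have hst : 0 < Real.sqrt t := Real.sqrt_pos.mpr htR
  have hss : (t : ℝ) = Real.sqrt t * Real.sqrt t := (Real.mul_self_sqrt htR.le).symm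
  have hc : ((Fintype.card (Fin t → V) : ℕ) : ℝ) = (Fintype.card V : ℝ) ^ t := by simp
  rw [hc]
  have : 10 * (1 + Λ) / Real.sqrt t * t = 10 * (1 + Λ) * Real.sqrt t := by
    rw [div_mul_eq_mul_div, div_eq_iff hst.ne']
    conv_lhs => rw [hss]
    ring
  rw [mul_assoc ((Fintype.card V : ℝ) ^ t), this]
  ring

/-- extension of a finite family of samples -/
noncomputable def ext {t k : ℕ} [Nonempty V] (U : Fin k → Fin t → V) : ℕ → Fin t → V :=
  fun i => if h : i < k then U ⟨i, h⟩ else fun _ => Classical.arbitrary V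

/-- total error of all steps, averaged over the samples -/
theorem sum_stepErr [Nonempty V] (G : SimpleGraph V) {Λ : ℝ} (hΛ : 0 ≤ Λ) {t k : ℕ}
    (ht : 0 < t) (lab : V → ℕ) (y0 : V → Bool) :
    ∑ U : Fin k → Fin t → V, ∑ i ∈ range k, stepErr G Λ lab (ext U) y0 i ≤
      (Fintype.card (Fin k → Fin t → V) : ℝ) * (10 * (1 + Λ) / Real.sqrt t) := by
  have hN : (0 : ℝ) < Fintype.card V := by exact_mod_cast Fintype.card_pos
  set E : ℝ := 10 * (1 + Λ) / Real.sqrt t with hE
  have hE0 : 0 ≤ E := by positivity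
  have hZ : (0 : ℝ) < Fintype.card (Fin t → V) := by exact_mod_cast Fintype.card_pos
  -- one vertex, one step
  have one : ∀ i < k, ∀ v : V, ∑ U : Fin k → Fin t → V,
      |grad G Λ (yh G Λ lab (ext U) y0 i) v -
        bhat G Λ (ext U i) (fun s => yh G Λ lab (ext U) y0 i (ext U i s)) v| ≤
      (Fintype.card (Fin k → Fin t → V) : ℝ) * E := by
    intro i hi v
    set f : (Fin k → Fin t → V) → ℝ := fun U => |grad G Λ (yh G Λ lab (ext U) y0 i) v -
        bhat G Λ (ext U i) (fun s => yh G Λ lab (ext U) y0 i (ext U i s)) v| with hf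
    have hres := resample (X := Fin t → V) (⟨i, hi⟩ : Fin k) f
    have hup : ∀ (U : Fin k → Fin t → V) (z : Fin t → V),
        f (Function.update U ⟨i, hi⟩ z) = |grad G Λ (yh G Λ lab (ext U) y0 i) v -
          bhat G Λ z (fun s => yh G Λ lab (ext U) y0 i (z s)) v| := by
      intro U z
      have h1 : yh G Λ lab (ext (Function.update U ⟨i, hi⟩ z)) y0 i =
          yh G Λ lab (ext U) y0 i := by
        apply yh_congr
        intro j hj
        unfold ext
        by_cases hjk : j < k
        · rw [dif_pos hjk, dif_pos hjk, Function.update_of_ne]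
          intro h
          have := congrArg Fin.val h
          simp only at this
          omega
        · rw [dif_neg hjk, dif_neg hjk]
      have h2 : ext (Function.update U ⟨i, hi⟩ z) i = z := by
        unfold ext
        rw [dif_pos hi, Function.update_self]
      rw [hf]
      simp only [h1, h2]
    have hle : (Fintype.card (Fin t → V) : ℝ) * ∑ U : Fin k → Fin t → V, f U ≤
        (Fintype.card (Fin t → V) : ℝ) * ((Fintype.card (Fin k → Fin t → V) : ℝ) * E) := by
      rw [← hres]
      calc ∑ U : Fin k → Fin t → V, ∑ z : Fin t → V, f (Function.update U ⟨i, hi⟩ z)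
          ≤ ∑ _U : Fin k → Fin t → V, (Fintype.card (Fin t → V) : ℝ) * E := by
            refine Finset.sum_le_sum fun U _ => ?_
            simp only [hup]
            exact grad_est G hΛ ht _ v
        _ = _ := by
            rw [Finset.sum_const, card_univ, nsmul_eq_mul]; ring
    exact le_of_mul_le_mul_left hle hZ
  rw [Finset.sum_comm]
  calc ∑ i ∈ range k, ∑ U : Fin k → Fin t → V, stepErr G Λ lab (ext U) y0 i
      = ∑ i ∈ range k, (∑ v ∈ univ.filter (fun v => lab v = i), ∑ U : Fin k → Fin t → V,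
          |grad G Λ (yh G Λ lab (ext U) y0 i) v -
        bhat G Λ (ext U i) (fun s => yh G Λ lab (ext U) y0 i (ext U i s)) v|) /
          (Fintype.card V : ℝ) := by
        refine Finset.sum_congr rfl fun i _ => ?_
        simp only [stepErr]
        rw [← Finset.sum_div, Finset.sum_comm]
    _ ≤ ∑ i ∈ range k, (∑ _v ∈ univ.filter (fun v => lab v = i),
          (Fintype.card (Fin k → Fin t → V) : ℝ) * E) / (Fintype.card V : ℝ) := by
        refine Finset.sum_le_sum fun i hi => ?_
        refine div_le_div_of_nonneg_right ?_ hN.le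
        exact Finset.sum_le_sum fun v _ => one i (mem_range.mp hi) v
    _ = ((∑ i ∈ range k, (univ.filter (fun v => lab v = i)).card : ℕ) : ℝ) *
          ((Fintype.card (Fin k → Fin t → V) : ℝ) * E) / (Fintype.card V : ℝ) := by
        push_cast
        rw [Finset.sum_mul, Finset.sum_div]
        refine Finset.sum_congr rfl fun i _ => ?_
        rw [Finset.sum_const, nsmul_eq_mul]
    _ ≤ (Fintype.card V : ℝ) *
          ((Fintype.card (Fin k → Fin t → V) : ℝ) * E) / (Fintype.card V : ℝ) := by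
        refine div_le_div_of_nonneg_right (mul_le_mul_of_nonneg_right ?_ (by positivity)) hN.le
        have h1 : ∑ i ∈ range k, (univ.filter (fun v => lab v = i)).card ≤ Fintype.card V := by
          rw [← Finset.card_biUnion]
          · exact Finset.card_le_univ _
          · intro i _ j _ hij
            rw [Function.onFun, Finset.disjoint_left]
            intro v hv hv'
            exact hij ((Finset.mem_filter.mp hv).2.symm.trans (Finset.mem_filter.mp hv').2)
        exact_mod_cast h1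
    _ = _ := by field_simp

end

end Pool.Agent.Helper76_Bisect
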