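import Pool.Agent.Helper76_Bisect.Conc

set_option autoImplicit false

/-!
Concentration for independent uniform samples from a finite set.
-/

namespace Pool.Agent.Helper76_Bisect

open Finset

section
variable {X : Type} [Fintype X]

theorem mgf_iid (t : ℕ) (Y : X → ℝ) (C lam : ℝ) (_hC : 0 ≤ C) (hY : ∀ x, |Y x| ≤ C)
    (hmean : ∑ x, Y x = 0) (hl : |lam| * C ≤ 1) :
    ∑ z : Fin t → X, Real.exp (lam * ∑ s, Y (z s)) ≤
      (Fintype.card X : ℝ) ^ t * Real.exp (t * (lam * C) ^ 2) := by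
  have h1 : ∀ z : Fin t → X, Real.exp (lam * ∑ s, Y (z s)) = ∏ s, Real.exp (lam * Y (z s)) := by
    intro z; rw [Finset.mul_sum, Real.exp_sum]
  simp only [h1]
  rw [← Fintype.sum_pow (fun x => Real.exp (lam * Y x)) t]
  have h2 : ∑ x, Real.exp (lam * Y x) ≤ (Fintype.card X : ℝ) * Real.exp ((lam * C) ^ 2) := by
    calc ∑ x, Real.exp (lam * Y x) ≤ ∑ x, (1 + lam * Y x + (lam * C) ^ 2) := by
          refine Finset.sum_le_sum fun x _ => ?_
          have h3 : |lam * Y x| ≤ 1 := by
            rw [abs_mul]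
            exact (mul_le_mul_of_nonneg_left (hY x) (abs_nonneg _)).trans hl
          have h4 := exp_sub_one_le h3
          have h5 : (lam * Y x) ^ 2 ≤ (lam * C) ^ 2 := by
            rw [mul_pow, mul_pow]
            refine mul_le_mul_of_nonneg_left ?_ (sq_nonneg _)
            rw [← sq_abs]
            exact pow_le_pow_left₀ (abs_nonneg _) (hY x) 2
          linarith
      _ = (Fintype.card X : ℝ) * (1 + (lam * C) ^ 2) := by
          rw [Finset.sum_add_distrib, Finset.sum_add_distrib, ← Finset.mul_sum, hmean]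
          simp only [Finset.sum_const, card_univ, nsmul_eq_mul]
          ring
      _ ≤ (Fintype.card X : ℝ) * Real.exp ((lam * C) ^ 2) := by
          refine mul_le_mul_of_nonneg_left ?_ (Nat.cast_nonneg _)
          have := Real.add_one_le_exp ((lam * C) ^ 2)
          linarith
  calc (∑ x, Real.exp (lam * Y x)) ^ t ≤
        ((Fintype.card X : ℝ) * Real.exp ((lam * C) ^ 2)) ^ t :=
        pow_le_pow_left₀ (Finset.sum_nonneg fun x _ => (Real.exp_pos _).le) h2 t
    _ = _ := by rw [mul_pow, ← Real.exp_nat_mul]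

theorem abs_iid (t : ℕ) (ht : 0 < t) (Y : X → ℝ) (C : ℝ) (hC : 0 < C) (hY : ∀ x, |Y x| ≤ C)
    (hmean : ∑ x, Y x = 0) :
    ∑ z : Fin t → X, |∑ s, Y (z s)| ≤ (Fintype.card X : ℝ) ^ t * (5 * C * Real.sqrt t) := by
  have htR : (0 : ℝ) < t := by exact_mod_cast ht
  have hst : 0 < Real.sqrt t := Real.sqrt_pos.mpr htR
  have hst1 : 1 ≤ Real.sqrt t := by
    rw [Real.one_le_sqrt]; exact_mod_cast ht
  set lam : ℝ := 1 / (C * Real.sqrt t) with hlam
  have hlam0 : 0 < lam := by positivity
  have hlC : lam * C = 1 / Real.sqrt t := by rw [hlam]; field_simp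
  have hl1 : |lam| * C ≤ 1 := by
    rw [abs_of_pos hlam0, hlC, div_le_one hst]; exact hst1
  have hl2 : |-lam| * C ≤ 1 := by rw [abs_neg]; exact hl1
  have e1 : (t : ℝ) * (lam * C) ^ 2 = 1 := by
    rw [hlC, div_pow, Real.sq_sqrt htR.le]; field_simp
  have e2 : (t : ℝ) * (-lam * C) ^ 2 = 1 := by rw [neg_mul, neg_sq, e1]
  have m1 := mgf_iid t Y C lam hC.le hY hmean hl1
  have m2 := mgf_iid t Y C (-lam) hC.le hY hmean hl2
  rw [e1] at m1
  rw [e2] at m2
  have hP : (0 : ℝ) ≤ (Fintype.card X : ℝ) ^ t := by positivity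
  have hcardz : ∑ _z : Fin t → X, (1 : ℝ) = (Fintype.card X : ℝ) ^ t := by
    simp
  have key : lam * ∑ z : Fin t → X, |∑ s, Y (z s)| ≤ (Fintype.card X : ℝ) ^ t * 5 := by
    calc lam * ∑ z : Fin t → X, |∑ s, Y (z s)|
        = ∑ z : Fin t → X, |lam * ∑ s, Y (z s)| := by
          rw [Finset.mul_sum]
          refine Finset.sum_congr rfl fun z _ => ?_
          rw [abs_mul, abs_of_pos hlam0]
      _ ≤ ∑ z : Fin t → X, (Real.exp (lam * ∑ s, Y (z s)) + Real.exp (-lam * ∑ s, Y (z s)) - 1) := by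
          refine Finset.sum_le_sum fun z _ => ?_
          set x := lam * ∑ s, Y (z s) with hx
          have h3 : -lam * ∑ s, Y (z s) = -x := by rw [hx]; ring
          rw [h3]
          have a1 := Real.add_one_le_exp x
          have a2 := Real.add_one_le_exp (-x)
          have a3 := Real.exp_pos x
          have a4 := Real.exp_pos (-x)
          have b1 := Real.exp_one_lt_d9
          rcases abs_cases x with ⟨h, h'⟩ | ⟨h, h'⟩
          · rw [h]; 
            have := Real.quadratic_le_exp_of_nonneg h'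
            linarith [Real.exp_pos (-x)]
          · rw [h]
            have := Real.quadratic_le_exp_of_nonneg (x := -x) (by linarith)
            linarith [Real.exp_pos x]
      _ = ∑ z : Fin t → X, Real.exp (lam * ∑ s, Y (z s)) +
          ∑ z : Fin t → X, Real.exp (-lam * ∑ s, Y (z s)) - (Fintype.card X : ℝ) ^ t := by
          rw [Finset.sum_sub_distrib, Finset.sum_add_distrib, hcardz]
      _ ≤ (Fintype.card X : ℝ) ^ t * Real.exp 1 + (Fintype.card X : ℝ) ^ t * Real.exp 1 -
          (Fintype.card X : ℝ) ^ t := by linarith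
      _ ≤ (Fintype.card X : ℝ) ^ t * 5 := by
          have := Real.exp_one_lt_d9
          nlinarith
  have h5 : ∑ z : Fin t → X, |∑ s, Y (z s)| =
      (C * Real.sqrt t) * (lam * ∑ z : Fin t → X, |∑ s, Y (z s)|) := by
    rw [hlam]; field_simp
  rw [h5]
  calc (C * Real.sqrt t) * (lam * ∑ z : Fin t → X, |∑ s, Y (z s)|)
      ≤ (C * Real.sqrt t) * ((Fintype.card X : ℝ) ^ t * 5) :=
        mul_le_mul_of_nonneg_left key (by positivity)
    _ = _ := by ring

open Classical in
theorem tail_iid (t : ℕ) (Y : X → ℝ) (hY : ∀ x, |Y x| ≤ 1)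
    (hmean : ∑ x, Y x = 0) (a : ℝ) (ha0 : 0 ≤ a) (ha : a ≤ 2) :
    ((univ.filter (fun z : Fin t → X => a * t ≤ ∑ s, Y (z s))).card : ℝ) ≤
      (Fintype.card X : ℝ) ^ t * Real.exp (-(a ^ 2 / 4 * t)) := by
  have hl : |a / 2| * 1 ≤ 1 := by rw [mul_one, abs_of_nonneg (by linarith)]; linarith
  have m := mgf_iid t Y 1 (a / 2) zero_le_one hY hmean hl
  calc ((univ.filter (fun z : Fin t → X => a * t ≤ ∑ s, Y (z s))).card : ℝ)
      = ∑ z : Fin t → X with a * t ≤ ∑ s, Y (z s), (1 : ℝ) := by simp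
    _ ≤ ∑ z : Fin t → X with a * t ≤ ∑ s, Y (z s),
        Real.exp (-(a / 2 * (a * t))) * Real.exp (a / 2 * ∑ s, Y (z s)) := by
        refine Finset.sum_le_sum fun z hz => ?_
        have hz' := (Finset.mem_filter.mp hz).2
        rw [← Real.exp_add]
        apply Real.one_le_exp
        nlinarith
    _ ≤ ∑ z : Fin t → X,
        Real.exp (-(a / 2 * (a * t))) * Real.exp (a / 2 * ∑ s, Y (z s)) :=
        Finset.sum_le_sum_of_subset_of_nonneg (Finset.filter_subset _ _)
          (fun _ _ _ => mul_nonneg (Real.exp_pos _).le (Real.exp_pos _).le)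
    _ = Real.exp (-(a / 2 * (a * t))) * ∑ z : Fin t → X, Real.exp (a / 2 * ∑ s, Y (z s)) := by
        rw [Finset.mul_sum]
    _ ≤ Real.exp (-(a / 2 * (a * t))) *
        ((Fintype.card X : ℝ) ^ t * Real.exp (t * (a / 2 * 1) ^ 2)) :=
        mul_le_mul_of_nonneg_left m (Real.exp_pos _).le
    _ = (Fintype.card X : ℝ) ^ t *
        (Real.exp (-(a / 2 * (a * t))) * Real.exp (t * (a / 2 * 1) ^ 2)) := by ring
    _ = _ := by
        rw [← Real.exp_add]
        congr 2
        ring

open Classical in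
/-- two-sided deviation of an empirical mean of a `[0,1]`-valued function. -/
theorem dev_iid [Nonempty X] (t : ℕ) (ht : 0 < t) (f : X → ℝ) (hf : ∀ x, 0 ≤ f x ∧ f x ≤ 1)
    (a : ℝ) (ha0 : 0 ≤ a) (ha : a ≤ 2) :
    ((univ.filter (fun z : Fin t → X =>
      a ≤ |(∑ s, f (z s)) / t - (∑ x, f x) / Fintype.card X|)).card : ℝ) ≤
      (Fintype.card X : ℝ) ^ t * (2 * Real.exp (-(a ^ 2 / 4 * t))) := by
  have htR : (0 : ℝ) < t := by exact_mod_cast ht
  have hcard : (0 : ℝ) < Fintype.card X := by exact_mod_cast Fintype.card_pos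
  set μ := (∑ x, f x) / Fintype.card X with hμ
  have hμ0 : 0 ≤ μ := div_nonneg (Finset.sum_nonneg fun x _ => (hf x).1) hcard.le
  have hμ1 : μ ≤ 1 := by
    rw [hμ, div_le_one hcard]
    calc ∑ x, f x ≤ ∑ _x : X, (1 : ℝ) := Finset.sum_le_sum fun x _ => (hf x).2
      _ = _ := by simp
  have hm1 : ∑ x, (f x - μ) = 0 := by
    rw [Finset.sum_sub_distrib, Finset.sum_const, card_univ, nsmul_eq_mul, hμ]
    field_simp; ring
  have hm2 : ∑ x, (μ - f x) = 0 := by
    rw [Finset.sum_sub_distrib, Finset.sum_const, card_univ, nsmul_eq_mul, hμ]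
    field_simp; ring
  have hb1 : ∀ x, |f x - μ| ≤ 1 := by
    intro x; rw [abs_le]; constructor <;> linarith [(hf x).1, (hf x).2]
  have hb2 : ∀ x, |μ - f x| ≤ 1 := by
    intro x; rw [abs_le]; constructor <;> linarith [(hf x).1, (hf x).2]
  have t1 := tail_iid t (fun x => f x - μ) hb1 hm1 a ha0 ha
  have t2 := tail_iid t (fun x => μ - f x) hb2 hm2 a ha0 ha
  have hsub : (univ.filter (fun z : Fin t → X => a ≤ |(∑ s, f (z s)) / t - μ|)) ⊆
      (univ.filter (fun z : Fin t → X => a * t ≤ ∑ s, (f (z s) - μ))) ∪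
      (univ.filter (fun z : Fin t → X => a * t ≤ ∑ s, (μ - f (z s)))) := by
    intro z hz
    simp only [Finset.mem_filter, Finset.mem_univ, true_and, Finset.mem_union] at hz ⊢
    have e1 : ∑ s, (f (z s) - μ) = ((∑ s, f (z s)) / t - μ) * t := by
      rw [Finset.sum_sub_distrib, Finset.sum_const, card_univ, Fintype.card_fin, nsmul_eq_mul]
      field_simp
    have e2 : ∑ s, (μ - f (z s)) = -((∑ s, f (z s)) / t - μ) * t := by
      rw [Finset.sum_sub_distrib, Finset.sum_const, card_univ, Fintype.card_fin, nsmul_eq_mul]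
      field_simp; ring
    rw [e1, e2]
    rcases le_abs.mp hz with h | h
    · left; exact mul_le_mul_of_nonneg_right h htR.le
    · right; exact mul_le_mul_of_nonneg_right h htR.le
  have hcardle := (Finset.card_le_card hsub).trans (Finset.card_union_le _ _)
  have hR : ((univ.filter (fun z : Fin t → X => a ≤ |(∑ s, f (z s)) / t - μ|)).card : ℝ) ≤
      ((univ.filter (fun z : Fin t → X => a * t ≤ ∑ s, (f (z s) - μ))).card : ℝ) +
      ((univ.filter (fun z : Fin t → X => a * t ≤ ∑ s, (μ - f (z s)))).card : ℝ) := by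
    exact_mod_cast hcardle
  linarith

/-- resampling one coordinate -/
theorem resample {ι : Type} [Fintype ι] [DecidableEq ι] (j : ι) (f : (ι → X) → ℝ) :
    ∑ U : ι → X, ∑ z : X, f (Function.update U j z) = (Fintype.card X : ℝ) * ∑ U : ι → X, f U := by
  have h1 : ∑ U : ι → X, ∑ z : X, f (Function.update U j z) =
      ∑ p : (ι → X) × X, f (Function.update p.1 j p.2) := by
    rw [Fintype.sum_prod_type]
  have h2 : ∑ p : (ι → X) × X, f (Function.update p.1 j p.2) =
      ∑ p : (ι → X) × X, f p.1 := by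
    refine Finset.sum_nbij' (fun p => (Function.update p.1 j p.2, p.1 j))
      (fun p => (Function.update p.1 j p.2, p.1 j)) ?_ ?_ ?_ ?_ ?_
    · intro p _; exact Finset.mem_univ _
    · intro p _; exact Finset.mem_univ _
    · rintro ⟨U, z⟩ _; simp
    · rintro ⟨U, z⟩ _; simp
    · rintro ⟨U, z⟩ _; rfl
  rw [h1, h2, Fintype.sum_prod_type]
  simp only [Finset.sum_const, card_univ, nsmul_eq_mul]
  rw [Finset.mul_sum]

end

end Pool.Agent.Helper76_Bisect
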