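import Pool.Agent.Helper76_Bisect.SLP

set_option autoImplicit false

/-!
Simulation of query programs on a graph whose adjacency bits are themselves computed.
-/

namespace Pool.Agent.Helper76_Bisect

open Finset

/-- the functions maintained by the simulation -/
def simSet {X V : Type} [DecidableEq V] (Φ : X → SimpleGraph V) (C : Finset V)
    (B : List (SimpleGraph V → Bool)) (W : List (SimpleGraph V → V)) : Set (X → Bool) :=
  {g | (∃ b ∈ B, g = fun x => b (Φ x)) ∨
    (∃ w ∈ W, ∃ v ∈ C, g = fun x => decide (w (Φ x) = v)) ∨
    (g = fun _ => true) ∨ (g = fun _ => false)}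

theorem QueryProgram.simulate {X V : Type} [DecidableEq V] {𝓑 : Set (X → Bool)}
    (Φ : X → SimpleGraph V) (c : ℕ) (adj : V → V → X → Bool)
    (hadj : ∀ u v x, adj u v x = true ↔ (Φ x).Adj u v)
    (hc : ∀ u v, Computes 𝓑 c {adj u v})
    {B : List (SimpleGraph V → Bool)} {W : List (SimpleGraph V → V)}
    (h : QueryProgram V B W) :
    ∃ C : Finset V, C.card ≤ W.length ∧ (∀ w ∈ W, ∀ x, w (Φ x) ∈ C) ∧
      Computes 𝓑 (2 + (c + 8) * (B.length + W.length + 1) ^ 3) (simSet Φ C B W) := by
  induction h with
  | nil =>
    refine ⟨∅, by simp, by simp, ?_⟩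
    refine ((Computes.empty.const true).const false).mono (by simp) ?_
    rintro g (⟨b, hb, _⟩ | ⟨w, hw, _⟩ | rfl | rfl)
    · simp at hb
    · simp at hw
    · right; left; rfl
    · left; rfl
  | @const B W b _ ih =>
    obtain ⟨C, h1, h2, h3⟩ := ih
    refine ⟨C, h1, h2, ?_⟩
    refine h3.mono ?_ ?_
    · gcongr; simp only [List.length_cons]; omega
    · rintro g (⟨b', hb', rfl⟩ | h | rfl | rfl)
      · rcases List.mem_cons.mp hb' with rfl | hb'
        · cases b
          · right; right; right; rfl
          · right; right; left; rfl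
        · left; exact ⟨b', hb', rfl⟩
      · right; left; exact h
      · right; right; left; rfl
      · right; right; right; rfl
  | @nand B W f g _ hf hg ih =>
    obtain ⟨C, h1, h2, h3⟩ := ih
    refine ⟨C, h1, h2, ?_⟩
    have h4 := h3.nand (f := fun x => f (Φ x)) (g := fun x => g (Φ x))
      (Or.inl ⟨f, hf, rfl⟩) (Or.inl ⟨g, hg, rfl⟩)
    refine h4.mono ?_ ?_
    · simp only [List.length_cons]
      set t := B.length + W.length with ht
      rw [show B.length + 1 + W.length + 1 = t + 2 by omega]
      nlinarith [Nat.zero_le ((c + 8) * (t + 1) ^ 2), Nat.zero_le c, Nat.zero_le t]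
    · rintro k (⟨b', hb', rfl⟩ | h | rfl | rfl)
      · rcases List.mem_cons.mp hb' with rfl | hb'
        · left; rfl
        · right; left; exact ⟨b', hb', rfl⟩
      · right; right; left; exact h
      · right; right; right; left; rfl
      · right; right; right; right; rfl
  | @vertex B W v _ ih =>
    obtain ⟨C, h1, h2, h3⟩ := ih
    refine ⟨insert v C, ?_, ?_, ?_⟩
    · refine (Finset.card_insert_le _ _).trans ?_
      simp only [List.length_cons]; omega
    · intro w hw x
      rcases List.mem_cons.mp hw with rfl | hw
      · exact Finset.mem_insert_self _ _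
      · exact Finset.mem_insert_of_mem (h2 w hw x)
    · refine h3.mono ?_ ?_
      · gcongr; simp only [List.length_cons]; omega
      · rintro g (⟨b', hb', rfl⟩ | ⟨w, hw, v', hv', rfl⟩ | rfl | rfl)
        · left; exact ⟨b', hb', rfl⟩
        · rcases List.mem_cons.mp hw with rfl | hw
          · by_cases hvv : v = v'
            · right; right; left; funext x; simp [hvv]
            · right; right; right; funext x; simp [hvv]
          · by_cases hC : v' ∈ C
            · right; left; exact ⟨w, hw, v', hC, rfl⟩
            · right; right; right; funext x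
              have : w (Φ x) ≠ v' := fun hh => hC (hh ▸ h2 w hw x)
              simp [this]
        · right; right; left; rfl
        · right; right; right; rfl
  | @select B W f u v _ hf hu hv ih =>
    obtain ⟨C, h1, h2, h3⟩ := ih
    refine ⟨C, ?_, ?_, ?_⟩
    · simp only [List.length_cons]; omega
    · intro w hw x
      rcases List.mem_cons.mp hw with rfl | hw
      · dsimp only
        split_ifs
        · exact h2 u hu x
        · exact h2 v hv x
      · exact h2 w hw x
    · have h4 := h3.bigUnion C
        (fun z x => if f (Φ x) = true then decide (u (Φ x) = z) else decide (v (Φ x) = z)) 8 ?_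
      · refine h4.mono ?_ ?_
        · simp only [List.length_cons]
          set t := B.length + W.length with ht
          rw [show B.length + (W.length + 1) + 1 = t + 2 by omega]
          have hCt : C.card ≤ t := by omega
          nlinarith [Nat.zero_le ((c + 8) * (t + 1) ^ 2), Nat.zero_le c, Nat.zero_le t,
            Nat.zero_le (c * t), Nat.zero_le (t ^ 2), Nat.zero_le (c * t ^ 2)]
        · rintro g (⟨b', hb', rfl⟩ | ⟨w, hw, v', hv', rfl⟩ | rfl | rfl)
          · left; left; exact ⟨b', hb', rfl⟩
          · rcases List.mem_cons.mp hw with rfl | hw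
            · right; refine ⟨v', hv', ?_⟩
              funext x; dsimp only; split_ifs <;> rfl
            · left; right; left; exact ⟨w, hw, v', hv', rfl⟩
          · left; right; right; left; rfl
          · left; right; right; right; rfl
      · intro t G hG ht z hz
        exact ht.ite (b := fun x => f (Φ x)) (f := fun x => decide (u (Φ x) = z))
          (g := fun x => decide (v (Φ x) = z)) (hG (Or.inl ⟨f, hf, rfl⟩))
          (hG (Or.inr (Or.inl ⟨u, hu, z, hz, rfl⟩))) (hG (Or.inr (Or.inl ⟨v, hv, z, hz, rfl⟩)))
  | @compare B W u v _ hu hv ih =>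
    obtain ⟨C, h1, h2, h3⟩ := ih
    refine ⟨C, h1, h2, ?_⟩
    have h4 := h3.bigOr C (fun z x => decide (u (Φ x) = z)) (fun z x => decide (v (Φ x) = z))
      (fun z hz => Or.inr (Or.inl ⟨u, hu, z, hz, rfl⟩))
      (fun z hz => Or.inr (Or.inl ⟨v, hv, z, hz, rfl⟩))
      (fun x => decide (u (Φ x) = v (Φ x))) (by
        intro x
        simp only [decide_eq_true_eq]
        constructor
        · intro h; exact ⟨u (Φ x), h2 u hu x, rfl, h.symm⟩
        · rintro ⟨z, _, rfl, h⟩; exact h.symm)
    refine h4.mono ?_ ?_
    · simp only [List.length_cons]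
      set t := B.length + W.length with ht
      rw [show B.length + 1 + W.length + 1 = t + 2 by omega]
      have hCt : C.card ≤ t := by omega
      nlinarith [Nat.zero_le ((c + 8) * (t + 1) ^ 2), Nat.zero_le c, Nat.zero_le t,
            Nat.zero_le (c * t), Nat.zero_le (t ^ 2), Nat.zero_le (c * t ^ 2)]
    · rintro k (⟨b', hb', rfl⟩ | h | rfl | rfl)
      · rcases List.mem_cons.mp hb' with rfl | hb'
        · left; rfl
        · right; left; exact ⟨b', hb', rfl⟩
      · right; right; left; exact h
      · right; right; right; left; rfl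
      · right; right; right; right; rfl
  | @query B W u v a _ hu hv ha ih =>
    obtain ⟨C, h1, h2, h3⟩ := ih
    refine ⟨C, h1, h2, ?_⟩
    -- conjunctions of the one-hot codes
    have h4 := h3.bigUnion (C ×ˢ C)
      (fun z x => decide (u (Φ x) = z.1) && decide (v (Φ x) = z.2)) 2 (by
        intro t G hG ht z hz
        rw [Finset.mem_product] at hz
        exact ht.and (f := fun x => decide (u (Φ x) = z.1)) (g := fun x => decide (v (Φ x) = z.2))
          (hG (Or.inr (Or.inl ⟨u, hu, z.1, hz.1, rfl⟩)))
          (hG (Or.inr (Or.inl ⟨v, hv, z.2, hz.2, rfl⟩))))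
    -- adjacency bits
    have h5 := h4.bigUnion (C ×ˢ C) (fun z => adj z.1 z.2) c (by
        intro t G hG ht z hz
        refine (ht.union (hc z.1 z.2)).mono le_rfl ?_
        rintro g (rfl | hg)
        · right; rfl
        · left; exact hg)
    have h6 := h5.bigOr (C ×ˢ C)
      (fun z x => decide (u (Φ x) = z.1) && decide (v (Φ x) = z.2)) (fun z => adj z.1 z.2)
      (fun z hz => Or.inl (Or.inr ⟨z, hz, rfl⟩)) (fun z hz => Or.inr ⟨z, hz, rfl⟩)
      (fun x => a (Φ x)) (by
        intro x
        rw [ha (Φ x)]
        constructor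
        · intro h
          refine ⟨(u (Φ x), v (Φ x)), Finset.mem_product.mpr ⟨h2 u hu x, h2 v hv x⟩, by simp, ?_⟩
          exact (hadj _ _ _).mpr h
        · rintro ⟨z, _, h, h'⟩
          simp only [Bool.and_eq_true, decide_eq_true_eq] at h
          have := (hadj _ _ _).mp h'
          rw [h.1, h.2]; exact this)
    refine h6.mono ?_ ?_
    · simp only [List.length_cons, Finset.card_product]
      set t := B.length + W.length with ht
      rw [show B.length + 1 + W.length + 1 = t + 2 by omega]
      have hCt : C.card ≤ t := by omega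
      have hCC : C.card * C.card ≤ t * t := Nat.mul_le_mul hCt hCt
      have : 2 * (C.card * C.card) + c * (C.card * C.card) + 5 * (C.card * C.card) + 1 ≤
          (c + 7) * (t * t) + 1 := by nlinarith
      nlinarith [Nat.zero_le ((c + 8) * (t + 1) ^ 2), Nat.zero_le c, Nat.zero_le t,
            Nat.zero_le (c * t), Nat.zero_le (t ^ 2), Nat.zero_le (c * t ^ 2)]
    · rintro k (⟨b', hb', rfl⟩ | h | rfl | rfl)
      · rcases List.mem_cons.mp hb' with rfl | hb'
        · left; rfl
        · right; left; left; left; exact ⟨b', hb', rfl⟩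
      · right; left; left; right; left; exact h
      · right; left; left; right; right; left; rfl
      · right; left; left; right; right; right; rfl

/-- A deterministic query program running in time `t`, applied to a graph with computed adjacency
bits, yields a small straight-line program. -/
theorem ComputedInTime.computes {X V : Type} [DecidableEq V] {𝓑 : Set (X → Bool)}
    (Φ : X → SimpleGraph V) (c : ℕ) (adj : V → V → X → Bool)
    (hadj : ∀ u v x, adj u v x = true ↔ (Φ x).Adj u v)
    (hc : ∀ u v, Computes 𝓑 c {adj u v}) {t : ℝ} (t' : ℕ) (ht : t ≤ t')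
    {f : SimpleGraph V → Bool} (hf : ComputedInTime t f) :
    Computes 𝓑 (2 + (c + 8) * (t' + 1) ^ 3) {fun x => f (Φ x)} := by
  obtain ⟨B, W, h1, h2, h3⟩ := hf
  obtain ⟨C, _, _, h4⟩ := QueryProgram.simulate Φ c adj hadj hc h1
  have h5 : B.length + W.length ≤ t' := by exact_mod_cast h2.trans ht
  refine h4.mono (by gcongr) ?_
  rintro g rfl
  exact Or.inl ⟨f, h3, rfl⟩

end Pool.Agent.Helper76_Bisect
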