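import Pool.Agent.Helper76_Bisect.GadgetCut
import Pool.Agent.Helper76_Bisect.Wrong
import Pool.Agent.Helper76_Bisect.Boost
import Pool.Agent.Helper76_Bisect.Simulate

set_option autoImplicit false

/-!
Reduction of exact minimum bisection to smoothed testing.
-/

namespace Pool.Agent.Helper76_Bisect

open Finset

section
open Classical

theorem cutEdges_comap {V V' : Type} [Fintype V] [Fintype V'] (e : V ≃ V') (G : SimpleGraph V')
    (S : Finset V) : cutEdges (G.comap e) S = cutEdges G (S.map e.toEmbedding) := by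
  have h : (cutEdges (G.comap e) S : ℝ) = cutEdges G (S.map e.toEmbedding) := by
    rw [cutEdges_real, cutEdges_real, ← Equiv.sum_comp e]
    refine Finset.sum_congr rfl fun u _ => ?_
    rw [← Equiv.sum_comp e]
    refine Finset.sum_congr rfl fun v _ => ?_
    simp [chi]
  exact_mod_cast h

/-- the adjacency functions -/
def adjBasis (N : ℕ) : Set (SimpleGraph (Fin N) → Bool) :=
  {f | ∃ i j, ∀ H, f H = true ↔ H.Adj i j}

/-- the base graph on `Fin n` -/
def baseGraph {n : ℕ} (L M D : ℕ) {N : ℕ} (e : Fin n ≃ GV L N M) (H : SimpleGraph (Fin N)) :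
    SimpleGraph (Fin n) := (gadget L M H D).comap e

theorem baseGraph_adj {n : ℕ} (L M D : ℕ) {N : ℕ} (e : Fin n ≃ GV L N M) (u v : Fin n) :
    (∃ q : Prop, ∀ H, (baseGraph L M D e H).Adj u v ↔ q) ∨
      (∃ i j, ∀ H, (baseGraph L M D e H).Adj u v ↔ H.Adj i j) := by
  rcases hu : e u with ⟨s, i⟩ | ⟨i, a⟩
  · left
    rcases hv : e v with ⟨t, j⟩ | ⟨j, b⟩
    · refine ⟨(s = t ∧ i ≠ j) ∨ (s = false ∧ t = true ∧ (j - i).val < D) ∨
        (s = true ∧ t = false ∧ (i - j).val < D), fun H => ?_⟩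
      simp only [baseGraph, SimpleGraph.comap_adj, hu, hv]
      exact Iff.rfl
    · refine ⟨False, fun H => ?_⟩
      simp only [baseGraph, SimpleGraph.comap_adj, hu, hv]
      exact Iff.rfl
  · rcases hv : e v with ⟨t, j⟩ | ⟨j, b⟩
    · left
      refine ⟨False, fun H => ?_⟩
      simp only [baseGraph, SimpleGraph.comap_adj, hu, hv]
      exact Iff.rfl
    · by_cases hij : i = j
      · left
        refine ⟨a ≠ b, fun H => ?_⟩
        simp only [baseGraph, SimpleGraph.comap_adj, hu, hv]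
        subst hij
        constructor
        · rintro (⟨_, h⟩ | h)
          · exact h
          · exact absurd h (H.loopless.irrefl i)
        · intro h; left; exact ⟨rfl, h⟩
      · right
        refine ⟨i, j, fun H => ?_⟩
        simp only [baseGraph, SimpleGraph.comap_adj, hu, hv]
        constructor
        · rintro (⟨h, _⟩ | h)
          · exact absurd h hij
          · exact h
        · intro h; right; exact h

theorem adjbit_computes {n : ℕ} (L M D : ℕ) {N : ℕ} (e : Fin n ≃ GV L N M)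
    (T : SimpleGraph (Fin n)) (u v : Fin n) :
    Computes (adjBasis N) 2 {fun H => decide ((symmDiff (baseGraph L M D e H) T).Adj u v)} := by
  have hconst : ∀ q : Prop, (∀ H, (symmDiff (baseGraph L M D e H) T).Adj u v ↔ q) →
      Computes (adjBasis N) 2 {fun H => decide ((symmDiff (baseGraph L M D e H) T).Adj u v)} := by
    intro q hq
    refine (Computes.empty.const (decide q)).mono (by norm_num) ?_
    rintro g rfl
    left; funext H; simp [hq H]
  rcases baseGraph_adj L M D e u v with ⟨q, hq⟩ | ⟨i, j, hij⟩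
  · exact hconst (q ↔ ¬ T.Adj u v) fun H => by rw [adj_symmDiff, hq H]
  · have hb : (fun H : SimpleGraph (Fin N) => decide (H.Adj i j)) ∈ adjBasis N :=
      ⟨i, j, fun H => by simp⟩
    by_cases hT : T.Adj u v
    · refine ((Computes.empty.base hb).not (Set.mem_insert _ _)).mono (by norm_num) ?_
      rintro g rfl
      left; funext H
      rw [Bool.eq_iff_iff]
      simp [adj_symmDiff, hij H, hT]
    · refine (Computes.empty.base hb).mono (by norm_num) ?_
      rintro g rfl
      left; funext H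
      rw [Bool.eq_iff_iff]
      simp [adj_symmDiff, hij H, hT]

/-- numerical conditions on the parameters -/
structure Params (ρ g : ℝ) (N h K lam L M D n : ℕ) : Prop where
  hN : 2 * h = N
  hh : 0 < h
  hM : 0 < M
  hL : 0 < L
  hn : n = 2 * L + N * M
  hD : D ≤ L
  hLD : 5 / 4 * ((N : ℝ) * M) ≤ (L : ℝ) / 2 - D
  yes : (D : ℝ) * L + (M : ℝ) ^ 2 * K ≤ (ρ - g) * (n : ℝ) ^ 2
  no : (ρ + g) * (n : ℝ) ^ 2 ≤ (D : ℝ) * L + (M : ℝ) ^ 2 * (K + 1)

theorem exists_params {ρ : ℝ} (h0 : 0 < ρ) (h1 : ρ < 1 / 8) (lam : ℕ)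
    (hlam1 : 4 ≤ lam * (1 - 8 * ρ)) (hlam2 : 1 ≤ ρ * lam) (N h K M : ℕ) (hN : 2 * h = N)
    (hh : 0 < h) (hK : K < N * N) (hM : 4 * lam * N ≤ M) :
    ∃ L D n : ℕ, M ≤ n ∧ Even n ∧
      Params ρ (1 / (4 * (2 * lam + 1) ^ 2 * (N : ℝ) ^ 2)) N h K lam L M D n := by
  have hlam0 : 0 < lam := by
    rcases Nat.eq_zero_or_pos lam with h | h
    · rw [h] at hlam1; norm_num at hlam1
    · exact h
  have hN0 : 0 < N := by omega
  have hM0 : 0 < M := lt_of_lt_of_le (by positivity) hM
  have hlamR : (1 : ℝ) ≤ lam := by exact_mod_cast hlam0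
  have hNR : (1 : ℝ) ≤ N := by exact_mod_cast hN0
  have hMR : (0 : ℝ) < M := by exact_mod_cast hM0
  set L : ℕ := lam * N * M with hL
  have hL0 : 0 < L := by positivity
  have hLR : (0 : ℝ) < L := by exact_mod_cast hL0
  have hLR' : (L : ℝ) = lam * N * M := by rw [hL]; push_cast; ring
  set n : ℕ := 2 * L + N * M with hn
  have hnR : (n : ℝ) = (2 * lam + 1) * (N * M) := by rw [hn]; push_cast; rw [hLR']; ring
  have hNM : (0 : ℝ) < (N : ℝ) * M := by positivity
  set y : ℝ := (ρ * (n : ℝ) ^ 2 - (M : ℝ) ^ 2 * (K + 1 / 2)) / L with hy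
  have hKR : (K : ℝ) + 1 ≤ (N : ℝ) ^ 2 := by
    have : K + 1 ≤ N ^ 2 := by rw [sq]; omega
    exact_mod_cast this
  have hn2 : (n : ℝ) ^ 2 = (2 * lam + 1) ^ 2 * ((N : ℝ) ^ 2 * (M : ℝ) ^ 2) := by
    rw [hnR]; ring
  have hρl : 1 ≤ ρ * (2 * lam + 1) ^ 2 := by nlinarith
  have hyL : y * L = ρ * (n : ℝ) ^ 2 - (M : ℝ) ^ 2 * (K + 1 / 2) := by
    rw [hy]; field_simp
  have hM2 : (0 : ℝ) < (M : ℝ) ^ 2 := by positivity
  have hy0 : 0 ≤ y := by
    rw [hy]
    apply div_nonneg _ hLR.le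
    rw [hn2]
    have e1 : (N : ℝ) ^ 2 * (M : ℝ) ^ 2 ≤
        ρ * ((2 * lam + 1) ^ 2 * ((N : ℝ) ^ 2 * (M : ℝ) ^ 2)) := by
      have := mul_le_mul_of_nonneg_right hρl
        (by positivity : (0 : ℝ) ≤ (N : ℝ) ^ 2 * (M : ℝ) ^ 2)
      linarith
    have e2 : (M : ℝ) ^ 2 * ((K : ℝ) + 1) ≤ (M : ℝ) ^ 2 * (N : ℝ) ^ 2 :=
      mul_le_mul_of_nonneg_left hKR hM2.le
    nlinarith
  have hfl := Nat.floor_le hy0
  have hfl' := Nat.lt_floor_add_one y
  set D : ℕ := ⌊y⌋₊ with hD
  have hDL : (D : ℝ) * L ≤ ρ * (n : ℝ) ^ 2 - (M : ℝ) ^ 2 * (K + 1 / 2) := by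
    rw [← hyL]; exact mul_le_mul_of_nonneg_right hfl hLR.le
  have hDL' : ρ * (n : ℝ) ^ 2 - (M : ℝ) ^ 2 * (K + 1 / 2) < (D : ℝ) * L + L := by
    rw [← hyL]
    have := mul_lt_mul_of_pos_right hfl' hLR
    linarith
  have hg : 1 / (4 * (2 * (lam : ℝ) + 1) ^ 2 * (N : ℝ) ^ 2) * (n : ℝ) ^ 2 = (M : ℝ) ^ 2 / 4 := by
    rw [hn2]; field_simp
  have hLD : 5 / 4 * ((N : ℝ) * M) ≤ (L : ℝ) / 2 - D := by
    have h2 : ρ * (2 * lam + 1) ^ 2 ≤ lam * (lam / 2 - 5 / 4) := by nlinarith
    have h3 : (D : ℝ) * L ≤ L * ((L : ℝ) / 2 - 5 / 4 * ((N : ℝ) * M)) := by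
      have h4 : (D : ℝ) * L ≤ ρ * (n : ℝ) ^ 2 := by
        have : (0 : ℝ) ≤ (M : ℝ) ^ 2 * (K + 1 / 2) := by positivity
        linarith
      refine h4.trans ?_
      rw [hn2, hLR']
      have h5 := mul_le_mul_of_nonneg_right h2
        (by positivity : (0 : ℝ) ≤ (N : ℝ) ^ 2 * (M : ℝ) ^ 2)
      nlinarith
    have h6 : (D : ℝ) ≤ (L : ℝ) / 2 - 5 / 4 * ((N : ℝ) * M) := by
      by_contra hcon
      push Not at hcon
      have := mul_lt_mul_of_pos_left hcon hLR
      linarith
    linarith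
  have hLM : (L : ℝ) ≤ (M : ℝ) ^ 2 / 4 := by
    have : (4 : ℝ) * lam * N ≤ M := by exact_mod_cast hM
    rw [hLR']; nlinarith
  refine ⟨L, D, n, ?_, ?_, ⟨hN, hh, hM0, hL0, rfl, ?_, hLD, ?_, ?_⟩⟩
  · rw [hn]
    have : M ≤ N * M := Nat.le_mul_of_pos_left M hN0
    omega
  · rw [hn, ← hN]
    exact ⟨L + h * M, by ring⟩
  · have : (D : ℝ) ≤ L := by nlinarith
    exact_mod_cast this
  · rw [sub_mul, hg]
    nlinarith
  · rw [add_mul, hg]
    nlinarith

/-- the answer for the base graph -/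
theorem base_answer {ρ g : ℝ} {N h K lam L M D n : ℕ}
    (P : Params ρ g N h K lam L M D n) (e : Fin n ≃ GV L N M) (H : SimpleGraph (Fin N)) :
    ((∃ A : Finset (Fin N), A.card = h ∧ cutEdges H A ≤ K) →
      ∃ S : Finset (Fin n), 2 * S.card = n ∧
        (cutEdges (baseGraph L M D e H) S : ℝ) ≤ (ρ - g) * (n : ℝ) ^ 2) ∧
    (¬ (∃ A : Finset (Fin N), A.card = h ∧ cutEdges H A ≤ K) →
      ∀ S : Finset (Fin n), 2 * S.card = n →
        (ρ + g) * (n : ℝ) ^ 2 ≤ (cutEdges (baseGraph L M D e H) S : ℝ)) := by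
  have : NeZero L := ⟨P.hL.ne'⟩
  have hn := P.hn
  have hN := P.hN
  constructor
  · rintro ⟨A, hA, hcut⟩
    obtain ⟨S, hS1, hS2⟩ := gadget_upper (L := L) (M := M) H D P.hD h A hA
    refine ⟨S.map e.symm.toEmbedding, ?_, ?_⟩
    · rw [Finset.card_map, hS1, hn, ← hN]; ring
    · unfold baseGraph
      rw [cutEdges_comap]
      have : (S.map e.symm.toEmbedding).map e.toEmbedding = S := by
        ext v; simp
      rw [this, hS2]
      refine le_trans ?_ P.yes
      have : (cutEdges H A : ℝ) ≤ K := by exact_mod_cast hcut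
      gcongr
  · intro hno S hS
    push Not at hno
    unfold baseGraph
    rw [cutEdges_comap]
    refine P.no.trans ?_
    refine gadget_lower H D P.hD h P.hN P.hh P.hM (K + 1) (fun A hA => ?_) P.hLD _ ?_
    · have := hno A hA
      exact_mod_cast this
    · rw [Finset.card_map]
      have : 2 * S.card = 2 * (L + h * M) := by rw [hS, hn, ← hN]; ring
      omega

theorem card_simpleGraph_le (N : ℕ) : Fintype.card (SimpleGraph (Fin N)) ≤ 2 ^ (N * N) := by
  have h : Function.Injective (fun (H : SimpleGraph (Fin N)) (p : Fin N × Fin N) =>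
      decide (H.Adj p.1 p.2)) := by
    intro H H' hh
    ext i j
    have := congrFun hh (i, j)
    simpa using this
  have := Fintype.card_le_of_injective _ h
  simpa using this

theorem pow_bound (N : ℕ) (X : ℕ) (hX : X ≤ 2 ^ (N * N)) :
    (X : ℝ) * (49 / 50) ^ (35 * (N * N + 1)) < 1 := by
  have h1 : ((49 : ℝ) / 50) ^ 35 < 1 / 2 := by norm_num
  have h2 : ((49 : ℝ) / 50) ^ (35 * (N * N + 1)) < (1 / 2) ^ (N * N + 1) := by
    rw [pow_mul]
    exact pow_lt_pow_left₀ h1 (by positivity) (by omega)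
  have h3 : (X : ℝ) ≤ 2 ^ (N * N) := by exact_mod_cast hX
  calc (X : ℝ) * (49 / 50) ^ (35 * (N * N + 1)) ≤ 2 ^ (N * N) * (49 / 50) ^ (35 * (N * N + 1)) :=
        mul_le_mul_of_nonneg_right h3 (by positivity)
    _ < 2 ^ (N * N) * (1 / 2) ^ (N * N + 1) := mul_lt_mul_of_pos_left h2 (by positivity)
    _ = 1 / 2 := by rw [pow_succ, ← mul_assoc, ← mul_pow]; norm_num
    _ < 1 := by norm_num

theorem size_bound (a k N : ℕ) (hN : 1 ≤ N) :
    35 * (N * N + 1) * (2 + 10 * (a * (N * N) ^ k + 1) ^ 3) + 2 +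
      35 * (N * N + 1) * (5 * (35 * (N * N + 1) + 2)) ≤
      (840 * (a + 1) ^ 3 + 25202) * N ^ (6 * k + 4) + (840 * (a + 1) ^ 3 + 25202) := by
  have h1 : 1 ≤ N * N := Nat.mul_pos hN hN
  have hP : 1 ≤ (N * N) ^ k := Nat.one_le_pow _ _ h1
  have e1 : N ^ (6 * k + 4) = ((N * N) ^ k) ^ 3 * (N * N) * (N * N) := by
    rw [← pow_mul, ← sq, ← pow_mul]
    ring
  rw [e1]
  set P := (N * N) ^ k with hPdef
  set q := N * N with hq
  have h2 : (a * P + 1) ^ 3 ≤ ((a + 1) * P) ^ 3 := by
    apply Nat.pow_le_pow_left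
    nlinarith
  have h3 : 1 ≤ P ^ 3 := Nat.one_le_pow _ _ hP
  have h3' : 1 ≤ (a + 1) ^ 3 := Nat.one_le_pow _ _ (by omega)
  have h4 : ((a + 1) * P) ^ 3 = (a + 1) ^ 3 * P ^ 3 := by ring
  rw [h4] at h2
  set b := (a + 1) ^ 3
  set R := P ^ 3
  have h5 : 2 + 10 * (a * P + 1) ^ 3 ≤ 12 * (b * R) := by
    have : 1 ≤ b * R := Nat.mul_pos h3' h3
    omega
  have h6 : 35 * (q + 1) ≤ 70 * q := by omega
  calc 35 * (q + 1) * (2 + 10 * (a * P + 1) ^ 3) + 2 +
      35 * (q + 1) * (5 * (35 * (q + 1) + 2))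
      ≤ 70 * q * (12 * (b * R)) + 2 + 70 * q * (5 * (72 * q)) := by
        gcongr
        omega
    _ = 840 * b * (R * q) + 2 + 25200 * (q * q) := by ring
    _ ≤ 840 * b * (R * q * q) + 2 * (R * q * q) + 25200 * (R * q * q) := by
        have a1 : R * q ≤ R * q * q := Nat.le_mul_of_pos_right _ h1
        have a2 : q * q ≤ R * q * q := by
          calc q * q = 1 * (q * q) := (one_mul _).symm
            _ ≤ R * (q * q) := Nat.mul_le_mul_right _ h3
            _ = R * q * q := (mul_assoc _ _ _).symm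
        have a3 : 1 ≤ R * q * q := Nat.mul_pos (Nat.mul_pos h3 h1) h1
        have a4 : 840 * b * (R * q) ≤ 840 * b * (R * q * q) := Nat.mul_le_mul_left _ a1
        omega
    _ ≤ _ := by nlinarith

/-- Fast smoothed testers give polynomial-size circuits for exact minimum bisection. -/
theorem minbis_computes {ρ : ℝ} (h0 : 0 < ρ) (h1 : ρ < 1 / 8) (hT : HasFastSmoothedTester ρ) :
    ∃ c k : ℕ, ∀ (N h K : ℕ), 2 * h = N → 0 < h →
      Computes (adjBasis N) (c * N ^ k + c)
        {fun H => decide (∃ A : Finset (Fin N), A.card = h ∧ cutEdges H A ≤ K)} := by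
  obtain ⟨c₀, k₀, hT⟩ := hT
  have hρ' : (0 : ℝ) < 1 - 8 * ρ := by linarith
  obtain ⟨lam, hlam⟩ := exists_nat_ge (4 / (1 - 8 * ρ) + 1 / ρ)
  have hlam1 : 4 ≤ lam * (1 - 8 * ρ) := by
    have : 4 / (1 - 8 * ρ) ≤ lam := by
      have : (0 : ℝ) ≤ 1 / ρ := by positivity
      linarith
    rwa [div_le_iff₀ hρ'] at this
  have hlam2 : 1 ≤ ρ * lam := by
    have : 1 / ρ ≤ lam := by
      have : (0 : ℝ) ≤ 4 / (1 - 8 * ρ) := by positivity
      linarith
    rw [div_le_iff₀ h0] at this
    linarith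
  obtain ⟨q, hq⟩ := exists_nat_ge (4 * (2 * (lam : ℝ) + 1) ^ 2 * (8 / (1 - 8 * ρ) + 1))
  set a := c₀ * q ^ k₀ with ha
  refine ⟨840 * (a + 1) ^ 3 + 25202, 6 * k₀ + 4, fun N h K hN hh => ?_⟩
  have hN1 : 1 ≤ N := by omega
  by_cases hK : N * N ≤ K
  · -- trivial instance
    refine (Computes.empty.const true).mono ?_ ?_
    · have := Nat.zero_le ((840 * (a + 1) ^ 3 + 25202) * N ^ (6 * k₀ + 4))
      omega
    · rintro f rfl
      left
      funext H
      have : ∃ A : Finset (Fin N), A.card = h ∧ cutEdges H A ≤ K := by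
        obtain ⟨A, _, hA⟩ := Finset.exists_subset_card_eq (s := (univ : Finset (Fin N))) (n := h)
          (by simp; omega)
        refine ⟨A, hA, le_trans ?_ hK⟩
        unfold cutEdges
        refine (Finset.card_le_univ _).trans ?_
        simp
      simp [this]
  push Not at hK
  have hNR : (1 : ℝ) ≤ N := by exact_mod_cast hN1
  have hlamR : (0 : ℝ) ≤ lam := Nat.cast_nonneg _
  set g : ℝ := 1 / (4 * (2 * (lam : ℝ) + 1) ^ 2 * (N : ℝ) ^ 2) with hg
  have hg0 : 0 < g := by positivity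
  have hg1 : g ≤ 1 / 2 := by
    rw [hg]
    apply one_div_le_one_div_of_le (by norm_num)
    have e1 : (1 : ℝ) ≤ (2 * (lam : ℝ) + 1) ^ 2 := one_le_pow₀ (by linarith)
    have e2 : (1 : ℝ) ≤ (N : ℝ) ^ 2 := one_le_pow₀ hNR
    nlinarith
  set ε : ℝ := g * (1 / 4 - 2 * ρ) / 2 with hε
  have hε0 : 0 < ε := by
    rw [hε]
    have : 0 < 1 / 4 - 2 * ρ := by linarith
    positivity
  have hε1 : ε < g * (1 / 4 - 2 * ρ) := by
    have : 0 < g * (1 / 4 - 2 * ρ) := by
      have : 0 < 1 / 4 - 2 * ρ := by linarith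
      positivity
    rw [hε]; linarith
  obtain ⟨A, hA⟩ := hT ε g hg0 hg1 hε0 hε1
  obtain ⟨n₀, hA⟩ := hA (1 / 30) (by norm_num)
  obtain ⟨n₁, hn₁⟩ := exists_large hg0
  obtain ⟨L, D, n, hMn, hneven, P⟩ := exists_params h0 h1 lam hlam1 hlam2 N h K
    (4 * lam * N + n₀ + n₁) hN hh hK (by omega)
  set M := 4 * lam * N + n₀ + n₁ with hM
  have hAn := hA n (by omega) hneven
  have hn1 := hn₁ n (by omega)
  have : NeZero L := ⟨P.hL.ne'⟩
  have hcard : Fintype.card (Fin n) = Fintype.card (GV L N M) := by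
    simp only [Fintype.card_fin, Fintype.card_sum, Fintype.card_prod, Fintype.card_bool,
      ZMod.card]
    exact P.hn
  let e : Fin n ≃ GV L N M := Fintype.equivOfCardEq hcard
  let ans : SimpleGraph (Fin N) → Bool :=
    fun H => decide (∃ A : Finset (Fin N), A.card = h ∧ cutEdges H A ≤ K)
  -- time bound
  set t' : ℕ := a * (N * N) ^ k₀ with ht'
  have htime : (c₀ : ℝ) * (1 / ε + 1 / g) ^ k₀ ≤ t' := by
    have e1 : 1 / ε + 1 / g =
        4 * (2 * (lam : ℝ) + 1) ^ 2 * (8 / (1 - 8 * ρ) + 1) * ((N : ℝ) * N) := by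
      rw [hε, hg]
      have : (1 : ℝ) / 4 - 2 * ρ ≠ 0 := by
        have : 0 < 1 / 4 - 2 * ρ := by linarith
        exact this.ne'
      have h8 : (1 : ℝ) / 4 - 2 * ρ = (1 - 8 * ρ) / 4 := by ring
      rw [h8]
      field_simp
      ring
    rw [e1, ht', ha]
    push_cast
    rw [mul_assoc (c₀ : ℝ), ← mul_pow]
    gcongr
  -- the boosting lemma
  let p : SimpleGraph (Fin n) × (SimpleGraph (Fin n) → Bool) → ℝ :=
    fun i => toggleProb g i.1 * (A n).prob i.2
  have hp0 : ∀ i, 0 ≤ p i := fun i =>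
    mul_nonneg (toggleProb_nonneg hg0.le (by linarith) _) ((A n).prob_nonneg _)
  have hp1 : ∑ i, p i = 1 := by
    have hsum : ∑ f, (A n).prob f = 1 := by
      have := (A n).sum_prob
      rwa [finsum_eq_sum_of_fintype] at this
    simp only [p]
    rw [Fintype.sum_prod_type, ← Finset.sum_mul_sum, sum_toggleProb, hsum, one_mul]
  have hans : ∀ H, ans H = true ↔ RhoBisection ρ (baseGraph L M D e H) := by
    intro H
    obtain ⟨b1, b2⟩ := base_answer P e H
    have hnn : (0 : ℝ) ≤ (n : ℝ) ^ 2 := by positivity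
    simp only [ans, decide_eq_true_eq]
    constructor
    · intro hyes
      obtain ⟨S, hS1, hS2⟩ := b1 hyes
      exact ⟨S, hS1, by nlinarith⟩
    · rintro ⟨S, hS1, hS2⟩
      by_contra hno
      have h5 := b2 hno S hS1
      have hn0 : (0 : ℝ) < (n : ℝ) ^ 2 := by
        have : 0 < n := by
          have := P.hM
          omega
        positivity
      nlinarith
  have herr : ∀ H, ∑ i with i.2 (symmDiff (baseGraph L M D e H) i.1) ≠ ans H, p i ≤ 2 / 5 := by
    intro H
    obtain ⟨b1, b2⟩ := base_answer P e H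
    refine total_error hg0.le (by linarith) (A n) _ (hAn _) (ans H) (hans H) ?_
    by_cases hyes : (∃ A : Finset (Fin N), A.card = h ∧ cutEdges H A ≤ K)
    · obtain ⟨S, hS1, hS2⟩ := b1 hyes
      have hR : RhoBisection ρ (baseGraph L M D e H) := (hans H).mp (by simpa [ans] using hyes)
      have := prob_yes hg0.le le_rfl hg1 _ S hS1 hS2
      simp only [hR, iff_true]
      refine this.trans (le_trans ?_ hn1)
      have : (1 : ℝ) ≤ 2 ^ n := one_le_pow₀ (by norm_num)
      have h6 := (Real.exp_pos (-((g / 2) ^ 2 * (n : ℝ) ^ 2))).le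
      nlinarith
    · have hR : ¬ RhoBisection ρ (baseGraph L M D e H) := by
        intro hcon
        exact hyes (by simpa [ans] using (hans H).mpr hcon)
      have := prob_no hg0.le le_rfl hg1 _ (b2 hyes)
      simp only [hR, iff_false, not_not]
      exact this.trans hn1
  obtain ⟨r, hr1, hr2⟩ := boost p hp0 hp1
    (fun i H => i.2 (symmDiff (baseGraph L M D e H) i.1)) ans herr
    (35 * (N * N + 1)) (pow_bound N _ (card_simpleGraph_le N))
  set m := 35 * (N * N + 1) with hm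
  let f : ℕ → SimpleGraph (Fin N) → Bool :=
    fun j H => (r j).2 (symmDiff (baseGraph L M D e H) (r j).1)
  have hf : ∀ j, Computes (adjBasis N) (2 + 10 * (t' + 1) ^ 3) {f j} := by
    intro j
    have hne : (A n).prob (r j).2 ≠ 0 := by
      intro h0'
      have := hr1 j
      simp only [p, h0', mul_zero, lt_self_iff_false] at this
    exact ComputedInTime.computes (fun H => symmDiff (baseGraph L M D e H) (r j).1) 2
      (fun u v H => decide ((symmDiff (baseGraph L M D e H) (r j).1).Adj u v))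
      (fun u v H => by simp) (fun u v => adjbit_computes L M D e (r j).1 u v) t' htime
      ((A n).computed _ hne)
  have hall : Computes (adjBasis N) (m * (2 + 10 * (t' + 1) ^ 3)) {g | ∃ j ∈ range m, g = f j} := by
    have := (Computes.empty (𝓑 := adjBasis N)).bigUnion (range m) f (2 + 10 * (t' + 1) ^ 3) (by
      intro t G _ ht j _
      refine (ht.union (hf j)).mono le_rfl ?_
      rintro g (rfl | hg)
      · right; rfl
      · left; exact hg)
    refine this.mono ?_ ?_
    · simp only [card_range]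
      rw [mul_comm m]; omega
    · rintro g hg; right; exact hg
  have hmaj := hall.majority m f (fun j hj => ⟨j, mem_range.mpr hj, rfl⟩) ans (by
    intro H
    have h7 := hr2 H
    change 2 * ((range m).filter (fun j => f j H ≠ ans H)).card < m at h7
    have h8 : ((range m).filter (fun j => f j H ≠ ans H)).card +
        ((range m).filter (fun j => ¬ (f j H ≠ ans H))).card = m := by
      rw [Finset.card_filter_add_card_filter_not, card_range]
    unfold cnt
    cases hH : ans H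
    · have h9 : (range m).filter (fun j => f j H ≠ ans H) =
          (range m).filter (fun j => f j H = true) := by
        refine Finset.filter_congr fun j _ => ?_
        rw [hH]; simp
      rw [h9] at h7
      simp only [Bool.false_eq_true, false_iff, not_lt]
      omega
    · have h9 : (range m).filter (fun j => ¬ (f j H ≠ ans H)) =
          (range m).filter (fun j => f j H = true) := by
        refine Finset.filter_congr fun j _ => ?_
        rw [hH]; simp
      rw [h9] at h8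
      simp only [true_iff]
      omega)
  refine hmaj.mono ?_ ?_
  · exact size_bound a k₀ N hN1
  · rintro g rfl
    left; rfl

end

end Pool.Agent.Helper76_Bisect
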