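import Pool.Agent.Helper76_Bisect.Gates
import Pool.Agent.Helper76_Bisect.Reduction

set_option autoImplicit false

/-!
From systems of local constraints to cuts.
-/

namespace Pool.Agent.Helper76_Bisect

open Finset

/-- vertices: for each variable (and the reference constant `none`) a centre and many copies -/
abbrev U (k l : ℕ) : Type := Option (Fin k) × Option (Fin l × Fin 5)

/-- the pairs of slots joined in a NAND gadget -/
def SP : Finset (Fin 5 × Fin 5) :=
  {(0, 1), (0, 2), (1, 2), (0, 3), (1, 3), (2, 3), (0, 4), (1, 4), (2, 4)}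

theorem SP_count : ∀ β : Fin 5 → Bool,
    3 ≤ (SP.filter (fun p => (β p.1 = true ↔ β p.2 = true))).card ∧
    ((SP.filter (fun p => (β p.1 = true ↔ β p.2 = true))).card = 3 ↔
      (β 3 = β 4 ∧ β 3 = !((β 0 && β 1) || (β 0 && β 2) || (β 1 && β 2)))) := by
  decide

theorem SP_lt : ∀ p ∈ SP, p.1 < p.2 := by decide

section
open Classical

variable {k l n : ℕ}

/-- the variables in the slots of a NAND gadget -/
def slotVar (z a b : Fin k) : Fin 5 → Option (Fin k) := ![some a, some b, none, some z, some z]

/-- the vertices of a NAND gadget -/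
def gv (g : Fin l) (z a b : Fin k) (j : Fin 5) : U k l := (slotVar z a b j, some (g, j))

theorem gv_injective (g : Fin l) (z a b : Fin k) : Function.Injective (gv g z a b) := by
  intro i j h
  have := congrArg Prod.snd h
  simp only [gv, Option.some.injEq, Prod.mk.injEq, true_and] at this
  exact this

/-- edge forcing the value of a variable -/
def bitE (g : Fin l) (v : Fin k) (b : Bool) : U k l × U k l :=
  if b = true then ((some v, some (g, 0)), (none, some (g, 1)))
  else ((some v, none), (none, some (g, 1)))

/-- edges of a gadget -/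
noncomputable def gE (x : Fin n → Bool) (g : Fin l) : Gate (Fin k) n → Finset (U k l × U k l)
  | .xin v i => {bitE g v (x i)}
  | .con v b => {bitE g v b}
  | .nand z a b => SP.image (fun p => (gv g z a b p.1, gv g z a b p.2))

/-- edges between the centre and the copies of a variable -/
noncomputable def starE (k l : ℕ) : Finset (U k l × U k l) :=
  univ.image (fun p : Option (Fin k) × (Fin l × Fin 5) => ((p.1, none), (p.1, some p.2)))

/-- all oriented edges -/
noncomputable def allE (gs : Fin l → Gate (Fin k) n) (x : Fin n → Bool) :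
    Finset (U k l × U k l) :=
  starE k l ∪ univ.biUnion (fun g => gE x g (gs g))

/-- the label of an oriented edge -/
noncomputable def lab (e : U k l × U k l) : Option (Fin l) :=
  if e.1.2 = none ∧ e.1.1 = e.2.1 then none else e.2.2.map Prod.fst

/-- rank of a vertex, used to orient edges -/
def rk : Option (Fin l × Fin 5) → ℕ
  | none => 0
  | some p => p.2.val + 1

theorem lab_star {e : U k l × U k l} (he : e ∈ starE k l) : lab e = none := by
  obtain ⟨p, _, rfl⟩ := Finset.mem_image.mp he
  simp [lab]

theorem lab_bit (g : Fin l) (v : Fin k) (b : Bool) : lab (bitE g v b) = some g := by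
  cases b <;> simp [lab, bitE]

theorem lab_gate {x : Fin n → Bool} {g : Fin l} {γ : Gate (Fin k) n} {e : U k l × U k l}
    (he : e ∈ gE x g γ) : lab e = some g := by
  cases γ with
  | xin v i => rw [gE, Finset.mem_singleton] at he; rw [he]; exact lab_bit _ _ _
  | con v b => rw [gE, Finset.mem_singleton] at he; rw [he]; exact lab_bit _ _ _
  | nand z a b =>
    rw [gE] at he
    obtain ⟨p, _, rfl⟩ := Finset.mem_image.mp he
    simp [lab, gv]

theorem rk_star {e : U k l × U k l} (he : e ∈ starE k l) : rk e.1.2 < rk e.2.2 := by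
  obtain ⟨p, _, rfl⟩ := Finset.mem_image.mp he
  simp [rk]

theorem rk_bit (g : Fin l) (v : Fin k) (b : Bool) :
    rk (bitE g v b).1.2 < rk (bitE g v b).2.2 := by
  cases b <;> simp [rk, bitE]

theorem rk_gate {x : Fin n → Bool} {g : Fin l} {γ : Gate (Fin k) n} {e : U k l × U k l}
    (he : e ∈ gE x g γ) : rk e.1.2 < rk e.2.2 := by
  cases γ with
  | xin v i => rw [gE, Finset.mem_singleton] at he; rw [he]; exact rk_bit _ _ _
  | con v b => rw [gE, Finset.mem_singleton] at he; rw [he]; exact rk_bit _ _ _
  | nand z a b =>
    rw [gE] at he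
    obtain ⟨p, hp, rfl⟩ := Finset.mem_image.mp he
    have := SP_lt p hp
    simp only [rk, gv]
    have : p.1.val < p.2.val := this
    omega

theorem rk_all {gs : Fin l → Gate (Fin k) n} {x : Fin n → Bool} {e : U k l × U k l}
    (he : e ∈ allE gs x) : rk e.1.2 < rk e.2.2 := by
  rcases Finset.mem_union.mp he with h | h
  · exact rk_star h
  · obtain ⟨g, _, hg⟩ := Finset.mem_biUnion.mp h
    exact rk_gate hg

/-- number of edges satisfying a predicate, split over gadgets -/
theorem card_split (gs : Fin l → Gate (Fin k) n) (x : Fin n → Bool)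
    (P : U k l × U k l → Prop) :
    ((allE gs x).filter P).card =
      ((starE k l).filter P).card + ∑ g, ((gE x g (gs g)).filter P).card := by
  unfold allE
  rw [Finset.filter_union, Finset.filter_biUnion, Finset.card_union_of_disjoint,
    Finset.card_biUnion]
  · intro g _ g' _ hgg'
    rw [Function.onFun, Finset.disjoint_left]
    intro e he he'
    have h1 := lab_gate (Finset.mem_filter.mp he).1
    have h2 := lab_gate (Finset.mem_filter.mp he').1
    rw [h1] at h2
    exact hgg' (Option.some.inj h2)
  · rw [Finset.disjoint_left]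
    intro e he he'
    obtain ⟨g, _, hg⟩ := Finset.mem_biUnion.mp he'
    have h1 := lab_star (Finset.mem_filter.mp he).1
    have h2 := lab_gate (Finset.mem_filter.mp hg).1
    rw [h1] at h2
    exact absurd h2 (by simp)

/-- the edge `e` is not cut by `S` -/
def uncut (S : Finset (U k l)) (e : U k l × U k l) : Prop := e.1 ∈ S ↔ e.2 ∈ S

/-- minimum number of uncut edges in a gadget -/
def deficit : Gate (Fin k) n → ℕ
  | .xin _ _ => 0
  | .con _ _ => 0
  | .nand _ _ _ => 3

/-- number of edges of a gadget -/
def esize : Gate (Fin k) n → ℕ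
  | .xin _ _ => 1
  | .con _ _ => 1
  | .nand _ _ _ => 9

theorem card_gE (x : Fin n → Bool) (g : Fin l) (γ : Gate (Fin k) n) :
    (gE x g γ).card = esize γ := by
  cases γ with
  | xin v i => rfl
  | con v b => rfl
  | nand z a b =>
    rw [gE, Finset.card_image_of_injective]
    · rfl
    · intro p q h
      simp only [Prod.mk.injEq] at h
      exact Prod.ext (gv_injective g z a b h.1) (gv_injective g z a b h.2)

theorem nand_count (x : Fin n → Bool) (g : Fin l) (z a b : Fin k) (S : Finset (U k l)) :
    ((gE x g (Gate.nand z a b)).filter (uncut S)).card =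
      (SP.filter (fun p => (decide (gv g z a b p.1 ∈ S) = true ↔
        decide (gv g z a b p.2 ∈ S) = true))).card := by
  rw [gE, Finset.filter_image, Finset.card_image_of_injective]
  · congr 1
    ext p
    simp [uncut]
  · intro p q h
    simp only [Prod.mk.injEq] at h
    exact Prod.ext (gv_injective g z a b h.1) (gv_injective g z a b h.2)

theorem deficit_le (x : Fin n → Bool) (g : Fin l) (γ : Gate (Fin k) n) (S : Finset (U k l)) :
    deficit γ ≤ ((gE x g γ).filter (uncut S)).card := by
  cases γ with
  | xin v i => exact Nat.zero_le _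
  | con v b => exact Nat.zero_le _
  | nand z a b =>
    rw [nand_count]
    exact (SP_count (fun j => decide (gv g z a b j ∈ S))).1

/-- the value of the copies of a variable -/
noncomputable def val (S : Finset (U k l)) (v : Option (Fin k)) : Bool := decide ((v, none) ∉ S)

/-- `S` cuts all star edges -/
def starCut (S : Finset (U k l)) : Prop := ∀ v t, ((v, some t) ∈ S ↔ (v, none) ∉ S)

theorem starCut_iff (S : Finset (U k l)) :
    ((starE k l).filter (uncut S)).card = 0 ↔ starCut S := by
  rw [Finset.card_eq_zero, Finset.filter_eq_empty_iff]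
  constructor
  · intro h v t
    have := h (Finset.mem_image.mpr ⟨(v, t), Finset.mem_univ _, rfl⟩)
    simp only [uncut] at this
    tauto
  · intro h e he
    obtain ⟨p, _, rfl⟩ := Finset.mem_image.mp he
    have := h p.1 p.2
    simp only [uncut]
    tauto

theorem gate_iff {x : Fin n → Bool} {g : Fin l} {γ : Gate (Fin k) n} {S : Finset (U k l)}
    (hS : starCut S) :
    ((gE x g γ).filter (uncut S)).card = deficit γ ↔
      γ.holds x (fun v => xor (val S (some v)) (val S none)) := by
  have hcp : ∀ v t, ((v, some t) ∈ S) ↔ val S v = true := by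
    intro v t; rw [hS v t]; simp [val]
  have hct : ∀ v, ((v, none) ∈ S) ↔ val S v = false := by
    intro v; simp [val]
  have hbit : ∀ (v : Fin k) (b : Bool), ¬ uncut S (bitE g v b) ↔
      xor (val S (some v)) (val S none) = b := by
    intro v b
    cases b
    · simp only [uncut, bitE, Bool.false_eq_true, if_false, hcp, hct]
      cases val S (some v) <;> cases val S none <;> decide
    · simp only [uncut, bitE, if_true, hcp]
      cases val S (some v) <;> cases val S none <;> decide
  cases γ with
  | xin v i =>
    rw [gE, deficit, Finset.card_eq_zero, Finset.filter_eq_empty_iff, Gate.holds, ← hbit]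
    simp
  | con v b =>
    rw [gE, deficit, Finset.card_eq_zero, Finset.filter_eq_empty_iff, Gate.holds, ← hbit]
    simp
  | nand z a b =>
    rw [nand_count, deficit]
    rw [(SP_count (fun j => decide (gv g z a b j ∈ S))).2, Gate.holds]
    have e0 : decide (gv g z a b 0 ∈ S) = val S (some a) := by
      rw [Bool.eq_iff_iff, decide_eq_true_eq]; exact hcp _ _
    have e1 : decide (gv g z a b 1 ∈ S) = val S (some b) := by
      rw [Bool.eq_iff_iff, decide_eq_true_eq]; exact hcp _ _
    have e2 : decide (gv g z a b 2 ∈ S) = val S none := by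
      rw [Bool.eq_iff_iff, decide_eq_true_eq]; exact hcp _ _
    have e3 : decide (gv g z a b 3 ∈ S) = val S (some z) := by
      rw [Bool.eq_iff_iff, decide_eq_true_eq]; exact hcp _ _
    have e4 : decide (gv g z a b 4 ∈ S) = val S (some z) := by
      rw [Bool.eq_iff_iff, decide_eq_true_eq]; exact hcp _ _
    rw [e0, e1, e2, e3, e4]
    cases val S (some a) <;> cases val S (some b) <;> cases val S none <;>
      cases val S (some z) <;> decide

/-- Satisfiability of the constraints in terms of uncut edges. -/
theorem uncut_iff (gs : Fin l → Gate (Fin k) n) (x : Fin n → Bool) :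
    (∃ S : Finset (U k l), ((allE gs x).filter (uncut S)).card ≤ ∑ g, deficit (gs g)) ↔
      ∃ α : Fin k → Bool, ∀ g, (gs g).holds x α := by
  constructor
  · rintro ⟨S, hS⟩
    rw [card_split] at hS
    have h1 : ∑ g, deficit (gs g) ≤ ∑ g, ((gE x g (gs g)).filter (uncut S)).card :=
      Finset.sum_le_sum fun g _ => deficit_le x g (gs g) S
    have h2 : ((starE k l).filter (uncut S)).card = 0 := by omega
    have h3 : ∑ g, deficit (gs g) = ∑ g, ((gE x g (gs g)).filter (uncut S)).card := by omega
    have hS' := (starCut_iff S).mp h2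
    refine ⟨_, fun g => (gate_iff (g := g) hS').mp ?_⟩
    exact ((Finset.sum_eq_sum_iff_of_le fun g _ => deficit_le x g (gs g) S).mp h3 g
      (Finset.mem_univ g)).symm
  · rintro ⟨α, hα⟩
    let c : Option (Fin k) → Bool := fun v => v.elim false α
    let S : Finset (U k l) := univ.filter (fun u => (c u.1 = true ↔ u.2 ≠ none))
    have hc : ∀ v, val S v = c v := by
      intro v
      rw [Bool.eq_iff_iff]
      simp [val, S]
    have hS' : starCut S := by
      intro v t
      simp [S]
    refine ⟨S, ?_⟩
    rw [card_split, (starCut_iff S).mpr hS', zero_add]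
    refine le_of_eq (Finset.sum_congr rfl fun g _ => (gate_iff hS').mpr ?_)
    have : (fun v => xor (val S (some v)) (val S none)) = α := by
      funext v
      rw [hc, hc]
      simp [c]
    rw [this]
    exact hα g

/-- the graph -/
noncomputable def cutGraph (gs : Fin l → Gate (Fin k) n) (x : Fin n → Bool) :
    SimpleGraph (U k l) := SimpleGraph.fromRel (fun u v => (u, v) ∈ allE gs x)

theorem cutGraph_adj (gs : Fin l → Gate (Fin k) n) (x : Fin n → Bool) (u v : U k l) :
    (cutGraph gs x).Adj u v ↔ ((u, v) ∈ allE gs x ∨ (v, u) ∈ allE gs x) := by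
  unfold cutGraph
  rw [SimpleGraph.fromRel_adj]
  constructor
  · exact fun h => h.2
  · intro h
    refine ⟨?_, h⟩
    rintro rfl
    rcases h with h | h <;> exact absurd (rk_all h) (lt_irrefl _)

theorem cutGraph_cut (gs : Fin l → Gate (Fin k) n) (x : Fin n → Bool) (S : Finset (U k l)) :
    cutEdges (cutGraph gs x) S + ((allE gs x).filter (uncut S)).card = (allE gs x).card := by
  rw [← Finset.card_filter_add_card_filter_not (s := allE gs x) (p := fun e => ¬ uncut S e)]
  simp only [not_not]
  congr 1
  unfold cutEdges
  refine Finset.card_nbij' (fun p => if p ∈ allE gs x then p else p.swap)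
    (fun p => if p.1 ∈ S then p else p.swap) ?_ ?_ ?_ ?_
  · rintro ⟨u, v⟩ h
    simp only [Finset.coe_filter, Finset.mem_univ, true_and, Set.mem_ofPred_eq] at h
    obtain ⟨hu, hv, huv⟩ := h
    rw [cutGraph_adj] at huv
    simp only [Finset.coe_filter, Set.mem_ofPred_eq, uncut]
    by_cases h : (u, v) ∈ allE gs x
    · simp [h, hu, hv]
    · have h' : (v, u) ∈ allE gs x := by tauto
      simp [h, h', hu, hv]
  · rintro ⟨u, v⟩ h
    simp only [Finset.coe_filter, Set.mem_ofPred_eq, uncut] at h
    obtain ⟨h1, h2⟩ := h
    simp only [Finset.coe_filter, Finset.mem_univ, true_and, Set.mem_ofPred_eq, cutGraph_adj]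
    by_cases h : u ∈ S
    · have hv : v ∉ S := by tauto
      simp [h, hv, h1]
    · have hv : v ∈ S := by tauto
      simp [h, hv, h1]
  · rintro ⟨u, v⟩ h
    simp only [Finset.coe_filter, Finset.mem_univ, true_and, Set.mem_ofPred_eq] at h
    obtain ⟨hu, hv, huv⟩ := h
    by_cases h : (u, v) ∈ allE gs x
    · simp [h, hu]
    · simp [h, hv]
  · rintro ⟨u, v⟩ h
    simp only [Finset.coe_filter, Set.mem_ofPred_eq, uncut] at h
    obtain ⟨h1, h2⟩ := h
    by_cases h : u ∈ S
    · simp [h, h1]
    · have h3 : (v, u) ∉ allE gs x := by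
        intro h3
        have a1 := rk_all h1
        have a2 := rk_all h3
        exact absurd (a1.trans a2) (lt_irrefl _)
      simp [h, h3]

theorem card_allE (gs : Fin l → Gate (Fin k) n) (x : Fin n → Bool) :
    (allE gs x).card = (starE k l).card + ∑ g, esize (gs g) := by
  have := card_split gs x (fun _ => True)
  simp only [Finset.filter_true] at this
  rw [this]
  congr 1
  exact Finset.sum_congr rfl fun g _ => card_gE x g (gs g)

/-- the complement of the graph together with isolated vertices -/
noncomputable def bisGraph (gs : Fin l → Gate (Fin k) n) (x : Fin n → Bool) :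
    SimpleGraph (U k l ⊕ U k l) where
  Adj p q := p ≠ q ∧ ¬ ∃ u v, p = Sum.inl u ∧ q = Sum.inl v ∧ (cutGraph gs x).Adj u v
  symm := ⟨by
    rintro p q ⟨h1, h2⟩
    refine ⟨h1.symm, ?_⟩
    rintro ⟨u, v, hu, hv, h⟩
    exact h2 ⟨v, u, hv, hu, h.symm⟩⟩
  loopless := ⟨by rintro p ⟨h, _⟩; exact h rfl⟩

theorem bisGraph_cut (gs : Fin l → Gate (Fin k) n) (x : Fin n → Bool)
    (A : Finset (U k l ⊕ U k l)) (hA : A.card = Fintype.card (U k l)) :
    cutEdges (bisGraph gs x) A + cutEdges (cutGraph gs x) (univ.filter (fun u => Sum.inl u ∈ A)) =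
      Fintype.card (U k l) * Fintype.card (U k l) := by
  have h1 : (A ×ˢ Aᶜ).card = Fintype.card (U k l) * Fintype.card (U k l) := by
    rw [Finset.card_product, Finset.card_compl, hA, Fintype.card_sum]
    congr 1
    omega
  rw [← h1, ← Finset.card_filter_add_card_filter_not (s := A ×ˢ Aᶜ)
    (p := fun p => (bisGraph gs x).Adj p.1 p.2)]
  congr 1
  · unfold cutEdges
    congr 1
    ext p
    simp only [Finset.mem_filter, Finset.mem_univ, true_and, Finset.mem_product,
      Finset.mem_compl, and_assoc]
  · unfold cutEdges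
    refine Finset.card_nbij (fun p => (Sum.inl p.1, Sum.inl p.2)) ?_ ?_ ?_
    · rintro ⟨u, v⟩ h
      simp only [Finset.coe_filter, Finset.mem_univ, true_and, Set.mem_ofPred_eq,
        Finset.mem_filter] at h
      simp only [Finset.coe_filter, Finset.mem_product, Finset.mem_compl, Set.mem_ofPred_eq,
        bisGraph]
      refine ⟨⟨h.1, h.2.1⟩, ?_⟩
      rintro ⟨_, h3⟩
      exact h3 ⟨u, v, rfl, rfl, h.2.2⟩
    · rintro ⟨u, v⟩ _ ⟨u', v'⟩ _ h
      simpa using h
    · rintro ⟨p, q⟩ h
      simp only [Finset.coe_filter, Finset.mem_product, Finset.mem_compl, Set.mem_ofPred_eq,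
        bisGraph] at h
      obtain ⟨⟨h1, h2⟩, h3⟩ := h
      have hpq : p ≠ q := fun hh => h2 (hh ▸ h1)
      have h4 : ∃ u v, p = Sum.inl u ∧ q = Sum.inl v ∧ (cutGraph gs x).Adj u v := by
        by_contra hcon
        exact h3 ⟨hpq, hcon⟩
      obtain ⟨u, v, rfl, rfl, h5⟩ := h4
      refine ⟨(u, v), ?_, rfl⟩
      simp only [Finset.coe_filter, Finset.mem_univ, true_and, Set.mem_ofPred_eq,
        Finset.mem_filter]
      exact ⟨h1, h2, h5⟩

/-- Satisfiability in terms of bisections. -/
theorem bis_iff (gs : Fin l → Gate (Fin k) n) (x : Fin n → Bool) :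
    (∃ A : Finset (U k l ⊕ U k l), A.card = Fintype.card (U k l) ∧
      cutEdges (bisGraph gs x) A ≤ Fintype.card (U k l) * Fintype.card (U k l) +
        ∑ g, deficit (gs g) - ((starE k l).card + ∑ g, esize (gs g))) ↔
      ∃ α : Fin k → Bool, ∀ g, (gs g).holds x α := by
  rw [← uncut_iff]
  have hE : (allE gs x).card ≤ Fintype.card (U k l) * Fintype.card (U k l) := by
    refine (Finset.card_le_univ _).trans ?_
    rw [Fintype.card_prod]
  have hE' := card_allE gs x
  constructor
  · rintro ⟨A, hA1, hA2⟩
    refine ⟨univ.filter (fun u => Sum.inl u ∈ A), ?_⟩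
    have h1 := bisGraph_cut gs x A hA1
    have h2 := cutGraph_cut gs x (univ.filter (fun u => Sum.inl u ∈ A))
    omega
  · rintro ⟨S, hS⟩
    -- extend `S` to a bisection
    have hSle : S.card ≤ Fintype.card (U k l) := Finset.card_le_univ S
    obtain ⟨B, _, hB⟩ := Finset.exists_subset_card_eq (s := (univ : Finset (U k l)))
      (n := Fintype.card (U k l) - S.card) (by rw [Finset.card_univ]; omega)
    refine ⟨S.map Function.Embedding.inl ∪ B.map Function.Embedding.inr, ?_, ?_⟩
    · rw [Finset.card_union_of_disjoint, Finset.card_map, Finset.card_map, hB]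
      · omega
      · rw [Finset.disjoint_left]
        intro p hp hp'
        obtain ⟨u, _, rfl⟩ := Finset.mem_map.mp hp
        obtain ⟨v, _, hv⟩ := Finset.mem_map.mp hp'
        simp at hv
    · have hA1 : (S.map Function.Embedding.inl ∪ B.map Function.Embedding.inr :
          Finset (U k l ⊕ U k l)).card = Fintype.card (U k l) := by
        rw [Finset.card_union_of_disjoint, Finset.card_map, Finset.card_map, hB]
        · omega
        · rw [Finset.disjoint_left]
          intro p hp hp'
          obtain ⟨u, _, rfl⟩ := Finset.mem_map.mp hp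
          obtain ⟨v, _, hv⟩ := Finset.mem_map.mp hp'
          simp at hv
      have h1 := bisGraph_cut gs x _ hA1
      have h3 : univ.filter (fun u => Sum.inl u ∈ (S.map Function.Embedding.inl ∪
          B.map Function.Embedding.inr : Finset (U k l ⊕ U k l))) = S := by
        ext u; simp
      rw [h3] at h1
      have h2 := cutGraph_cut gs x S
      omega

end

end Pool.Agent.Helper76_Bisect
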