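import Pool.Agent.Helper76_Bisect.Defs

set_option autoImplicit false

/-!
Straight-line programs over an arbitrary input space with an arbitrary set of basic functions,
and closure properties of the notion of a set of functions computed with a given size.
-/

namespace Pool.Agent.Helper76_Bisect

/-- Straight-line programs over a set of basic functions. -/
inductive SLP {X : Type} (𝓑 : Set (X → Bool)) : List (X → Bool) → Prop
  | nil : SLP 𝓑 []
  | base {L : List (X → Bool)} (f : X → Bool) : SLP 𝓑 L → f ∈ 𝓑 → SLP 𝓑 (f :: L)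
  | const {L : List (X → Bool)} (b : Bool) : SLP 𝓑 L → SLP 𝓑 ((fun _ => b) :: L)
  | nand {L : List (X → Bool)} (f g : X → Bool) : SLP 𝓑 L → f ∈ L → g ∈ L →
      SLP 𝓑 ((fun x => !(f x && g x)) :: L)

theorem SLP.append {X : Type} {𝓑 : Set (X → Bool)} {L₁ L₂ : List (X → Bool)}
    (h₁ : SLP 𝓑 L₁) (h₂ : SLP 𝓑 L₂) : SLP 𝓑 (L₁ ++ L₂) := by
  induction h₁ with
  | nil => simpa using h₂
  | base f _ hf ih => exact SLP.base f ih hf
  | const b _ ih => exact SLP.const b ih
  | nand f g _ hf hg ih =>
    exact SLP.nand f g ih (List.mem_append_left _ hf) (List.mem_append_left _ hg)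

/-- All functions in `F` are computed by one straight-line program of size at most `s`. -/
def Computes {X : Type} (𝓑 : Set (X → Bool)) (s : ℕ) (F : Set (X → Bool)) : Prop :=
  ∃ L, SLP 𝓑 L ∧ L.length ≤ s ∧ ∀ f ∈ F, f ∈ L

section
variable {X : Type} {𝓑 : Set (X → Bool)} {s t : ℕ} {F G : Set (X → Bool)}

theorem Computes.mono (h : Computes 𝓑 s F) (hs : s ≤ t) (hF : G ⊆ F) : Computes 𝓑 t G := by
  obtain ⟨L, h1, h2, h3⟩ := h
  exact ⟨L, h1, h2.trans hs, fun f hf => h3 f (hF hf)⟩

theorem Computes.le (h : Computes 𝓑 s F) (hs : s ≤ t) : Computes 𝓑 t F :=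
  h.mono hs subset_rfl

theorem Computes.subset (h : Computes 𝓑 s F) (hF : G ⊆ F) : Computes 𝓑 s G :=
  h.mono le_rfl hF

theorem Computes.empty : Computes 𝓑 0 (∅ : Set (X → Bool)) :=
  ⟨[], SLP.nil, by simp, by simp⟩

theorem Computes.union (h : Computes 𝓑 s F) (h' : Computes 𝓑 t G) :
    Computes 𝓑 (s + t) (F ∪ G) := by
  obtain ⟨L, h1, h2, h3⟩ := h
  obtain ⟨L', h1', h2', h3'⟩ := h'
  refine ⟨L ++ L', h1.append h1', by simp only [List.length_append]; omega, ?_⟩
  rintro f (hf | hf)
  · exact List.mem_append_left _ (h3 f hf)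
  · exact List.mem_append_right _ (h3' f hf)

theorem Computes.const (h : Computes 𝓑 s F) (b : Bool) :
    Computes 𝓑 (s + 1) (insert (fun _ => b) F) := by
  obtain ⟨L, h1, h2, h3⟩ := h
  refine ⟨_, SLP.const b h1, by simp only [List.length_cons]; omega, ?_⟩
  rintro f (rfl | hf)
  · exact List.mem_cons_self
  · exact List.mem_cons_of_mem _ (h3 f hf)

theorem Computes.base (h : Computes 𝓑 s F) {f : X → Bool} (hf : f ∈ 𝓑) :
    Computes 𝓑 (s + 1) (insert f F) := by
  obtain ⟨L, h1, h2, h3⟩ := h
  refine ⟨_, SLP.base f h1 hf, by simp only [List.length_cons]; omega, ?_⟩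
  rintro f (rfl | hf)
  · exact List.mem_cons_self
  · exact List.mem_cons_of_mem _ (h3 f hf)

theorem Computes.nand (h : Computes 𝓑 s F) {f g : X → Bool} (hf : f ∈ F) (hg : g ∈ F) :
    Computes 𝓑 (s + 1) (insert (fun x => !(f x && g x)) F) := by
  obtain ⟨L, h1, h2, h3⟩ := h
  refine ⟨_, SLP.nand f g h1 (h3 f hf) (h3 g hg), by simp only [List.length_cons]; omega, ?_⟩
  rintro f (rfl | hf)
  · exact List.mem_cons_self
  · exact List.mem_cons_of_mem _ (h3 f hf)

theorem Computes.not (h : Computes 𝓑 s F) {f : X → Bool} (hf : f ∈ F) :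
    Computes 𝓑 (s + 1) (insert (fun x => !(f x)) F) := by
  simpa using h.nand hf hf

theorem Computes.and (h : Computes 𝓑 s F) {f g : X → Bool} (hf : f ∈ F) (hg : g ∈ F) :
    Computes 𝓑 (s + 2) (insert (fun x => f x && g x) F) := by
  have h1 := (h.nand hf hg).not (Set.mem_insert _ _)
  refine h1.mono le_rfl ?_
  rintro a (rfl | ha)
  · left; funext x; simp
  · right; right; exact ha

theorem Computes.or (h : Computes 𝓑 s F) {f g : X → Bool} (hf : f ∈ F) (hg : g ∈ F) :
    Computes 𝓑 (s + 3) (insert (fun x => f x || g x) F) := by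
  have h1 := ((h.not hf).not (f := g) (Set.mem_insert_of_mem _ hg)).nand
    (f := fun x => !(f x)) (g := fun x => !(g x)) (by simp) (by simp)
  refine h1.mono le_rfl ?_
  rintro a (rfl | ha)
  · left; funext x; simp
  · right; right; right; exact ha

/-- one term of a disjunction of conjunctions. -/
theorem Computes.orAnd (h : Computes 𝓑 s F) {f g k : X → Bool} (hf : f ∈ F) (hg : g ∈ F)
    (hk : k ∈ F) :
    Computes 𝓑 (s + 5) (insert (fun x => f x || (g x && k x)) F) := by
  have h1 := (h.and hg hk).or (f := f) (g := fun x => g x && k x) (by simp [hf]) (by simp)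
  refine h1.mono (by omega) ?_
  rintro a (rfl | ha)
  · left; rfl
  · right; right; exact ha

/-- a selection `if b then f else g`. -/
theorem Computes.ite (h : Computes 𝓑 s F) {b f g : X → Bool} (hb : b ∈ F) (hf : f ∈ F)
    (hg : g ∈ F) :
    Computes 𝓑 (s + 8) (insert (fun x => if b x then f x else g x) F) := by
  have h1 := ((h.not hb).and (f := fun x => !(b x)) (g := g) (by simp) (by simp [hg])).orAnd
    (f := fun x => !(b x) && g x) (g := b) (k := f) (by simp) (by simp [hb]) (by simp [hf])
  refine h1.mono (by omega) ?_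
  rintro a (rfl | ha)
  · left; funext x; cases b x <;> simp
  · right; right; right; exact ha

/-- A finite disjunction of conjunctions. -/
theorem Computes.bigOr {ι : Type} (I : Finset ι) (u v : ι → X → Bool) (h : Computes 𝓑 s F)
    (hu : ∀ i ∈ I, u i ∈ F) (hv : ∀ i ∈ I, v i ∈ F) (D : X → Bool)
    (hD : ∀ x, D x = true ↔ ∃ i ∈ I, u i x = true ∧ v i x = true) :
    Computes 𝓑 (s + 5 * I.card + 1) (insert D F) := by
  classical
  induction I using Finset.induction_on generalizing D with
  | empty =>
    have : D = fun _ => false := by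
      funext x; have := hD x; simpa using this
    subst this
    simpa using h.const false
  | insert a I ha ih =>
    let D' : X → Bool := fun x => decide (∃ i ∈ I, u i x = true ∧ v i x = true)
    have hI := ih (fun i hi => hu i (Finset.mem_insert_of_mem hi))
      (fun i hi => hv i (Finset.mem_insert_of_mem hi)) D' (by intro x; simp [D'])
    have h2 := hI.orAnd (f := D') (g := u a) (k := v a) (Set.mem_insert _ _)
      (Set.mem_insert_of_mem _ (hu a (Finset.mem_insert_self _ _)))
      (Set.mem_insert_of_mem _ (hv a (Finset.mem_insert_self _ _)))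
    refine h2.mono ?_ ?_
    · rw [Finset.card_insert_of_notMem ha]; omega
    · rintro f (rfl | hf)
      · left; funext x
        rw [Bool.eq_iff_iff, hD x]
        simp [D', or_comm]
      · right; right; exact hf

/-- Add several functions, each computed from `F` at cost at most `c`. -/
theorem Computes.bigUnion {ι : Type} (I : Finset ι) (u : ι → X → Bool) (c : ℕ)
    (h : Computes 𝓑 s F)
    (hu : ∀ (t : ℕ) (G : Set (X → Bool)), F ⊆ G → Computes 𝓑 t G → ∀ i ∈ I,
      Computes 𝓑 (t + c) (insert (u i) G)) :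
    Computes 𝓑 (s + c * I.card) (F ∪ {f | ∃ i ∈ I, f = u i}) := by
  classical
  induction I using Finset.induction_on with
  | empty => simpa using h
  | insert a I ha ih =>
    have hI := ih (fun t G hG ht i hi => hu t G hG ht i (Finset.mem_insert_of_mem hi))
    have h2 := hu _ _ (Set.subset_union_left) hI a (Finset.mem_insert_self _ _)
    refine h2.mono ?_ ?_
    · rw [Finset.card_insert_of_notMem ha]; ring_nf; omega
    · rintro f (hf | ⟨i, hi, rfl⟩)
      · right; left; exact hf
      · rcases Finset.mem_insert.mp hi with rfl | hi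
        · left; rfl
        · right; right; exact ⟨i, hi, rfl⟩

/-- Substitution. -/
theorem Computes.comp {Y : Type} {𝓒 : Set (Y → Bool)} (Ψ : Y → X) (c : ℕ)
    (hΨ : ∀ f ∈ 𝓑, Computes 𝓒 c {f ∘ Ψ}) (h : Computes 𝓑 s F) :
    Computes 𝓒 (s * (c + 1)) {g | ∃ f ∈ F, g = f ∘ Ψ} := by
  obtain ⟨L, h1, h2, h3⟩ := h
  have key : Computes 𝓒 (L.length * (c + 1)) {g | ∃ f ∈ L, g = f ∘ Ψ} := by
    clear h2 h3
    induction h1 with
    | nil => simpa using Computes.empty
    | base f _ hf ih =>
      refine (ih.union (hΨ f hf)).mono ?_ ?_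
      · simp only [List.length_cons]; ring_nf; omega
      · rintro g ⟨f', hf', rfl⟩
        rcases List.mem_cons.mp hf' with rfl | hf'
        · right; rfl
        · left; exact ⟨f', hf', rfl⟩
    | const b _ ih =>
      refine (ih.const b).mono ?_ ?_
      · simp only [List.length_cons]; ring_nf; omega
      · rintro g ⟨f', hf', rfl⟩
        rcases List.mem_cons.mp hf' with rfl | hf'
        · left; rfl
        · right; exact ⟨f', hf', rfl⟩
    | nand f g _ hf hg ih =>
      refine (ih.nand (f := f ∘ Ψ) (g := g ∘ Ψ) ⟨f, hf, rfl⟩ ⟨g, hg, rfl⟩).mono ?_ ?_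
      · simp only [List.length_cons]; ring_nf; omega
      · rintro k ⟨f', hf', rfl⟩
        rcases List.mem_cons.mp hf' with rfl | hf'
        · left; rfl
        · right; exact ⟨f', hf', rfl⟩
  refine key.mono (Nat.mul_le_mul_right _ h2) ?_
  rintro g ⟨f, hf, rfl⟩
  exact ⟨f, h3 f hf, rfl⟩

end

/-- Coordinate functions. -/
def coords (ι : Type) : Set ((ι → Bool) → Bool) := {f | ∃ i, f = fun x => x i}

theorem SLP.toCircuit {ι : Type} {L : List ((ι → Bool) → Bool)} (h : SLP (coords ι) L) :
    Circuit ι L := by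
  induction h with
  | nil => exact Circuit.nil
  | base f _ hf ih => obtain ⟨i, rfl⟩ := hf; exact Circuit.input i ih
  | const b _ ih => exact Circuit.const b ih
  | nand f g _ hf hg ih => exact Circuit.nand f g ih hf hg

theorem Computes.hasCircuit {ι : Type} {s : ℕ} {F : Set ((ι → Bool) → Bool)}
    (h : Computes (coords ι) s F) {f : (ι → Bool) → Bool} (hf : f ∈ F) : HasCircuit s f := by
  obtain ⟨L, h1, h2, h3⟩ := h
  exact ⟨L, h1.toCircuit, h2, h3 f hf⟩

end Pool.Agent.Helper76_Bisect
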